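import Pool.Agent.FMO.St4

/-!
# FMO, module AFF: from affine varieties to all varieties
-/

set_option autoImplicit false

open CategoryTheory AlgebraicGeometry Polynomial

namespace Pool.Agent.FMO

open Pool.Agent.Lib_helper55.Beil (Var OpenIn Homology)
open UQ (Pt Mo di gp im IDim SP DimLE Th sp szer PSub toHom full pub2)

universe v

namespace AFFAux

/-- An affine variety contains (as an open subvariety) the spectrum of an algebra. -/
theorem exists_sp {k : Type} [Field k] (U : Var k) (hU : IsAffine U.X) :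
    ∃ (A : Type) (_ : CommRing A) (_ : Algebra k A) (_ : Algebra.FiniteType k A)
      (j : OpenIn (sp k A) U), IsIso j.g := by
  let R := Γ(U.X, ⊤)
  let g : Spec R ⟶ Spec (CommRingCat.of k) := U.X.isoSpec.inv ≫ U.f
  let φ : CommRingCat.of k ⟶ R := Spec.preimage g
  have hφ : Spec.map φ = g := Spec.map_preimage g
  let _ : Algebra k R := φ.hom.toAlgebra
  have h1 : LocallyOfFiniteType g := inferInstance
  have h2 : φ.hom.FiniteType := by
    rw [← hφ] at h1
    exact (HasRingHomProperty.Spec_iff (P := @LocallyOfFiniteType)).1 h1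
  have h3 : Algebra.FiniteType k R := h2
  refine ⟨R, inferInstance, inferInstance, h3, ⟨U.X.isoSpec.inv, ?_, ?_⟩, ?_⟩
  · exact hφ.symm
  · show IsOpenImmersion U.X.isoSpec.inv
    infer_instance
  · show IsIso U.X.isoSpec.inv
    infer_instance

end AFFAux

theorem t_AFF : S_AFF.{v} := by
  intro k E _ _ _ _ T hT h X
  rw [UQ.tate_eq hT, ← QCV.gg_iff]
  intro i
  refine (toHom hT i).good_all ?_ X
  intro U hint haff _ _ _
  obtain ⟨A, _, _, _, j, hj⟩ := AFFAux.exists_sp U haff
  refine ⟨sp k A, j, ?_, ?_⟩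
  · exact ⟨(inv j.g) (genericPoint U.X)⟩
  · have h1 := h A
    rw [UQ.tate_eq hT] at h1
    exact (h1 i).1

end Pool.Agent.FMO
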