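import Pool.Agent.FMO.St2
import Pool.Agent.UQ.Fin

/-!
# Project FMO, module CLP: closure properties
-/

set_option autoImplicit false

open CategoryTheory AlgebraicGeometry Polynomial

namespace Pool.Agent.FMO

open Pool.Agent.Lib_helper55.Beil (Var)
open UQ (Pt Mo di gp im IDim SP DimLE Th sp szer PSub toHom full pub2)

universe v

namespace CLPAux

theorem clo_of {k : Type} [Field k]
    {P : ∀ (A : Type) [CommRing A] [Algebra k A] [Algebra.FiniteType k A], Prop}
    (h : QCV.Cls0 k P)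
    (hl : ∀ (A : Type) [CommRing A] [Algebra k A] [Algebra.FiniteType k A], P A → P A[X]) :
    Clo k P where
  iso := fun e hA => h.iso e hA
  triv := fun A _ _ _ h0 => h.triv A h0
  glue := fun a z u s hZ hU => h.glue a z u ⟨s.surj, s.ker, s.away⟩ hZ hU
  opn := fun a z u s hA hZ => h.opn a z u ⟨s.surj, s.ker, s.away⟩ hA hZ
  line := hl

theorem clo_congr {k : Type} [Field k]
    {P Q : ∀ (A : Type) [CommRing A] [Algebra k A] [Algebra.FiniteType k A], Prop}
    (e : ∀ (A : Type) [CommRing A] [Algebra k A] [Algebra.FiniteType k A], P A ↔ Q A)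
    (h : Clo k P) : Clo k Q where
  iso := fun f hA => (e _).1 (h.iso f ((e _).2 hA))
  triv := fun A _ _ _ h0 => (e _).1 (h.triv A h0)
  glue := fun a z u s hZ hU => (e _).1 (h.glue a z u s ((e _).2 hZ) ((e _).2 hU))
  opn := fun a z u s hA hZ => (e _).1 (h.opn a z u s ((e _).2 hA) ((e _).2 hZ))
  line := fun A _ _ _ hA => (e _).1 (h.line A ((e _).2 hA))

end CLPAux

theorem t_CLP : S_CLP.{v} := by
  intro k E _ _ _ _ T hT
  have hP : QCV.Pub2 (toHom hT) (full hT) := pub2 hT
  refine ⟨CLPAux.clo_of (QCV.cls0_ppf (full hT) hP.toPub)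
    (fun A _ _ _ h => QCV.ppf_line (full hT) hP.toPub A h), ?_⟩
  have h2 : Clo k (fun A [CommRing A] [Algebra k A] [Algebra.FiniteType k A] =>
      QCV.GG (toHom hT) (sp k A)) :=
    CLPAux.clo_of (QCV.cls0_gg (QCV.ggc hP)) (fun A _ _ _ h => (QCV.ggc hP).line A h)
  refine CLPAux.clo_congr (fun A _ _ _ => ?_) h2
  rw [UQ.tate_eq hT]
  exact QCV.gg_iff _

end Pool.Agent.FMO
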