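import Pool.Agent.FMO.St2

/-!
# Few monomials (project FMO), module FIN: the results (helper67)
-/

set_option autoImplicit false

open CategoryTheory AlgebraicGeometry Polynomial

namespace Pool.Agent.FMO

open Pool.Agent.Lib_helper55.Beil (Var)
open UQ (Pt Mo di gp im IDim SP DimLE Th sp szer PSub toHom full pub2)

universe v

namespace FINAux

/-- from the residue fields of the ring to the residue fields of the variety -/
lemma at_sp (hRES : S_RES) (k : Type) [Field k] (A : Type) [CommRing A] [Algebra k A]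
    [Algebra.FiniteType k A] (Φ : ∀ (F : Type) [Field F] [Algebra k F], Prop) (hΦ : Inv k Φ)
    (h : ∀ q : PrimeSpectrum A, Φ (Kp q)) (x : Pt (sp k A)) : At Φ (sp k A) x := by
  obtain ⟨q, hq⟩ := (hRES k A Φ hΦ).1 x
  exact hq.mpr (h q)

end FINAux

open FINAux

theorem t_FIN : M_FIN.{v} := by
  intro hGEN hGRW hCIN hRES hSMC hBAS hCLP hPRJ k E _ _ _ _ T hT
  obtain ⟨hc1, hc2⟩ := hCLP k E T hT
  obtain ⟨hi1, hi2, hi3, hi4, hi5⟩ := hSMC k
  have q1 : ∀ X : Var k, QCV.PPF (toHom hT) X → T.Q1 X := fun X h =>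
    (UQ.q1_iff hT X).mpr fun i => QCV.q1_of_pf _ _ (h i)
  have hact : ∀ Φ : ∀ (F : Type) [Field F] [Algebra k F], Prop, Inv k Φ → Surf T Φ →
      ∀ (n r : ℕ) (w : Fin n → (Fin r → ℤ)) (ι : Type) (f : ι → MvPolynomial (Fin n) k),
        Act (Sm Φ) w f → QCV.PPF (toHom hT) (szer k k f) := by
    intro Φ hΦ hS n r w ι f hA
    obtain ⟨hd, hq⟩ := hA
    choose d hd using hd
    exact hGRW k (fun A [CommRing A] [Algebra k A] [Algebra.FiniteType k A] =>
      QCV.PPF (toHom hT) (sp k A)) hc1 (Sm Φ) (hi1 Φ hΦ)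
      (fun A _ _ _ h => hBAS k E T hT Φ hΦ hS (sp k A) (at_sp hRES k A (Sm Φ) (hi1 Φ hΦ) h))
      n r w ι f d hd hq
  refine ⟨fun Φ hΦ hS => ⟨fun X hX => q1 X (hBAS k E T hT Φ hΦ hS X hX),
    fun n r w ι f hA => q1 _ (hact Φ hΦ hS n r w ι f hA)⟩, fun hS => ?_, ?_⟩
  · have heqs : ∀ (n : ℕ) (ι : Type) (f : ι → MvPolynomial (Fin n) k), Add 2 f →
        QCV.PPF (toHom hT) (szer k k f) := fun n ι f hf =>
      hGEN k (fun A [CommRing A] [Algebra k A] [Algebra.FiniteType k A] =>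
        QCV.PPF (toHom hT) (sp k A)) hc1 2 (by norm_num)
        (fun A _ _ _ h => hBAS k E T hT _ hi2 hS (sp k A)
          (at_sp hRES k A _ (hi1 _ hi2) fun q => hi4 _ (h q))) n ι f hf
    refine ⟨fun X hX => q1 X (hBAS k E T hT _ hi2 hS X (hi5 X hX)), fun n r w ι f hA => ?_,
      fun n ι f hf => q1 _ (heqs n ι f hf), fun n ι f hf hA X hX => ?_⟩
    · exact q1 _ (hact _ hi2 hS n r w ι f ⟨hA.1, fun q => hi4 _ (hA.2 q)⟩)
    · exact q1 _ ((hPRJ k E T hT n ι f hf).1 (heqs (n + 1) ι f hA) X hX)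
  · have heqs : ∀ m : ℕ, 1 ≤ m → (∀ X : Var k, CompX m X → T.Tate X) → ∀ (n : ℕ) (ι : Type)
        (f : ι → MvPolynomial (Fin n) k), Add m f → T.Tate (szer k k f) := fun m hm h n ι f hf =>
      hGEN k (fun A [CommRing A] [Algebra k A] [Algebra.FiniteType k A] => T.Tate (sp k A)) hc2 m hm
        (fun A _ _ _ hA => h (sp k A) (at_sp hRES k A _ (hCIN k m).1 hA)) n ι f hf
    refine ⟨heqs, fun m hm h n ι f hf hA X hX => ?_, fun d hd n r w ι f hA => ?_⟩
    · exact (hPRJ k E T hT n ι f hf).2 (heqs m hm h (n + 1) ι f hA) X hX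
    · obtain ⟨hw, hq⟩ := hA
      choose e he using hw
      exact hGRW k (fun A [CommRing A] [Algebra k A] [Algebra.FiniteType k A] => T.Tate (sp k A)) hc2
        (fun F [Field F] [Algebra k F] => Algebra.trdeg k F ≤ d) (hi3 d)
        (fun A _ _ _ h => hd (sp k A) (at_sp hRES k A _ (hi3 d) h)) n r w ι f e he hq

end Pool.Agent.FMO
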