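import Pool.Agent.FMO.St2
import Pool.Agent.Lib_helper55.Beil.Geom

/-!
# Few monomials, module IMM: immersions do not change the residue fields (helper68)
-/

set_option autoImplicit false

open CategoryTheory AlgebraicGeometry Polynomial

namespace Pool.Agent.FMO

open Pool.Agent.Lib_helper55.Beil (Var)
open UQ (Pt Mo di gp im IDim SP DimLE Th sp szer PSub toHom full pub2)

theorem t_IMM : S_IMM := by
  intro k _ V X g comm hg Φ hΦ x
  let _ : Algebra k (X.X.residueField (g x)) := (X.toResidue (g x)).toAlgebra
  let _ : Algebra k (V.X.residueField x) := (V.toResidue x).toAlgebra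
  let e : X.X.residueField (g x) ≃ₐ[k] V.X.residueField x :=
    AlgEquiv.ofBijective
      { (g.residueFieldMap x).hom with
        commutes' := fun r => by
          have := Pool.Agent.Lib_helper55.Beil.toResidue_map g comm x
          exact congrArg (fun (φ : k →+* _) => φ r) this }
      (Pool.Agent.Lib_helper55.Beil.residueFieldMap_bijective g x)
  exact ⟨fun h => hΦ _ _ e.symm h, fun h => hΦ _ _ e h⟩

end Pool.Agent.FMO
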