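import Pool.Agent.FMO.St2
import Pool.Agent.UQ.Fin

/-!
# Few monomials, module PRJ (helper39): from the affine cone to the projective variety
-/

set_option autoImplicit false

open CategoryTheory AlgebraicGeometry Polynomial

namespace Pool.Agent.FMO

open Pool.Agent.Lib_helper55.Beil (Var)
open UQ (Pt Mo di gp im IDim SP DimLE Th sp szer PSub toHom full pub2)

universe v

namespace PRJAux

/-- The point has dimension at most one. -/
lemma dim_point (k : Type) [Field k] : (CUB.aff k k).DimLE (1 : ℕ) :=
  QCV.dimLE_of_DL fun p => (QCV.dl_field k p).trans (by norm_num)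

end PRJAux

theorem t_PRJ : S_PRJ.{v} := by
  intro k E _ _ _ _ T hT n ι f hf
  have hf' := hf
  choose m hm hh using hf'
  have hk : QCV.PPF (toHom hT) (CUB.aff k k) :=
    QCV.ppf_of_dimLE_one (full hT) (pub2 hT).toPub _ (PRJAux.dim_point k)
  refine ⟨fun h X hX => ?_, fun h => ?_⟩
  · obtain ⟨S⟩ := (UQ.psub_iff f X).mp hX
    exact QCV.ppf_of_cone (pub2 hT) hk f m hh hm h S
  · have h1 : T.Tate (sp k k) := by
      have h2 : UQ.Member k 1 (sp k k) := UQ.Member.small _ (PRJAux.dim_point k)
      exact fun i => ((UQ.main hT).one _ h2 i).2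
    exact ((UQ.main hT).cone k n ι f hf h1).mp h

end Pool.Agent.FMO
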