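import Pool.Agent.FMO.St2

/-!
# FMO, module RES: the residue fields of affine varieties
-/

set_option autoImplicit false

open CategoryTheory AlgebraicGeometry Polynomial

namespace Pool.Agent.FMO

open Pool.Agent.Lib_helper55.Beil (Var)
open UQ (Pt sp)

namespace RESAux

variable {k : Type} [Field k] {A : Type} [CommRing A] [Algebra k A] [Algebra.FiniteType k A]

/-- The residue field of `Spec A` as a ring. -/
noncomputable def ringIso (q : PrimeSpectrum A) :
    ((Spec (CommRingCat.of A)).residueField q : Type) ≃+* Kp q :=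
  ((Scheme.Spec.residueFieldIso (CommRingCat.of A) q).commRingCatIsoToRingEquiv).trans
    (FractionRing.algEquiv (A ⧸ q.asIdeal) q.asIdeal.ResidueField).symm.toRingEquiv

theorem toResidue_eq (q : PrimeSpectrum A) :
    (Var.toResidue (sp k A) q) =
      (Scheme.Spec.residueFieldIso (CommRingCat.of A) q).inv.hom.comp
        ((algebraMap A q.asIdeal.ResidueField).comp (algebraMap k A)) := by
  have h : Spec.preimage ((Spec (CommRingCat.of A)).fromSpecResidueField q ≫
      Spec.map (CommRingCat.ofHom (algebraMap k A))) =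
      CommRingCat.ofHom (algebraMap k A) ≫
        CommRingCat.ofHom (algebraMap A q.asIdeal.ResidueField) ≫
          (Scheme.Spec.residueFieldIso (CommRingCat.of A) q).inv := by
    apply Spec.map_injective
    rw [Spec.map_preimage, Spec.map_comp, Spec.map_comp]
    have h2 := Scheme.Spec.map_residueFieldIso_inv_eq_fromSpecResidueField (CommRingCat.of A) q
    rw [← h2]
  exact congrArg CommRingCat.Hom.hom h

theorem ringIso_comm (q : PrimeSpectrum A) (r : k) :
    ringIso q (Var.toResidue (sp k A) q r) = algebraMap k (Kp q) r := by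
  rw [toResidue_eq]
  unfold ringIso
  have h1 : (Scheme.Spec.residueFieldIso (CommRingCat.of A) q).commRingCatIsoToRingEquiv
      ((Scheme.Spec.residueFieldIso (CommRingCat.of A) q).inv.hom
        ((algebraMap A q.asIdeal.ResidueField) (algebraMap k A r))) =
      (algebraMap A q.asIdeal.ResidueField) (algebraMap k A r) := by
    exact (Scheme.Spec.residueFieldIso (CommRingCat.of A) q).commRingCatIsoToRingEquiv.apply_symm_apply
      ((algebraMap A q.asIdeal.ResidueField) (algebraMap k A r))
  have h2 : (algebraMap A q.asIdeal.ResidueField) (algebraMap k A r) =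
      algebraMap (A ⧸ q.asIdeal) q.asIdeal.ResidueField
        (algebraMap k (A ⧸ q.asIdeal) r) := rfl
  have h3 : algebraMap k (Kp q) r =
      algebraMap (A ⧸ q.asIdeal) (Kp q) (algebraMap k (A ⧸ q.asIdeal) r) :=
    IsScalarTower.algebraMap_apply k (A ⧸ q.asIdeal) (Kp q) r
  rw [h3]
  change (FractionRing.algEquiv (A ⧸ q.asIdeal) q.asIdeal.ResidueField).symm
    ((Scheme.Spec.residueFieldIso (CommRingCat.of A) q).commRingCatIsoToRingEquiv
      ((Scheme.Spec.residueFieldIso (CommRingCat.of A) q).inv.hom
        ((algebraMap A q.asIdeal.ResidueField) (algebraMap k A r)))) = _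
  rw [h1, h2]
  exact (FractionRing.algEquiv (A ⧸ q.asIdeal) q.asIdeal.ResidueField).symm.commutes _

theorem at_iff (Φ : ∀ (F : Type) [Field F] [Algebra k F], Prop) (hΦ : Inv k Φ)
    (q : PrimeSpectrum A) : At Φ (sp k A) q ↔ Φ (Kp q) := by
  let a : Algebra k ((sp k A).X.residueField q) := (Var.toResidue (sp k A) q).toAlgebra
  let e : ((sp k A).X.residueField q) ≃ₐ[k] Kp q :=
    AlgEquiv.ofRingEquiv (f := ringIso q) (fun r => ringIso_comm q r)
  constructor
  · intro h
    exact hΦ _ _ e h
  · intro h
    exact hΦ _ _ e.symm h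

end RESAux

theorem t_RES : S_RES := by
  intro k _ A _ _ _ Φ hΦ
  exact ⟨fun x => ⟨x, RESAux.at_iff Φ hΦ x⟩, fun q => ⟨q, RESAux.at_iff Φ hΦ q⟩⟩

end Pool.Agent.FMO
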