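import Pool.Agent.FMO.St2

/-!
# Few monomials (project FMO, MP_3af9db_ag): small fields
-/

set_option autoImplicit false

open CategoryTheory AlgebraicGeometry Polynomial

namespace Pool.Agent.FMO

open Pool.Agent.Lib_helper55.Beil (Var)
open UQ (Pt Mo di gp im IDim SP DimLE Th sp szer PSub toHom full pub2)

namespace SMCAux

/-- a cardinal which is at most two -/
lemma small {c : Cardinal.{0}} (h : c ≤ ((2 : ℕ) : Cardinal.{0})) : c ≤ 1 ∨ c = 2 := by
  obtain ⟨n, rfl⟩ := Cardinal.lt_aleph0.1 (h.trans_lt (Cardinal.natCast_lt_aleph0))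
  have h1 : n ≤ 2 := by exact_mod_cast h
  have h2 : n ≤ 1 ∨ n = 2 := by omega
  rcases h2 with h2 | h2
  · left
    exact_mod_cast h2
  · right
    rw [h2]
    norm_cast

end SMCAux

theorem t_SMC : M_SMC := by
  intro hCTR hCIN k _
  have h4 : ∀ (F : Type) [Field F] [Algebra k F], Comp k 2 F →
      Sm (fun F [Field F] [Algebra k F] => Comp k 2 F) F := by
    intro F _ _ h
    rcases SMCAux.small (hCTR k F 2 h) with h1 | h1
    · exact Or.inl h1
    · exact Or.inr ⟨h1, h⟩
  refine ⟨?_, (hCIN k 2).1, ?_, h4, ?_⟩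
  · intro Φ hΦ F F' _ _ _ _ e h
    rcases h with h | ⟨h1, h2⟩
    · left
      rw [← e.trdeg_eq]
      exact h
    · right
      refine ⟨?_, hΦ F F' e h2⟩
      rw [← e.trdeg_eq]
      exact h1
  · intro d F F' _ _ _ _ e h
    show Algebra.trdeg k F' ≤ d
    rw [← e.trdeg_eq]
    exact h
  · intro X hX x
    exact @h4 _ _ (X.toResidue x).toAlgebra (hX x)

end Pool.Agent.FMO
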