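import Pool.Agent.FMO.Gen1
import Pool.Agent.FMO.FIN
import Pool.Agent.FMO.RES
import Pool.Agent.FMO.IMM
import Pool.Agent.FMO.SMC
import Pool.Agent.FMO.BAS
import Pool.Agent.FMO.CLP
import Pool.Agent.FMO.PRJ

/-!
# Few monomials (project FMO, MP_3af9db_ag): assembly
-/

set_option autoImplicit false

open Pool.Agent.Lib_helper55.Beil (Var)

namespace Pool.Agent.FMO

open UQ (Th)

universe v

theorem s_SMC : S_SMC := t_SMC t_CTR t_CIN

theorem s_BAS : S_BAS.{v} := t_BAS t_IMM s_SMC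

theorem fin : S_FIN.{v} := t_FIN gen grw t_CIN t_RES s_SMC s_BAS t_CLP t_PRJ

end Pool.Agent.FMO
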