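import Pool.Agent.FMO.St

/-!
# Simple properties of `Comp` (module CIN of the project FMO)
-/

set_option autoImplicit false

namespace Pool.Agent.FMO

/-- CIN: `Comp` is invariant under isomorphisms, and holds for the fields of transcendence degree at
most one. -/
theorem t_CIN : S_CIN := by
  intro k _ m
  refine ⟨?_, ?_⟩
  · intro F F' _ _ _ _ i
    rintro ⟨L, _, _, e, K, hK, hx⟩
    exact ⟨L, inferInstance, inferInstance, e.comp i.symm.toAlgHom, K, hK,
      fun x => hx (i.symm x)⟩
  · intro hm F _ _ hF
    refine ⟨F, inferInstance, inferInstance, AlgHom.id k F, fun _ => ⊤, fun _ => ?_, fun x => ?_⟩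
    · rw [(IntermediateField.topEquiv (F := k) (E := F)).trdeg_eq]
      exact hF
    · have : Nonempty (Fin m) := ⟨⟨0, hm⟩⟩
      rw [iSup_const]
      exact IntermediateField.mem_top

end Pool.Agent.FMO
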