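import Pool.Agent.FMO.St4

/-!
# Few monomials, module CLA (helper39): the class built from a given class of varieties
-/

set_option autoImplicit false

open CategoryTheory AlgebraicGeometry Polynomial

namespace Pool.Agent.FMO

open Pool.Agent.Lib_helper55.Beil (Var)
open UQ (Pt Mo di gp im IDim SP DimLE Th sp szer PSub toHom full pub2)

universe v

theorem t_CLA : S_CLA.{v} := by
  intro k E _ _ _ _ T hT B hB X h
  have hP : QCV.Pub (toHom hT) (full hT) := (pub2 hT).toPub
  induction h with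
  | base X hX => exact hB X hX
  | iso f hf _ ih =>
    obtain ⟨s⟩ := UQ.viso_of f hf
    exact fun i => QCV.pf_viso (full hT) hP i s (ih i)
  | nil a ha hs _ ih => exact fun i => QCV.pf_nil (full hT) i (UQ.toCl a ha) hs (ih i)
  | paste a j hc _ _ ihZ ihU =>
    exact fun i => QCV.pf_glue (full hT) hP i (UQ.toCl a hc.1) (UQ.toOp j hc.2.1) (UQ.comp_to hc)
      (ihZ i) (ihU i)
  | cut a j hc _ _ ihX ihZ =>
    intro i
    rcases i with _ | i
    · exact QCV.pf_zero (full hT) hP _
    · exact QCV.pf_open (full hT) hP i (UQ.toCl a hc.1) (UQ.toOp j hc.2.1) (UQ.comp_to hc) (ihX _)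
        (ihZ _)
  | line A _ ih => exact QCV.ppf_line (full hT) hP A ih
  | unline q hq _ ih =>
    obtain ⟨L, -⟩ := UQ.line_exists q hq
    exact fun i => QCV.pf_line_desc (full hT) hP (pub2 hT).sectionZero i L (ih (i + 1))
  | cover A b c _ ih => exact fun i => QCV.pf_dbl (full hT) hP i A b c (ih i)
  | etale f hf hint _ ih => exact fun i => QCV.pfEt (pub2 hT) i (UQ.toEt f hf) hint (ih i)
  | bundle q s j hq hs hc _ ih =>
    obtain ⟨L, hL⟩ := UQ.bun_exists q hq
    refine QCV.ppfBun (pub2 hT) L (UQ.toCl s hc.1) (UQ.toOp j hc.2.1) ?_ (UQ.comp_to hc) ih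
    rw [hL]
    exact hs
  | odd A m a ha _ ih =>
    rw [UQ.cone_eq]
    exact QCV.ppfOdd (pub2 hT) A m a ha ih
  | even A m a h2 ha _ ih =>
    rw [UQ.cone_eq]
    exact QCV.ppfEven (pub2 hT) h2 A m a ha ih
  | zeros A m f _ ih =>
    obtain ⟨s⟩ := UQ.sas_iso (k := k) f
    intro i
    have ih' := QCV.pf_viso (full hT) hP (i + (m + 1))
      (⟨s.e.symm, by rw [← s.comm]; exact s.e.inv_hom_id_assoc _⟩ :
        CUB.VIso (UQ.sas k A f) (CUB.aff k (CUB.VR A f))) (ih _)
    exact (QCV.pi_iff (full hT).toExtra i _).mp (QCV.red3 (full hT) hP (pub2 hT).sectionZero i m f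
      (Ideal.Quotient.mkₐ k _) (Ideal.Quotient.mkₐ_surjective k _) Ideal.mk_ker
      ((QCV.pi_iff (full hT).toExtra _ _).mpr ih'))

end Pool.Agent.FMO
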