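import Pool.Agent.FMO.St

/-!
# FMO, module CTR: transcendence degree of a compositum (helper54)
-/

set_option autoImplicit false

open Cardinal

namespace Pool.Agent.FMO

namespace CTRAux

variable {k L : Type} [Field k] [Field L] [Algebra k L]

/-- the elements of `L` which are algebraic over the subalgebra `A0` -/
def alg (A0 : Subalgebra k L) : IntermediateField k L where
  carrier := {x | IsAlgebraic A0 x}
  mul_mem' := fun ha hb => ha.mul hb
  add_mem' := fun ha hb => ha.add hb
  algebraMap_mem' := fun r => isAlgebraic_algebraMap (R := A0) (⟨algebraMap k L r, A0.algebraMap_mem r⟩ : A0)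
  inv_mem' := fun _ ha => ha.inv

theorem mem_alg {A0 : Subalgebra k L} {x : L} : x ∈ alg A0 ↔ IsAlgebraic A0 x := Iff.rfl

theorem trdeg_alg (B : Set L) : Algebra.trdeg k (alg (Algebra.adjoin k B)) ≤ #B := by
  set A0 := Algebra.adjoin k B with hA0
  set s : Set (alg A0) := (fun x : alg A0 => (x : L)) ⁻¹' B with hs
  have hB : ∀ b ∈ B, b ∈ alg A0 := fun b hb =>
    isAlgebraic_algebraMap (R := A0) (⟨b, Algebra.subset_adjoin hb⟩ : A0)
  have himg : (fun x : alg A0 => (x : L)) '' s = B := by
    rw [hs, Set.image_preimage_eq_iff]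
    intro b hb
    exact ⟨⟨b, hB b hb⟩, rfl⟩
  have hmap : (Algebra.adjoin k s).map (alg A0).val = A0 := by
    rw [AlgHom.map_adjoin]
    exact congrArg _ himg
  have hmem : ∀ x : Algebra.adjoin k s, ((x : alg A0) : L) ∈ A0 := fun x =>
    hmap.le ⟨x, x.2, rfl⟩
  let f : Algebra.adjoin k s →ₐ[k] A0 :=
    ((alg A0).val.comp (Algebra.adjoin k s).val).codRestrict A0 hmem
  have hf : Function.Surjective f := by
    rintro ⟨y, hy⟩
    obtain ⟨x, hx, hxy⟩ := hmap.ge hy
    exact ⟨⟨x, hx⟩, Subtype.ext hxy⟩
  have halg : Algebra.IsAlgebraic (Algebra.adjoin k s) (alg A0) := by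
    constructor
    intro x
    exact IsAlgebraic.of_ringHom_of_comp_eq (S := A0) (B := L) (f := f.toRingHom)
      (g := (alg A0).val.toRingHom) x.2 hf (alg A0).val.injective rfl
  exact (Algebra.IsAlgebraic.trdeg_le_cardinalMk k s).trans
    (Cardinal.mk_preimage_of_injective _ _ Subtype.val_injective)

end CTRAux

open CTRAux in
/-- CTR -/
theorem t_CTR : S_CTR := by
  intro k F _ _ _ m h
  obtain ⟨L, _, _, e, K, hK, he⟩ := h
  have hs : ∀ j, ∃ s : Set (K j), IsTranscendenceBasis k ((↑) : s → K j) := fun j =>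
    exists_isTranscendenceBasis k (K j)
  choose s hs using hs
  set B : Set L := ⋃ j, (fun x : K j => (x : L)) '' (s j) with hB
  have hcard : #B ≤ m := by
    refine (Cardinal.mk_iUnion_le_sum_mk).trans ?_
    have h1 : Cardinal.sum (fun j => #((fun x : K j => (x : L)) '' (s j))) ≤
        Cardinal.sum (fun _ : Fin m => (1 : Cardinal)) := by
      refine Cardinal.sum_le_sum _ _ fun j => ?_
      refine (Cardinal.mk_image_le).trans ?_
      rw [(hs j).cardinalMk_eq_trdeg]
      exact hK j
    refine h1.trans ?_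
    simp
  have hle : ∀ j, K j ≤ alg (Algebra.adjoin k B) := by
    intro j y hy
    have h1 := (hs j).isAlgebraic
    have h2 := h1.isAlgebraic (⟨y, hy⟩ : K j)
    have hmem : ∀ x : Algebra.adjoin k (Set.range ((↑) : s j → K j)),
        ((x : K j) : L) ∈ Algebra.adjoin k B := by
      intro x
      have h3 : (Algebra.adjoin k (Set.range ((↑) : s j → K j))).map (K j).val ≤
          Algebra.adjoin k B := by
        rw [AlgHom.map_adjoin]
        refine Algebra.adjoin_mono ?_
        rintro _ ⟨x, hx, rfl⟩
        rw [Subtype.range_coe] at hx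
        exact Set.mem_iUnion.2 ⟨j, x, hx, rfl⟩
      exact h3 ⟨x, x.2, rfl⟩
    let f : Algebra.adjoin k (Set.range ((↑) : s j → K j)) →ₐ[k] Algebra.adjoin k B :=
      ((K j).val.comp (Subalgebra.val _)).codRestrict _ hmem
    have hf : Function.Injective f := by
      intro a b hab
      have h4 : ((a : K j) : L) = ((b : K j) : L) := congrArg (fun x : Algebra.adjoin k B => (x : L)) hab
      exact Subtype.ext (Subtype.ext h4)
    exact IsAlgebraic.ringHom_of_comp_eq (f := f.toRingHom) (g := (K j).val.toRingHom) h2 hf rfl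
  have hE : (⨆ j, K j) ≤ alg (Algebra.adjoin k B) := iSup_le hle
  let g : F →ₐ[k] alg (Algebra.adjoin k B) :=
    e.codRestrict (alg (Algebra.adjoin k B)).toSubalgebra fun x => hE (he x)
  exact (trdeg_le_of_injective g g.injective).trans ((trdeg_alg B).trans hcard)

end Pool.Agent.FMO
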