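import Pool.Agent.FMO.St

/-!
# Few monomials (project FMO): the degree

The homomorphism `α ↦ ∑ v ∈ U, α_v w_v` onto its image, a free group, and a section.
-/

set_option autoImplicit false

namespace Pool.Agent.FMO

namespace DGWAux

open scoped Classical in
/-- The homomorphism `α ↦ ∑ v ∈ U, α_v w_v`. -/
noncomputable def T {n r : ℕ} (w : Fin n → (Fin r → ℤ)) (U : Set (Fin n)) :
    (Fin n → ℤ) →ₗ[ℤ] (Fin r → ℤ) :=
  ∑ v, if v ∈ U then (LinearMap.proj v : (Fin n → ℤ) →ₗ[ℤ] ℤ).smulRight (w v) else 0

open scoped Classical in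
lemma T_apply {n r : ℕ} (w : Fin n → (Fin r → ℤ)) (U : Set (Fin n)) (α : Fin n → ℤ) :
    T w U α = ∑ v, if v ∈ U then α v • w v else 0 := by
  unfold T
  rw [LinearMap.sum_apply]
  refine Finset.sum_congr rfl fun v _ => ?_
  split_ifs
  · rfl
  · rfl

end DGWAux

open DGWAux in
/-- `DGW`. -/
theorem t_DGW : S_DGW := by
  classical
  intro n r w U
  let M : Submodule ℤ (Fin r → ℤ) := LinearMap.range (T w U)
  let b := Module.finBasis ℤ M
  have hsurj : Function.Surjective (T w U).rangeRestrict := LinearMap.surjective_rangeRestrict _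
  obtain ⟨s₀, hs₀⟩ := Module.projective_lifting_property (T w U).rangeRestrict
    (LinearMap.id : M →ₗ[ℤ] M) hsurj
  refine ⟨Module.finrank ℤ M, (b.equivFun.toLinearMap ∘ₗ (T w U).rangeRestrict).toAddMonoidHom,
    (s₀ ∘ₗ b.equivFun.symm.toLinearMap).toAddMonoidHom, ?_, ?_, ?_⟩
  · intro a
    have h1 : (T w U).rangeRestrict (s₀ (b.equivFun.symm a)) = b.equivFun.symm a :=
      LinearMap.congr_fun hs₀ (b.equivFun.symm a)
    show b.equivFun ((T w U).rangeRestrict (s₀ (b.equivFun.symm a))) = a
    rw [h1, LinearEquiv.apply_symm_apply]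
  · intro v hv
    show b.equivFun ((T w U).rangeRestrict (Pi.single v 1)) = 0
    have h1 : (T w U).rangeRestrict (Pi.single v 1) = 0 := by
      apply Subtype.ext
      show T w U (Pi.single v 1) = 0
      rw [T_apply]
      refine Finset.sum_eq_zero fun u _ => ?_
      split_ifs with hu
      · have huv : u ≠ v := by
          rintro rfl
          exact hv hu
        rw [Pi.single_eq_of_ne huv, zero_smul]
      · rfl
    rw [h1, map_zero]
  · intro α hα
    show b.equivFun ((T w U).rangeRestrict α) = 0 ↔ _
    rw [LinearEquiv.map_eq_zero_iff]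
    have h1 : T w U α = ∑ v, α v • w v := by
      rw [T_apply]
      refine Finset.sum_congr rfl fun v _ => ?_
      split_ifs with hv
      · rfl
      · rw [hα v hv, zero_smul]
    rw [← h1]
    constructor
    · intro h
      exact congrArg Subtype.val h
    · intro h
      exact Subtype.ext h

end Pool.Agent.FMO
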