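import Mathlib

/-!
# Few monomials (project FMO): definitions

Systems of polynomial equations with few monomials, and the fields contained in a compositum of `m`
fields of transcendence degree at most one.
-/

set_option autoImplicit false

open Polynomial

namespace Pool.Agent.FMO

/-! ## Fields -/

/-- The field `F` is contained in a compositum of `m` fields of transcendence degree at most one
over `k`. (`m = 2`, transcendence degree two: the function fields of the surfaces dominated by products
of two curves.) -/
def Comp (k : Type) [Field k] (m : ℕ) (F : Type) [Field F] [Algebra k F] : Prop :=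
  ∃ (L : Type) (_ : Field L) (_ : Algebra k L) (e : F →ₐ[k] L)
    (K : Fin m → IntermediateField k L), (∀ j, Algebra.trdeg k (K j) ≤ 1) ∧ ∀ x, e x ∈ ⨆ j, K j

/-- The residue field of `A` at the prime `q`. -/
abbrev Kp {A : Type} [CommRing A] (q : PrimeSpectrum A) : Type := FractionRing (A ⧸ q.asIdeal)

/-- The value of `a` in the residue field. -/
noncomputable def val {A : Type} [CommRing A] (q : PrimeSpectrum A) (a : A) : Kp q :=
  algebraMap (A ⧸ q.asIdeal) (Kp q) (Ideal.Quotient.mk q.asIdeal a)

/-! ## Systems of equations -/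

section

variable {k : Type} [Field k]

/-- The polynomial `p` is a sum of two terms `c x^a s_1^(b_1) ... s_i^(b_i)` in the variables `x` and in
the polynomials `s_j`, `j < i`. -/
def Two {n m : ℕ} (s : Fin m → MvPolynomial (Fin n) k) (i : ℕ) (p : MvPolynomial (Fin n) k) :
    Prop :=
  ∃ g : MvPolynomial (Fin n ⊕ Fin m) k, g.support.card ≤ 2 ∧
    (∀ j : Fin m, Sum.inr j ∈ g.vars → (j : ℕ) < i) ∧
    MvPolynomial.aeval (Sum.elim MvPolynomial.X s) g = p

/-- The system `f` needs only `m` additions, in addition to one for every equation: there are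
polynomials `s_1, ..., s_m`, such that every `s_i` is a sum of two terms in the variables and the previous
`s_j`, and every `f_j` is a sum of two terms in the variables and the `s_j`. -/
def Add (m : ℕ) {n : ℕ} {ι : Type} (f : ι → MvPolynomial (Fin n) k) : Prop :=
  ∃ s : Fin m → MvPolynomial (Fin n) k, (∀ i : Fin m, Two s i (s i)) ∧ ∀ j, Two s m (f j)

/-- The equations have at most two monomials, except for at most `m` equations with at most three
monomials. -/
def Few (m : ℕ) {V ι : Type} (f : ι → MvPolynomial V k) : Prop :=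
  ∃ t : Finset ι, t.card ≤ m ∧ (∀ j ∈ t, (f j).support.card ≤ 3) ∧ ∀ j ∉ t, (f j).support.card ≤ 2

/-- The `k`-algebra `C` with the family `φ` is universal for the solutions of the system `f` such that
the variables in `U` are units and the variables in `Z` are zero. -/
structure Univ {V ι : Type} (f : ι → MvPolynomial V k) (U Z : Set V) (C : Type) [CommRing C]
    [Algebra k C] (φ : V → C) : Prop where
  sat : ∀ j, MvPolynomial.aeval φ (f j) = 0
  unit : ∀ v ∈ U, IsUnit (φ v)
  zero : ∀ v ∈ Z, φ v = 0
  lift : ∀ (D : Type) [CommRing D] [Algebra k D] (ψ : V → D),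
    (∀ j, MvPolynomial.aeval ψ (f j) = 0) → (∀ v ∈ U, IsUnit (ψ v)) → (∀ v ∈ Z, ψ v = 0) →
    ∃ g : C →ₐ[k] D, ∀ v, g (φ v) = ψ v
  ext : ∀ (D : Type) [CommRing D] [Algebra k D] (g h : C →ₐ[k] D),
    (∀ v, g (φ v) = h (φ v)) → g = h

end

/-! ## Closure properties -/

section

variable (k : Type) [Field k]

variable {k} in
/-- `z : A → Z` is the quotient by the ideal generated by `a`, and `u : A → U` is the localisation
away from `a`. -/
structure Strat {A Z U : Type} [CommRing A] [CommRing Z] [CommRing U] [Algebra k A] [Algebra k Z]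
    [Algebra k U] (a : A) (z : A →ₐ[k] Z) (u : A →ₐ[k] U) : Prop where
  surj : Function.Surjective z
  ker : RingHom.ker z.toRingHom = Ideal.span {a}
  away : @IsLocalization.Away A _ a U _ u.toRingHom.toAlgebra

/-- Closure properties of a property `P` of finitely generated `k`-algebras: isomorphisms, the zero
ring, gluing of the closed part `V(a)` and the open part `D(a)`, passage to the open part, polynomial
rings. -/
structure Clo (P : ∀ (A : Type) [CommRing A] [Algebra k A] [Algebra.FiniteType k A], Prop) :
    Prop where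
  iso : ∀ {A B : Type} [CommRing A] [Algebra k A] [Algebra.FiniteType k A] [CommRing B]
    [Algebra k B] [Algebra.FiniteType k B], (A ≃ₐ[k] B) → P A → P B
  triv : ∀ (A : Type) [CommRing A] [Algebra k A] [Algebra.FiniteType k A], Subsingleton A → P A
  glue : ∀ {A Z U : Type} [CommRing A] [Algebra k A] [Algebra.FiniteType k A] [CommRing Z]
    [Algebra k Z] [Algebra.FiniteType k Z] [CommRing U] [Algebra k U] [Algebra.FiniteType k U]
    (a : A) (z : A →ₐ[k] Z) (u : A →ₐ[k] U), Strat a z u → P Z → P U → P A
  opn : ∀ {A Z U : Type} [CommRing A] [Algebra k A] [Algebra.FiniteType k A] [CommRing Z]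
    [Algebra k Z] [Algebra.FiniteType k Z] [CommRing U] [Algebra k U] [Algebra.FiniteType k U]
    (a : A) (z : A →ₐ[k] Z) (u : A →ₐ[k] U), Strat a z u → P A → P Z → P U
  line : ∀ (A : Type) [CommRing A] [Algebra k A] [Algebra.FiniteType k A], P A → P A[X]

/-- The algebra `C[x_1, x_1^(-1), ..., x_r, x_r^(-1)]`. -/
abbrev Laur (r : ℕ) (C : Type) [CommRing C] : Type :=
  Localization.Away (∏ i, MvPolynomial.X i : MvPolynomial (Fin r) C)

/-- The algebra `C` is generated by the values of a homomorphism `χ` from a finitely generated abelian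
group `G` to the units of `C`, and a subgroup of `G` with torsion quotient is generated by elements `g`
whose value is a constant and by the elements `u_j`, `v_j`, `j < m`, where
`1 + c_j χ(u_j) + c'_j χ(v_j) = 0`, `c_j` and `c'_j` are constants, `c'_j ≠ 0`. -/
def Mon (m : ℕ) (C : Type) [CommRing C] [Algebra k C] : Prop :=
  ∃ (G : Type) (_ : CommGroup G) (_ : Group.FG G) (χ : G →* Cˣ) (u v : Fin m → G) (D : Set G),
    Algebra.adjoin k (Set.range fun g => (χ g : C)) = ⊤ ∧
    (∀ j, ∃ c c' : k, c' ≠ 0 ∧ 1 + c • (χ (u j) : C) + c' • (χ (v j) : C) = 0) ∧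
    (∀ g ∈ D, (∃ c : k, (χ g : C) = algebraMap k C c) ∨ ∃ j, g = u j ∨ g = v j) ∧
    ∀ g : G, ∃ N : ℕ, 0 < N ∧ g ^ N ∈ Subgroup.closure D

/-- A property `Φ` of fields over `k` does not depend on the isomorphism class. -/
def Inv (Φ : ∀ (F : Type) [Field F] [Algebra k F], Prop) : Prop :=
  ∀ (F F' : Type) [Field F] [Algebra k F] [Field F'] [Algebra k F'], (F ≃ₐ[k] F') → Φ F → Φ F'

end

/-! ## Gradings -/

section

variable {k : Type} [Field k]

/-- The subalgebra of `C` generated by the values of the character `χ` in degree zero. -/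
noncomputable def Lam (k : Type) [Field k] {V C : Type} {r : ℕ} [CommRing C] [Algebra k C]
    (χ : Multiplicative (V → ℤ) →* Cˣ) (deg : (V → ℤ) →+ (Fin r → ℤ)) : Subalgebra k C :=
  Algebra.adjoin k {c | ∃ α, deg α = 0 ∧ c = (χ (Multiplicative.ofAdd α) : C)}

/-- The subfield of the residue field of `A` at `q` which is generated by the Laurent monomials of
degree zero in those elements `a_i` (of degree `w_i`) which do not vanish at `q`. -/
noncomputable def Kw {n r : ℕ} {A : Type} [CommRing A] [Algebra k A] (w : Fin n → (Fin r → ℤ))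
    (a : Fin n → A) (q : PrimeSpectrum A) : IntermediateField k (Kp q) :=
  IntermediateField.adjoin k {x | ∃ α : Fin n → ℤ, (∀ i, a i ∈ q.asIdeal → α i = 0) ∧
    ∑ i, α i • w i = 0 ∧ x = ∏ i, val q (a i) ^ α i}

end

end Pool.Agent.FMO
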