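import Pool.Agent.FMO.Defs
import Pool.Agent.UQ.Defs

/-!
# Few monomials (project FMO, MP_3af9db_ag): the language of the final statement

Varieties, morphisms and homology theories are defined in `Pool/Agent/UQ/Defs.lean`.
-/

set_option autoImplicit false

open CategoryTheory AlgebraicGeometry

namespace Pool.Agent.FMO

open Pool.Agent.Lib_helper55.Beil (Var)
open UQ (Pt Mo di gp im IDim SP DimLE Th sp szer PSub)

universe v

variable {k : Type} [Field k]

/-- The residue field of `X` at the point `x` has the property `Φ`. -/
def At (Φ : ∀ (F : Type) [Field F] [Algebra k F], Prop) (X : Var k) (x : Pt X) : Prop :=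
  @Φ (X.X.residueField x) _ (X.toResidue x).toAlgebra

/-- The field `F` has transcendence degree at most one over `k`, or it has transcendence degree two and the
property `Φ`. -/
def Sm (Φ : ∀ (F : Type) [Field F] [Algebra k F], Prop) (F : Type) [Field F] [Algebra k F] : Prop :=
  Algebra.trdeg k F ≤ 1 ∨ (Algebra.trdeg k F = 2 ∧ Φ F)

/-- All residue fields of `X` are contained in a compositum of `m` fields of transcendence degree at
most one over `k`. -/
def CompX (m : ℕ) (X : Var k) : Prop :=
  ∀ x : Pt X, At (fun F [Field F] [Algebra k F] => Comp k m F) X x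

/-- All polynomials are homogeneous of positive degree. -/
def Hom {R ι : Type} [CommRing R] {n : ℕ} (f : ι → MvPolynomial (Fin n) R) : Prop :=
  ∀ j, ∃ d, 1 ≤ d ∧ (f j).IsHomogeneous d

/-- The intermediate field `K` has the property `Φ`. -/
def Has (Φ : ∀ (F : Type) [Field F] [Algebra k F], Prop) {F : Type} [Field F] [Algebra k F]
    (K : IntermediateField k F) : Prop := Φ K

/-- For every prime `q` of `A`, the subfield of the residue field at `q` generated by the Laurent monomials
of degree zero in those elements `a_i` (of degree `w_i`) which do not vanish at `q` has the property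
`Φ`. -/
def Sma (Φ : ∀ (F : Type) [Field F] [Algebra k F], Prop) {n r : ℕ} {A : Type} [CommRing A]
    [Algebra k A] (w : Fin n → (Fin r → ℤ)) (a : Fin n → A) : Prop :=
  ∀ q : PrimeSpectrum A, Has Φ (Kw (k := k) w a q)

/-- The zero set of polynomials `f_j` which are homogeneous for the degrees `w_i ∈ ℤ^r` of the variables
(an affine variety with an action of a torus); at every point the field generated by the Laurent
monomials of degree zero in the coordinates which do not vanish has the property `Φ`. -/
def Act (Φ : ∀ (F : Type) [Field F] [Algebra k F], Prop) {n r : ℕ} (w : Fin n → (Fin r → ℤ))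
    {ι : Type} (f : ι → MvPolynomial (Fin n) k) : Prop :=
  (∀ j, ∃ d : Fin r → ℤ, (f j).IsWeightedHomogeneous w d) ∧
    Sma Φ w fun i => Ideal.Quotient.mk (Ideal.span (Set.range f)) (MvPolynomial.X i)

section

variable {E : Type} [Field E] (T : Th.{v} k E)

/-- The conjecture of Tate for divisors on the smooth proper surfaces whose function field has the
property `Φ`, and the resolution of singularities of surfaces. -/
structure Surf (Φ : ∀ (F : Type) [Field F] [Algebra k F], Prop) : Prop where
  /-- every integral surface is birationally equivalent to a smooth proper surface (Abhyankar) -/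
  res : ∀ U : Var k, IDim U 2 → ∃ (U' Y : Var k) (a : Mo U' U) (b : Mo U' Y),
    a.Op ∧ b.Op ∧ Nonempty (Pt U') ∧ SP Y 2
  /-- the conjecture of Tate for the divisors on `Y`, with semisimplicity of the eigenvalue one -/
  tate : ∀ (Y : Var k) (h : IsIntegral Y.X), SP Y 2 → At Φ Y (gp Y h) → T.Surj 1 Y ∧ T.Semi 1 Y

/-- The theorem of Tate for the surfaces dominated by products of two curves (and the resolution of
singularities of surfaces). -/
def Tate66 : Prop := Surf T (fun F [Field F] [Algebra k F] => Comp k 2 F)

/-- The generalised Beilinson conjecture for the varieties whose residue fields are small (`Sm`), and for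
affine varieties with an action of a torus. -/
structure Torus (Φ : ∀ (F : Type) [Field F] [Algebra k F], Prop) : Prop where
  var : ∀ X : Var k, (∀ x : Pt X, At (Sm Φ) X x) → T.Q1 X
  act : ∀ (n r : ℕ) (w : Fin n → (Fin r → ℤ)) (ι : Type) (f : ι → MvPolynomial (Fin n) k),
    Act (Sm Φ) w f → T.Q1 (szer k k f)

/-- The generalised Beilinson conjecture for all varieties whose residue fields are contained in a
compositum of two fields of transcendence degree one, for all systems of equations with two additional
additions, and for affine varieties with an action of a torus. -/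
structure Sparse : Prop where
  var : ∀ X : Var k, CompX 2 X → T.Q1 X
  act : ∀ (n r : ℕ) (w : Fin n → (Fin r → ℤ)) (ι : Type) (f : ι → MvPolynomial (Fin n) k),
    Act (fun F [Field F] [Algebra k F] => Comp k 2 F) w f → T.Q1 (szer k k f)
  /-- equations in affine spaces -/
  eqs : ∀ (n : ℕ) (ι : Type) (f : ι → MvPolynomial (Fin n) k), Add 2 f → T.Q1 (szer k k f)
  /-- equations in projective spaces -/
  proj : ∀ (n : ℕ) (ι : Type) (f : ι → MvPolynomial (Fin (n + 1)) k), Hom f → Add 2 f →
    ∀ X : Var k, PSub k f X → T.Q1 X

/-- The conjecture of Tate for systems with `m` additional additions follows from the conjecture for the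
varieties whose residue fields are contained in a compositum of `m` fields of transcendence degree
one; the conjecture of Tate in dimension at most `d` implies the conjecture for affine varieties with an
action of a torus of complexity at most `d`. -/
structure SparseT : Prop where
  eqs : ∀ m : ℕ, 1 ≤ m → (∀ X : Var k, CompX m X → T.Tate X) → ∀ (n : ℕ) (ι : Type)
    (f : ι → MvPolynomial (Fin n) k), Add m f → T.Tate (szer k k f)
  proj : ∀ m : ℕ, 1 ≤ m → (∀ X : Var k, CompX m X → T.Tate X) → ∀ (n : ℕ) (ι : Type)
    (f : ι → MvPolynomial (Fin (n + 1)) k), Hom f → Add m f →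
    ∀ X : Var k, PSub k f X → T.Tate X
  act : ∀ d : ℕ, T.Low d → ∀ (n r : ℕ) (w : Fin n → (Fin r → ℤ)) (ι : Type)
    (f : ι → MvPolynomial (Fin n) k),
    Act (fun F [Field F] [Algebra k F] => Algebra.trdeg k F ≤ d) w f → T.Tate (szer k k f)

end

end Pool.Agent.FMO
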