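import Pool.Agent.FMO.Defs2

/-!
# Few monomials (project FMO, MP_3af9db_ag): the class of varieties built from a given class
-/

set_option autoImplicit false

open CategoryTheory AlgebraicGeometry

namespace Pool.Agent.FMO

open Pool.Agent.Lib_helper55.Beil (Var)
open UQ

universe v

variable {k : Type} [Field k]

/-- The class of varieties over `k` which is built from the varieties with the property `B`. -/
inductive Cla (B : Var k → Prop) : Var k → Prop
  /-- the varieties with the property `B` -/
  | base (X : Var k) : B X → Cla B X
  /-- isomorphic varieties -/
  | iso {X Y : Var k} (f : Mo X Y) : IsIso f.g → Cla B X → Cla B Y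
  /-- a closed subvariety with the same points (for example the reduced subvariety) -/
  | nil {Z X : Var k} (a : Mo Z X) : a.Cl → Function.Surjective (im a) → Cla B X → Cla B Z
  /-- `X` is the disjoint union of the closed subvariety `Z` and the open subvariety `U` -/
  | paste {Z U X : Var k} (a : Mo Z X) (j : Mo U X) : UQ.Comp a j → Cla B Z → Cla B U → Cla B X
  /-- the complement of the closed subvariety `Z` of `X` -/
  | cut {Z U X : Var k} (a : Mo Z X) (j : Mo U X) : UQ.Comp a j → Cla B X → Cla B Z → Cla B U
  /-- the product with the affine line -/
  | line (A : Type) [CommRing A] [Algebra k A] [Algebra.FiniteType k A] :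
      Cla B (sp k A) → Cla B (spol k A)
  /-- descent from the product `Y` of `X` and the affine line to `X` -/
  | unline {Y X : Var k} (q : Mo Y X) : q.Line → Cla B Y → Cla B X
  /-- descent along the double cover `Spec A[t] / (t ^ 2 + b t + c) → Spec A` -/
  | cover (A : Type) [CommRing A] [Algebra k A] [Algebra.FiniteType k A] (b c : A) :
      Cla B (sdbl k A b c) → Cla B (sp k A)
  /-- descent along the finite etale covering `V → U` of an integral variety -/
  | etale {V U : Var k} (f : Mo V U) : f.Et → IsIntegral U.X → Cla B V → Cla B U
  /-- the base `X` of a line bundle `Y → X`, if the complement `U` of the section `s` belongs to the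
  class -/
  | bundle {Y X U : Var k} (q : Mo Y X) (s : Mo X Y) (j : Mo U Y) :
      q.Bun → s.g ≫ q.g = 𝟙 X.X → UQ.Comp s j → Cla B U → Cla B X
  /-- the quadric cone `a_0 x_0 ^ 2 + ... + a_2m x_2m ^ 2 = 0` over `Spec A`, where the `a_j` are
  units of `A` -/
  | odd (A : Type) [CommRing A] [Algebra k A] [Algebra.FiniteType k A] (m : ℕ)
      (a : Fin (2 * m + 1) → A) : Units a → Cla B (sp k A) → Cla B (cone k A a)
  /-- the quadric cone `a_0 x_0 ^ 2 + ... + a_(2m-1) x_(2m-1) ^ 2 = 0` over `Spec A`, where the `a_j` are
  units of `A`, if the double cover `t ^ 2 = (-1) ^ m a_0 ... a_(2m-1)` of `Spec A` belongs to the class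
  (characteristic different from two) -/
  | even (A : Type) [CommRing A] [Algebra k A] [Algebra.FiniteType k A] (m : ℕ)
      (a : Fin (2 * m) → A) : (2 : k) ≠ 0 → Units a → Cla B (sdia k A m a) → Cla B (cone k A a)
  /-- the subvariety `f_0 = ... = f_m = 0` of `Spec A`, if the hypersurface
  `y ^ 2 - y = t_0 f_0 + ... + t_m f_m` in the product with the affine space of dimension `m + 2`
  belongs to the class -/
  | zeros (A : Type) [CommRing A] [Algebra k A] [Algebra.FiniteType k A] (m : ℕ)
      (f : Fin (m + 1) → A) : Cla B (sas k A f) → Cla B (squo k A f)

variable {E : Type} [Field E]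

/-- The generalised Beilinson conjecture holds on the class built from the varieties whose residue fields
are contained in a compositum of two fields of transcendence degree one. The conjecture of Tate for all
varieties is equivalent to the conjecture of Tate for all systems of equations (with any number of
additional additions). -/
structure More (T : Th.{v} k E) : Prop where
  cla : Tate66 T → ∀ X : Var k, Cla (CompX 2) X → T.Q1 X
  all : (∀ X : Var k, T.Tate X) ↔ ∀ (m n r : ℕ) (f : Fin r → MvPolynomial (Fin n) k), Add m f →
    T.Tate (szer k k f)

end Pool.Agent.FMO
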