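import Pool.Agent.FMO.St

/-!
# FMO: ELM, elimination
-/

set_option autoImplicit false

open MvPolynomial

namespace Pool.Agent.FMO

namespace ELMAux

theorem few {k : Type} [Field k] {m n : ℕ} {ι : Type}
    (g : Fin m → MvPolynomial (Fin n ⊕ Fin m) k) (h : ι → MvPolynomial (Fin n ⊕ Fin m) k)
    (hg : ∀ i, (g i).support.card ≤ 2) (hh : ∀ j, (h j).support.card ≤ 2) :
    Few m (Sum.elim (fun i => X (Sum.inr i) - g i) h : Fin m ⊕ ι → _) := by
  classical
  refine ⟨Finset.univ.map Function.Embedding.inl, ?_, ?_, ?_⟩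
  · rw [Finset.card_map, Finset.card_univ, Fintype.card_fin]
  · intro j hj
    rw [Finset.mem_map] at hj
    obtain ⟨i, -, rfl⟩ := hj
    change (X (Sum.inr i) - g i).support.card ≤ 3
    refine (Finset.card_le_card (MvPolynomial.support_sub (Fin n ⊕ Fin m) _ _)).trans ?_
    refine (Finset.card_union_le _ _).trans ?_
    have h1 : (X (Sum.inr i) : MvPolynomial (Fin n ⊕ Fin m) k).support.card ≤ 1 := by
      rw [MvPolynomial.support_X, Finset.card_singleton]
    have h2 := hg i
    omega
  · rintro (i | j) hj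
    · exact absurd (Finset.mem_map.2 ⟨i, Finset.mem_univ i, rfl⟩) hj
    · exact hh j

end ELMAux

theorem t_ELM : S_ELM := by
  intro k _ m n ι f hf
  obtain ⟨s, hs, hfj⟩ := hf
  choose g hg1 hg2 hg3 using hs
  choose h hh1 hh2 hh3 using hfj
  let mk := Ideal.Quotient.mkₐ k (Ideal.span (Set.range f))
  have hmk : ∀ p : MvPolynomial (Fin n ⊕ Fin m) k,
      aeval (fun v => mk (Sum.elim X s v)) p = mk (aeval (Sum.elim X s) p) := by
    intro p
    rw [← MvPolynomial.comp_aeval]
    rfl
  refine ⟨Fin m ⊕ ι, Sum.elim (fun i => X (Sum.inr i) - g i) h,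
    fun v => mk (Sum.elim X s v), ELMAux.few g h hg1 hh1, ?_, ?_, ?_, ?_, ?_⟩
  · rintro (i | j)
    · change aeval _ (X (Sum.inr i) - g i) = 0
      rw [map_sub, hmk, hmk, aeval_X, hg3]
      exact sub_self _
    · change aeval _ (h j) = 0
      rw [hmk, hh3]
      exact Ideal.Quotient.eq_zero_iff_mem.2 (Ideal.subset_span ⟨j, rfl⟩)
  · intro v hv
    exact absurd hv (Set.notMem_empty v)
  · intro v hv
    exact absurd hv (Set.notMem_empty v)
  · intro D _ _ ψ hψ _ _
    let G : MvPolynomial (Fin n) k →ₐ[k] D := aeval fun i => ψ (Sum.inl i)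
    have hG : ∀ p : MvPolynomial (Fin n ⊕ Fin m) k,
        G (aeval (Sum.elim X s) p) = aeval (fun v => G (Sum.elim X s v)) p := by
      intro p
      rw [← MvPolynomial.comp_aeval]
      rfl
    have hl : ∀ i : Fin n, G (X i) = ψ (Sum.inl i) := fun i => aeval_X _ i
    have hr : ∀ (N : ℕ) (i : Fin m), (i : ℕ) = N → G (s i) = ψ (Sum.inr i) := by
      intro N
      induction N using Nat.strong_induction_on with
      | _ N ih =>
        intro i hi
        have h1 : ψ (Sum.inr i) = aeval ψ (g i) := by
          have h2 := hψ (Sum.inl i)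
          change aeval ψ (X (Sum.inr i) - g i) = 0 at h2
          rw [map_sub, aeval_X, sub_eq_zero] at h2
          exact h2
        rw [h1, ← hg3 i, hG]
        refine MvPolynomial.eval₂Hom_congr' rfl ?_ rfl
        rintro (v | v) hv _
        · exact hl v
        · exact ih v (by have := hg2 i v hv; omega) v rfl
    have hall : (fun v => G (Sum.elim X s v)) = ψ := by
      funext v
      rcases v with v | v
      · exact hl v
      · exact hr v v rfl
    have hker : ∀ a ∈ Ideal.span (Set.range f), G a = 0 := by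
      intro a ha
      have h1 : Ideal.span (Set.range f) ≤ RingHom.ker G.toRingHom := by
        rw [Ideal.span_le]
        rintro _ ⟨j, rfl⟩
        change G (f j) = 0
        rw [← hh3 j, hG, hall]
        exact hψ (Sum.inr j)
      exact h1 ha
    refine ⟨Ideal.Quotient.liftₐ _ G hker, fun v => ?_⟩
    have h1 : (Ideal.Quotient.liftₐ _ G hker) (mk (Sum.elim X s v)) = G (Sum.elim X s v) := rfl
    rw [h1]
    exact congrFun hall v
  · intro D _ _ a b hab
    apply Ideal.Quotient.algHom_ext
    apply MvPolynomial.algHom_ext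
    intro i
    exact hab (Sum.inl i)

end Pool.Agent.FMO
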