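import Pool.Agent.FMO.St

/-!
# FEW: systems with few trinomials need few additions
-/

set_option autoImplicit false

open MvPolynomial

namespace Pool.Agent.FMO

namespace FEWAux

variable {k : Type} [Field k]

/-- A polynomial with at most three monomials is the sum of a polynomial with at most two and one
with at most one. -/
theorem split {σ : Type} (p : MvPolynomial σ k) (h : p.support.card ≤ 3) :
    ∃ p₁ p₂ : MvPolynomial σ k, p₁ + p₂ = p ∧ p₁.support.card ≤ 2 ∧ p₂.support.card ≤ 1 := by
  classical
  rcases eq_or_ne p 0 with rfl | hp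
  · exact ⟨0, 0, by simp, by simp, by simp⟩
  · obtain ⟨α, hα⟩ := MvPolynomial.support_nonempty.2 hp
    refine ⟨p - monomial α (coeff α p), monomial α (coeff α p), by ring, ?_, ?_⟩
    · have h1 : (p - monomial α (coeff α p)).support ⊆ p.support.erase α := by
        intro β hβ
        rw [MvPolynomial.mem_support_iff, MvPolynomial.coeff_sub, MvPolynomial.coeff_monomial] at hβ
        rw [Finset.mem_erase, MvPolynomial.mem_support_iff]
        rcases eq_or_ne α β with rfl | hne
        · simp at hβ
        · rw [if_neg hne, sub_zero] at hβ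
          exact ⟨hne.symm, hβ⟩
      refine (Finset.card_le_card h1).trans ?_
      rw [Finset.card_erase_of_mem hα]
      omega
    · refine (Finset.card_le_card MvPolynomial.support_monomial_subset).trans ?_
      simp

theorem card_rename {σ τ : Type} (f : σ → τ) (hf : Function.Injective f) (p : MvPolynomial σ k) :
    (rename f p).support.card = p.support.card := by
  classical
  rw [MvPolynomial.support_rename_of_injective hf, Finset.card_image_of_injective]
  exact Finsupp.mapDomain_injective hf

theorem aeval_inl {n m : ℕ} (s : Fin m → MvPolynomial (Fin n) k) (p : MvPolynomial (Fin n) k) :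
    aeval (Sum.elim X s) (rename Sum.inl p : MvPolynomial (Fin n ⊕ Fin m) k) = p := by
  rw [aeval_rename, Sum.elim_comp_inl, aeval_X_left, AlgHom.id_apply]

theorem inr_notMem_vars {n m : ℕ} (p : MvPolynomial (Fin n) k) (j : Fin m) :
    (Sum.inr j : Fin n ⊕ Fin m) ∉ (rename Sum.inl p : MvPolynomial (Fin n ⊕ Fin m) k).vars := by
  intro h
  obtain ⟨i, -, hi⟩ := MvPolynomial.mem_vars_rename _ _ h
  exact absurd hi (by simp)

theorem two_inl {n m : ℕ} (s : Fin m → MvPolynomial (Fin n) k) (i : ℕ)
    (p : MvPolynomial (Fin n) k) (h : p.support.card ≤ 2) : Two s i p := by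
  refine ⟨rename Sum.inl p, ?_, fun j hj => absurd hj (inr_notMem_vars p j), aeval_inl s p⟩
  rw [card_rename _ Sum.inl_injective]
  exact h

end FEWAux

open FEWAux in
theorem t_FEW : S_FEW := by
  classical
  intro k _ m n ι f ⟨t, ht, h3, h2⟩
  have hs : ∀ j : t, ∃ p₁ p₂ : MvPolynomial (Fin n) k, p₁ + p₂ = f j ∧ p₁.support.card ≤ 2 ∧
      p₂.support.card ≤ 1 := fun j => split (f j) (h3 j j.2)
  choose p₁ p₂ hp h4 h5 using hs
  let emb : t → Fin m := fun j => Fin.castLE ht (t.equivFin j)
  have hemb : Function.Injective emb := (Fin.castLE_injective ht).comp t.equivFin.injective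
  let s : Fin m → MvPolynomial (Fin n) k := Function.extend emb p₁ (fun _ => 0)
  have hse : ∀ j : t, s (emb j) = p₁ j := fun j => hemb.extend_apply p₁ _ j
  refine ⟨s, fun i => ?_, fun j => ?_⟩
  · refine two_inl s i (s i) ?_
    by_cases hi : ∃ j : t, emb j = i
    · obtain ⟨j, rfl⟩ := hi
      rw [hse]
      exact h4 j
    · have h0 : s i = 0 := Function.extend_apply' p₁ _ i hi
      rw [h0]
      simp
  · by_cases hj : j ∈ t
    · refine ⟨X (Sum.inr (emb ⟨j, hj⟩)) + rename Sum.inl (p₂ ⟨j, hj⟩), ?_, fun i _ => i.2, ?_⟩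
      · refine (Finset.card_le_card MvPolynomial.support_add).trans
          ((Finset.card_union_le _ _).trans ?_)
        rw [card_rename _ Sum.inl_injective]
        have h6 : (X (Sum.inr (emb ⟨j, hj⟩)) : MvPolynomial (Fin n ⊕ Fin m) k).support.card ≤ 1 := by
          rw [MvPolynomial.support_X]
          simp
        have := h5 ⟨j, hj⟩
        omega
      · rw [map_add, aeval_X, aeval_inl, Sum.elim_inr, hse, hp]
    · exact two_inl s m (f j) (h2 j hj)

end Pool.Agent.FMO
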