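import Pool.Agent.FMO.St

/-!
# FMO: module FLD (the residue fields of the algebras `Mon`)
-/

set_option autoImplicit false

open Polynomial Multiplicative

namespace Pool.Agent.FMO

namespace FLDAux

/-- An algebra which satisfies `Mon` is finitely generated. -/
theorem finType (k : Type) [Field k] (m : ℕ) (C : Type) [CommRing C] [Algebra k C]
    (h : Mon k m C) : Algebra.FiniteType k C := by
  obtain ⟨G, _, hfg, χ, u, v, D, htop, -, -, -⟩ := h
  obtain ⟨s, hs⟩ := (Group.fg_iff' (G := G)).1 hfg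
  obtain ⟨s', -, hs'⟩ : ∃ s' : Finset G, s'.card = s ∧ Subgroup.closure (s' : Set G) = ⊤ := hs
  refine ⟨Subalgebra.fg_def.2
    ⟨(fun g => (χ g : C)) '' (s' : Set G) ∪ (fun g => (χ g⁻¹ : C)) '' (s' : Set G),
      (s'.finite_toSet.image _).union (s'.finite_toSet.image _), ?_⟩⟩
  rw [eq_top_iff, ← htop]
  refine Algebra.adjoin_le ?_
  rintro _ ⟨g, rfl⟩
  have hg : g ∈ Subgroup.closure (s' : Set G) := by rw [hs']; trivial
  have key : (χ g : C) ∈ Algebra.adjoin k
        ((fun g => (χ g : C)) '' (s' : Set G) ∪ (fun g => (χ g⁻¹ : C)) '' (s' : Set G)) ∧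
      (χ g⁻¹ : C) ∈ Algebra.adjoin k
        ((fun g => (χ g : C)) '' (s' : Set G) ∪ (fun g => (χ g⁻¹ : C)) '' (s' : Set G)) := by
    induction hg using Subgroup.closure_induction with
    | mem x hx =>
      exact ⟨Algebra.subset_adjoin (Or.inl ⟨x, hx, rfl⟩),
        Algebra.subset_adjoin (Or.inr ⟨x, hx, rfl⟩)⟩
    | one =>
      refine ⟨?_, ?_⟩
      · rw [map_one, Units.val_one]; exact one_mem _
      · rw [inv_one, map_one, Units.val_one]; exact one_mem _
    | mul x y _ _ hx hy =>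
      refine ⟨?_, ?_⟩
      · rw [map_mul, Units.val_mul]; exact mul_mem hx.1 hy.1
      · rw [mul_inv, map_mul, Units.val_mul]; exact mul_mem hx.2 hy.2
    | inv x _ hx =>
      refine ⟨hx.2, ?_⟩
      rw [inv_inv]; exact hx.1
  exact key.1

end FLDAux

/-- Module FLD. -/
theorem t_FLD : M_FLD := by
  intro hFLF k _ m C _ _ hM
  refine ⟨FLDAux.finType k m C hM, ?_⟩
  intro hm q
  obtain ⟨G, _, hfg, χ, u, v, D, htop, huv, hD, htor⟩ := hM
  let f : C →ₐ[k] Kp q :=
    (IsScalarTower.toAlgHom k (C ⧸ q.asIdeal) (Kp q)).comp (Ideal.Quotient.mkₐ k q.asIdeal)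
  let χ' : G →* (Kp q)ˣ := (Units.map (f : C →* Kp q)).comp χ
  have hχ' : ∀ g, (χ' g : Kp q) = f (χ g : C) := fun g => rfl
  have hmem : ∀ c : C, f c ∈ IntermediateField.adjoin k (Set.range fun g => (χ' g : Kp q)) := by
    intro c
    have hle : Algebra.adjoin k (Set.range fun g => (χ g : C)) ≤
        (IntermediateField.adjoin k (Set.range fun g => (χ' g : Kp q))).toSubalgebra.comap f := by
      refine Algebra.adjoin_le ?_
      rintro _ ⟨g, rfl⟩
      exact IntermediateField.subset_adjoin k _ ⟨g, rfl⟩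
    have hc : c ∈ Algebra.adjoin k (Set.range fun g => (χ g : C)) := by rw [htop]; trivial
    exact hle hc
  refine hFLF k (Kp q) m hm G χ' u v D ?_ ?_ ?_ htor
  · rw [eq_top_iff]
    rintro x -
    obtain ⟨a, b, -, rfl⟩ := IsFractionRing.div_surjective (A := C ⧸ q.asIdeal) x
    obtain ⟨a, rfl⟩ := Ideal.Quotient.mk_surjective a
    obtain ⟨b, rfl⟩ := Ideal.Quotient.mk_surjective b
    exact div_mem (hmem a) (hmem b)
  · intro j
    obtain ⟨c, c', hc', h⟩ := huv j
    refine ⟨c, c', hc', ?_⟩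
    have := congrArg f h
    rw [map_add, map_add, map_one, map_zero, map_smul, map_smul] at this
    exact this
  · intro g hg
    rcases hD g hg with ⟨c, hc⟩ | h
    · left
      refine ⟨c, ?_⟩
      rw [hχ', hc, f.commutes]
    · exact Or.inr h

end Pool.Agent.FMO
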