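import Pool.Agent.FMO.St

/-!
# Few monomials, module FLF: the compositum (MP_3af9db_ag, helper43)
-/

set_option autoImplicit false

open Polynomial Multiplicative

namespace Pool.Agent.FMO

namespace FLFAux

open scoped IntermediateField.algebraAdjoinAdjoin

section
variable (k : Type) [Field k] {L : Type} [Field L] [Algebra k L]

/-- the algebraic closure of `k(x)` in `L` -/
noncomputable def Kx (x : L) : IntermediateField k L :=
  (algebraicClosure (IntermediateField.adjoin k {x}) L).restrictScalars k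

variable {k} in
lemma mem_Kx {x y : L} : y ∈ Kx k x ↔ IsAlgebraic (IntermediateField.adjoin k {x}) y :=
  mem_algebraicClosure_iff

lemma trdeg_adjoin (x : L) : Algebra.trdeg k (Algebra.adjoin k {x}) ≤ 1 := by
  have hx : x ∈ Algebra.adjoin k {x} := Algebra.self_mem_adjoin_singleton k x
  have hs : Function.Surjective (Polynomial.aeval (R := k)
      (⟨x, hx⟩ : Algebra.adjoin k {x})) := by
    rintro ⟨y, hy⟩
    have hy' := hy
    rw [Algebra.adjoin_singleton_eq_range_aeval] at hy'
    obtain ⟨p, hp⟩ := hy'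
    refine ⟨p, Subtype.ext ?_⟩
    have h1 := Polynomial.aeval_algHom_apply (Algebra.adjoin k {x}).val
      (⟨x, hx⟩ : Algebra.adjoin k {x}) p
    rw [Subalgebra.val_apply, Subalgebra.val_apply] at h1
    rw [← h1]
    exact hp
  have h := trdeg_le_of_surjective _ hs
  rwa [Polynomial.trdeg_of_isDomain] at h

lemma trdeg_field (x : L) : Algebra.trdeg k (IntermediateField.adjoin k {x}) ≤ 1 := by
  have h := trdeg_add_eq k (Algebra.adjoin k {x}) (A := IntermediateField.adjoin k {x})
  have h0 : Algebra.trdeg (Algebra.adjoin k {x}) (IntermediateField.adjoin k {x}) = 0 :=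
    trdeg_eq_zero
  rw [h0, add_zero] at h
  rw [← h]
  exact trdeg_adjoin k x

lemma trdeg_Kx (x : L) : Algebra.trdeg k (Kx k x) ≤ 1 := by
  show Algebra.trdeg k (algebraicClosure (IntermediateField.adjoin k {x}) L) ≤ 1
  have h := trdeg_add_eq k (IntermediateField.adjoin k {x})
    (A := algebraicClosure (IntermediateField.adjoin k {x}) L)
  have h0 : Algebra.trdeg (IntermediateField.adjoin k {x})
      (algebraicClosure (IntermediateField.adjoin k {x}) L) = 0 := trdeg_eq_zero
  rw [h0, add_zero] at h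
  rw [← h]
  exact trdeg_field k x

variable {k}

lemma self_mem (x : L) : x ∈ Kx k x := by
  rw [mem_Kx]
  exact isAlgebraic_algebraMap
    (⟨x, IntermediateField.mem_adjoin_simple_self k x⟩ : IntermediateField.adjoin k {x})

lemma of_pow {x y : L} {N : ℕ} (hN : 0 < N) (h : y ^ N ∈ Kx k x) : y ∈ Kx k x := by
  rw [mem_Kx] at h ⊢
  exact h.of_pow hN

/-- products of elements of the fields `K j` -/
def Prd {m : ℕ} (K : Fin m → IntermediateField k L) (z : L) : Prop :=
  ∃ w : Fin m → L, (∀ j, w j ∈ K j ∧ w j ≠ 0) ∧ z = ∏ j, w j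

lemma Prd.single {m : ℕ} {K : Fin m → IntermediateField k L} (j : Fin m) {z : L} (hz : z ∈ K j)
    (h0 : z ≠ 0) : Prd K z := by
  refine ⟨fun i => if i = j then z else 1, fun i => ?_, ?_⟩
  · show (if i = j then z else 1) ∈ K i ∧ (if i = j then z else 1) ≠ 0
    by_cases h : i = j
    · subst h
      rw [if_pos rfl]
      exact ⟨hz, h0⟩
    · rw [if_neg h]
      exact ⟨(K i).one_mem, one_ne_zero⟩
  · rw [Finset.prod_ite_eq' Finset.univ j fun _ => z, if_pos (Finset.mem_univ j)]

lemma Prd.one {m : ℕ} {K : Fin m → IntermediateField k L} : Prd K (1 : L) :=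
  ⟨fun _ => 1, fun i => ⟨(K i).one_mem, one_ne_zero⟩, by simp⟩

lemma Prd.mul {m : ℕ} {K : Fin m → IntermediateField k L} {y z : L} (hy : Prd K y)
    (hz : Prd K z) : Prd K (y * z) := by
  obtain ⟨w, hw, rfl⟩ := hy
  obtain ⟨w', hw', rfl⟩ := hz
  exact ⟨fun j => w j * w' j, fun j => ⟨(K j).mul_mem (hw j).1 (hw' j).1,
    mul_ne_zero (hw j).2 (hw' j).2⟩, Finset.prod_mul_distrib.symm⟩

lemma Prd.inv {m : ℕ} {K : Fin m → IntermediateField k L} {y : L} (hy : Prd K y) :
    Prd K y⁻¹ := by
  obtain ⟨w, hw, rfl⟩ := hy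
  exact ⟨fun j => (w j)⁻¹, fun j => ⟨(K j).inv_mem (hw j).1, inv_ne_zero (hw j).2⟩,
    (Finset.prod_inv_distrib _).symm⟩

lemma prod_mem_iSup {m : ℕ} {K : Fin m → IntermediateField k L} {y : Fin m → L}
    (hy : ∀ j, y j ∈ K j) : ∏ j, y j ∈ ⨆ j, K j :=
  prod_mem fun j _ => (le_iSup K j) (hy j)

end

end FLFAux

open FLFAux

theorem t_FLF : S_FLF := by
  intro k F _ _ _ m hm G _ χ u v D hgen hrel hD hN
  obtain ⟨ι, hι⟩ : ∃ ι : F →ₐ[k] AlgebraicClosure F,
      ι = IsScalarTower.toAlgHom k F (AlgebraicClosure F) := ⟨_, rfl⟩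
  obtain ⟨K, hK⟩ : ∃ K : Fin m → IntermediateField k (AlgebraicClosure F),
      K = fun j => Kx k (ι (χ (u j) : F)) := ⟨_, rfl⟩
  refine ⟨AlgebraicClosure F, inferInstance, inferInstance, ι, K, fun j => ?_, ?_⟩
  · rw [hK]
    exact trdeg_Kx k _
  have hne : ∀ g : G, ι (χ g : F) ≠ 0 := fun g =>
    (map_ne_zero ι).2 (Units.ne_zero (χ g))
  have hu : ∀ j, ι (χ (u j) : F) ∈ K j := fun j => by
    rw [hK]
    exact self_mem _
  have hv : ∀ j, ι (χ (v j) : F) ∈ K j := by
    intro j
    obtain ⟨c, c', hc', h⟩ := hrel j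
    have h1 : ι (χ (v j) : F) = c'⁻¹ • (-(1 + c • ι (χ (u j) : F))) := by
      have h2 := congrArg ι h
      rw [map_add, map_add, map_one, map_smul, map_smul, map_zero] at h2
      have h3 : c' • ι (χ (v j) : F) = -(1 + c • ι (χ (u j) : F)) := by
        linear_combination h2
      rw [← h3, smul_smul, inv_mul_cancel₀ hc', one_smul]
    rw [h1]
    exact (K j).smul_mem (neg_mem (add_mem (one_mem _) ((K j).smul_mem (hu j))))
  -- the elements of the closure
  have hcl : ∀ h ∈ Subgroup.closure D, Prd K (ι (χ h : F)) := by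
    intro h hh
    induction hh using Subgroup.closure_induction with
    | mem g hg =>
      rcases hD g hg with ⟨c, hc⟩ | ⟨j, hj | hj⟩
      · refine Prd.single ⟨0, hm⟩ ?_ (hne g)
        rw [hc, ι.commutes]
        exact (K _).algebraMap_mem c
      · rw [hj]
        exact Prd.single j (hu j) (hne _)
      · rw [hj]
        exact Prd.single j (hv j) (hne _)
    | one =>
      rw [map_one, Units.val_one, map_one]
      exact Prd.one
    | mul a b _ _ ha hb =>
      rw [map_mul, Units.val_mul, map_mul]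
      exact ha.mul hb
    | inv a _ ha =>
      rw [map_inv, Units.val_inv_eq_inv_val, map_inv₀]
      exact ha.inv
  -- all values of the character
  have hall : ∀ g : G, ι (χ g : F) ∈ ⨆ j, K j := by
    intro g
    obtain ⟨N, hN0, hgN⟩ := hN g
    obtain ⟨w, hw, hp⟩ := hcl _ hgN
    have h1 : ∀ j, ∃ y : AlgebraicClosure F, y ^ N = w j := fun j =>
      IsAlgClosed.exists_pow_nat_eq (w j) hN0
    choose y hy using h1
    have hyK : ∀ j, y j ∈ K j := by
      intro j
      have h2 := (hw j).1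
      rw [← hy j] at h2
      rw [hK] at h2 ⊢
      exact of_pow hN0 h2
    have hy0 : ∏ j, y j ≠ 0 := by
      rw [Finset.prod_ne_zero_iff]
      intro j _ h0
      apply (hw j).2
      rw [← hy j, h0, zero_pow hN0.ne']
    have h3 : (ι (χ g : F) / ∏ j, y j) ^ N = 1 := by
      rw [div_pow, ← Finset.prod_pow, Finset.prod_congr rfl fun j _ => hy j, ← hp, map_pow,
        Units.val_pow_eq_pow_val, map_pow, div_self (pow_ne_zero _ (hne g))]
    have h4 : ι (χ g : F) / ∏ j, y j ∈ K ⟨0, hm⟩ := by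
      have h5 : (ι (χ g : F) / ∏ j, y j) ^ N ∈ K ⟨0, hm⟩ := by
        rw [h3]
        exact one_mem _
      rw [hK] at h5 ⊢
      exact of_pow hN0 h5
    have h6 : ι (χ g : F) = (ι (χ g : F) / ∏ j, y j) * ∏ j, y j := by
      rw [div_mul_cancel₀ _ hy0]
    rw [h6]
    exact mul_mem ((le_iSup K _) h4) (prod_mem_iSup hyK)
  -- the field
  have hle : IntermediateField.adjoin k (Set.range fun g => (χ g : F)) ≤
      (⨆ j, K j).comap ι := by
    rw [IntermediateField.adjoin_le_iff]
    rintro _ ⟨g, rfl⟩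
    exact hall g
  rw [hgen] at hle
  intro x
  exact hle (IntermediateField.mem_top (x := x))

end Pool.Agent.FMO
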