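import Pool.Agent.FMO.St

/-!
# Few monomials (project FMO), module GEN: the generic theorem
-/

set_option autoImplicit false

namespace Pool.Agent.FMO

theorem t_GEN : M_GEN := by
  intro hELM hSTR hTOR hFLD hLAU k _ P hP m hm hres n ι f hf
  obtain ⟨ι', f', φ, hfew, huniv⟩ := hELM k m n ι f hf
  refine hSTR k P hP (Fin n ⊕ Fin m) ι' f' ?_ _ φ huniv
  intro U Z hUZ C _ _ _ φ' hC
  rcases subsingleton_or_nontrivial C with h | h
  · exact hP.triv C h
  obtain ⟨r, Λ, i1, i2, ⟨e⟩, hmon⟩ := hTOR k (Fin n ⊕ Fin m) ι' f' m hfew U Z hUZ C φ' hC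
  obtain ⟨hft, hres'⟩ := hFLD k m Λ hmon
  have hΛ : P Λ := hres Λ (hres' hm)
  have hL : P (Laur r Λ) := hLAU k P hP Λ r hΛ
  exact hP.iso e.symm hL

end Pool.Agent.FMO
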