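import Pool.Agent.FMO.St

/-!
# FMO, module GRK (helper55): the residue fields of the degree zero algebra of a stratum
-/

set_option autoImplicit false

open Polynomial Multiplicative

namespace Pool.Agent.FMO

namespace GRKAux

section

variable {k : Type} [Field k] {C : Type} [CommRing C] [Algebra k C]

/-- the homomorphism to the residue field -/
noncomputable def ev0 {B : Type} [CommRing B] [Algebra k B] (q : PrimeSpectrum B) :
    B →ₐ[k] Kp q :=
  (IsScalarTower.toAlgHom k (B ⧸ q.asIdeal) (Kp q)).comp (Ideal.Quotient.mkₐ k q.asIdeal)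

lemma ev0_apply {B : Type} [CommRing B] [Algebra k B] (q : PrimeSpectrum B) (c : B) :
    ev0 (k := k) q c = algebraMap (B ⧸ q.asIdeal) (Kp q) (Ideal.Quotient.mk q.asIdeal c) := rfl

/-- the retraction followed by the homomorphism to the residue field -/
lemma exists_theta {r' : ℕ} (Λ : Subalgebra k C) (q : PrimeSpectrum Λ) (e : C ≃ₐ[k] Laur r' Λ)
    (he : ∀ c : Λ, e (c : C) = algebraMap (MvPolynomial (Fin r') Λ) (Laur r' Λ)
      (MvPolynomial.C c)) :
    ∃ Θ : C →ₐ[k] Kp q, ∀ c : Λ, Θ (c : C) = ev0 (k := k) q c := by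
  let f : MvPolynomial (Fin r') Λ →+* Kp q :=
    MvPolynomial.eval₂Hom (ev0 (k := k) q : Λ →+* Kp q) (fun _ => 1)
  have hf : IsUnit (f (∏ i, MvPolynomial.X i)) := by
    rw [map_prod]
    simp [f]
  let g : Laur r' Λ →+* Kp q := IsLocalization.Away.lift (∏ i, MvPolynomial.X i) hf
  have hg : ∀ c : Λ, g (e (c : C)) = ev0 (k := k) q c := by
    intro c
    rw [he c]
    refine (IsLocalization.Away.lift_eq (∏ i, MvPolynomial.X i) hf (MvPolynomial.C c)).trans ?_
    exact MvPolynomial.eval₂Hom_C _ _ _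
  refine ⟨{ g.comp (e : C →+* Laur r' Λ) with commutes' := fun c => ?_ }, fun c => hg c⟩
  have h1 := hg (algebraMap k Λ c)
  rw [AlgHom.commutes] at h1
  exact h1

/-- the homomorphism of the residue fields -/
lemma exists_j {A B : Type} [CommRing A] [Algebra k A] [Field B] [Algebra k B] (φ : A →ₐ[k] B)
    (p : PrimeSpectrum A) (hp : p.asIdeal = RingHom.ker φ) :
    ∃ j : Kp p →ₐ[k] B, ∀ x, j (val p x) = φ x := by
  have h0 : ∀ a ∈ p.asIdeal, φ a = 0 := by
    intro a ha
    rw [hp] at ha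
    exact ha
  have hinj : Function.Injective (Ideal.Quotient.liftₐ p.asIdeal φ h0) := by
    rw [injective_iff_map_eq_zero]
    intro x hx
    obtain ⟨a, rfl⟩ := Ideal.Quotient.mk_surjective x
    have h1 : φ a = 0 := hx
    rw [Ideal.Quotient.eq_zero_iff_mem, hp]
    exact h1
  refine ⟨IsFractionRing.liftAlgHom (K := Kp p) hinj, fun x => ?_⟩
  exact IsFractionRing.lift_algebraMap (K := Kp p) hinj (Ideal.Quotient.mk p.asIdeal x)

/-- a character is determined by its values at the basis vectors -/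
lemma char_eq {n : ℕ} {G : Type} [CommGroup G] (ψ : Multiplicative (Fin n → ℤ) →* G)
    (α : Fin n → ℤ) : ψ (ofAdd α) = ∏ v, ψ (ofAdd (Pi.single v 1)) ^ α v := by
  classical
  have h1 : α = ∑ v, α v • (Pi.single v 1 : Fin n → ℤ) := by
    funext i
    rw [Finset.sum_apply]
    simp [Pi.single_apply]
  conv_lhs => rw [h1]
  rw [ofAdd_sum, map_prod]
  refine Finset.prod_congr rfl fun v _ => ?_
  rw [ofAdd_zsmul, map_zpow]

lemma add_eq {n : ℕ} {G : Type} [AddCommGroup G] (ψ : (Fin n → ℤ) →+ G)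
    (α : Fin n → ℤ) : ψ α = ∑ v, α v • ψ (Pi.single v 1) := by
  classical
  have h1 : α = ∑ v, α v • (Pi.single v 1 : Fin n → ℤ) := by
    funext i
    rw [Finset.sum_apply]
    simp [Pi.single_apply]
  conv_lhs => rw [h1]
  rw [map_sum]
  refine Finset.sum_congr rfl fun v _ => ?_
  rw [map_zsmul]

end

end GRKAux

open GRKAux in
theorem t_GRK : S_GRK := by
  intro k _ n r r' w A C _ _ _ _ a ρ U χ hU hZ h1 deg hd hw e he q
  classical
  obtain ⟨Θ, hΘ⟩ := exists_theta (Lam k χ deg) q e he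
  let φ : A →ₐ[k] Kp q := Θ.comp ρ
  obtain ⟨p, hp⟩ : ∃ p : PrimeSpectrum A, p.asIdeal = RingHom.ker φ :=
    ⟨⟨RingHom.ker φ, RingHom.ker_isPrime φ⟩, rfl⟩
  refine ⟨p, ?_⟩
  obtain ⟨j, hj⟩ := exists_j φ p hp
  -- the values of the character
  let ψ : Multiplicative (Fin n → ℤ) →* (Kp q)ˣ := (Units.map (Θ : C →* Kp q)).comp χ
  have hψ : ∀ x, ((ψ x : (Kp q)ˣ) : Kp q) = Θ (χ x : C) := fun x => rfl
  have hψU : ∀ v ∈ U, ((ψ (ofAdd (Pi.single v 1)) : (Kp q)ˣ) : Kp q) = φ (a v) := by
    intro v hv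
    rw [hψ, hU v hv]
    rfl
  have hψZ : ∀ v, v ∉ U → ψ (ofAdd (Pi.single v 1)) = 1 := by
    intro v hv
    show Units.map (Θ : C →* Kp q) (χ (ofAdd (Pi.single v 1))) = 1
    rw [h1 v hv, map_one]
  have key : ∀ α : Fin n → ℤ, deg α = 0 →
      Θ (χ (ofAdd α) : C) ∈ (Kw (k := k) w a p).map j := by
    intro α hα
    let α' : Fin n → ℤ := fun v => if v ∈ U then α v else 0
    have hα'0 : ∀ v, v ∉ U → α' v = 0 := fun v hv => if_neg hv
    have hdeg : deg α' = 0 := by
      rw [← hα, add_eq deg α, add_eq deg α']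
      refine Finset.sum_congr rfl fun v _ => ?_
      by_cases hv : v ∈ U
      · simp only [α', if_pos hv]
      · rw [hd v hv, smul_zero, smul_zero]
    refine ⟨∏ i, val p (a i) ^ α' i, ?_, ?_⟩
    · refine IntermediateField.subset_adjoin k _ ⟨α', ?_, (hw α' hα'0).1 hdeg, rfl⟩
      intro i hi
      by_contra hcon
      have hiU : i ∈ U := by
        by_contra h3
        exact hcon (hα'0 i h3)
      have h4 : φ (a i) = 0 := by
        rw [hp] at hi
        exact hi
      rw [← hψU i hiU] at h4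
      exact (ψ (ofAdd (Pi.single i 1))).ne_zero h4
    · show j (∏ i, val p (a i) ^ α' i) = Θ (χ (ofAdd α) : C)
      rw [← hψ, char_eq ψ α, map_prod, Units.coe_prod]
      refine Finset.prod_congr rfl fun v _ => ?_
      rw [map_zpow₀, hj]
      by_cases hv : v ∈ U
      · simp only [α', if_pos hv]
        rw [Units.val_zpow_eq_zpow_val, hψU v hv]
      · rw [hα'0 v hv, hψZ v hv, zpow_zero, one_zpow, Units.val_one]
  have hΛ : Lam k χ deg ≤ ((Kw (k := k) w a p).map j).toSubalgebra.comap Θ := by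
    refine Algebra.adjoin_le ?_
    rintro c ⟨α, hα, rfl⟩
    exact key α hα
  have htop : (Kw (k := k) w a p).map j = ⊤ := by
    rw [eq_top_iff]
    intro z _
    obtain ⟨x, y, -, rfl⟩ := IsFractionRing.div_surjective (A := Lam k χ deg ⧸ q.asIdeal) z
    obtain ⟨c, rfl⟩ := Ideal.Quotient.mk_surjective x
    obtain ⟨d, rfl⟩ := Ideal.Quotient.mk_surjective y
    have hc := hΛ c.2
    have hd' := hΛ d.2
    have hc' : Θ (c : C) ∈ (Kw (k := k) w a p).map j := hc
    have hd'' : Θ (d : C) ∈ (Kw (k := k) w a p).map j := hd'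
    rw [hΘ, ev0_apply] at hc' hd''
    exact div_mem hc' hd''
  exact ⟨((Kw (k := k) w a p).equivMap j).trans
    ((IntermediateField.equivOfEq htop).trans IntermediateField.topEquiv)⟩

end Pool.Agent.FMO
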