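import Pool.Agent.FMO.St

/-!
# Few monomials, module GRW: graded algebras (MP_3af9db_ag, helper43)
-/

set_option autoImplicit false

open Polynomial Multiplicative

namespace Pool.Agent.FMO

namespace GRWAux

section
variable {k : Type} [Field k]

/-- `Λ` is finitely generated -/
lemma lam_fg {n r : ℕ} {C : Type} [CommRing C] [Algebra k C]
    (χ : Multiplicative (Fin n → ℤ) →* Cˣ) (deg : (Fin n → ℤ) →+ (Fin r → ℤ)) :
    Algebra.FiniteType k (Lam k χ deg) := by
  rw [← Subalgebra.fg_iff_finiteType]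
  -- generators of the kernel
  obtain ⟨t, ht⟩ : ∃ t : Finset (Fin n → ℤ), AddSubgroup.closure (t : Set (Fin n → ℤ)) =
      deg.ker := by
    have h1 : (AddSubgroup.toIntSubmodule deg.ker).FG := IsNoetherian.noetherian _
    rw [Submodule.fg_iff_addSubgroup_fg, AddSubgroup.toIntSubmodule_toAddSubgroup] at h1
    exact h1
  have htk : ∀ α ∈ t, deg α = 0 := by
    intro α hα
    have h2 : α ∈ deg.ker := by
      rw [← ht]
      exact AddSubgroup.subset_closure hα
    exact h2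
  classical
  refine ⟨t.image (fun α => (χ (ofAdd α) : C)) ∪ t.image (fun α => (χ (ofAdd (-α)) : C)), ?_⟩
  rw [Finset.coe_union, Finset.coe_image, Finset.coe_image]
  refine le_antisymm (Algebra.adjoin_le ?_) (Algebra.adjoin_le ?_)
  · rintro x (⟨α, hα, rfl⟩ | ⟨α, hα, rfl⟩)
    · exact Algebra.subset_adjoin ⟨α, htk α hα, rfl⟩
    · exact Algebra.subset_adjoin ⟨-α, by rw [map_neg, htk α hα, neg_zero], rfl⟩
  · rintro x ⟨α, hα, rfl⟩
    have h3 : α ∈ AddSubgroup.closure (t : Set (Fin n → ℤ)) := by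
      rw [ht]
      exact hα
    clear hα
    -- both `χ α` and `χ (-α)` are in the subalgebra
    have h4 : (χ (ofAdd α) : C) ∈ Algebra.adjoin k ((fun α => (χ (ofAdd α) : C)) '' (t : Set _) ∪
        (fun α => (χ (ofAdd (-α)) : C)) '' (t : Set _)) ∧
        (χ (ofAdd (-α)) : C) ∈ Algebra.adjoin k ((fun α => (χ (ofAdd α) : C)) '' (t : Set _) ∪
          (fun α => (χ (ofAdd (-α)) : C)) '' (t : Set _)) := by
      induction h3 using AddSubgroup.closure_induction with
      | mem β hβ =>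
        exact ⟨Algebra.subset_adjoin (Or.inl ⟨β, hβ, rfl⟩),
          Algebra.subset_adjoin (Or.inr ⟨β, hβ, rfl⟩)⟩
      | zero =>
        rw [neg_zero, ofAdd_zero, map_one, Units.val_one]
        exact ⟨one_mem _, one_mem _⟩
      | add β γ _ _ hb hc =>
        rw [neg_add, ofAdd_add, ofAdd_add, map_mul, map_mul, Units.val_mul, Units.val_mul]
        exact ⟨mul_mem hb.1 hc.1, mul_mem hb.2 hc.2⟩
      | neg β _ hb =>
        rw [neg_neg]
        exact ⟨hb.2, hb.1⟩
    exact h4.1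

/-- the degrees of the exponents -/
lemma deg_eq {n r r' : ℕ} {w : Fin n → (Fin r → ℤ)} {U : Set (Fin n)}
    {deg : (Fin n → ℤ) →+ (Fin r' → ℤ)}
    (hdeg : ∀ α : Fin n → ℤ, (∀ v, v ∉ U → α v = 0) → (deg α = 0 ↔ ∑ v, α v • w v = 0))
    {p : MvPolynomial (Fin n) k} {d : Fin r → ℤ} (hp : p.IsWeightedHomogeneous w d)
    {α β : Fin n →₀ ℕ} (hα : α ∈ p.support) (hβ : β ∈ p.support) (h1 : ∀ v, v ∉ U → α v = 0)
    (h2 : ∀ v, v ∉ U → β v = 0) :
    deg (fun v => (α v : ℤ)) = deg (fun v => (β v : ℤ)) := by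
  have e1 : ∀ γ : Fin n →₀ ℕ, γ ∈ p.support → ∑ v, (γ v : ℤ) • w v = d := by
    intro γ hγ
    have h3 := hp (MvPolynomial.mem_support_iff.1 hγ)
    rw [Finsupp.weight_apply, Finsupp.sum_fintype γ (fun i c => c • w i) fun i => zero_smul _ _] at h3
    rw [← h3]
    exact Finset.sum_congr rfl fun v _ => natCast_zsmul _ _
  rw [← sub_eq_zero, ← map_sub]
  refine (hdeg _ fun v hv => ?_).2 ?_
  · show (α v : ℤ) - (β v : ℤ) = 0
    rw [h1 v hv, h2 v hv, sub_self]
  · have e2 : ∀ v, ((fun v => (α v : ℤ)) - fun v => (β v : ℤ)) v • w v =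
        (α v : ℤ) • w v - (β v : ℤ) • w v := fun v => sub_smul _ _ _
    rw [Finset.sum_congr rfl fun v _ => e2 v, Finset.sum_sub_distrib, e1 α hα, e1 β hβ, sub_self]

end

end GRWAux

open GRWAux

theorem t_GRW : M_GRW := by
  intro hSTR hUNI hDGW hTOZ hGRK hLAU k _ P hP Φ hΦi hAP n r w ι f d hf hΦ
  have hU0 := hUNI k (Fin n) ι f
  refine hSTR k P hP (Fin n) ι f ?_ _ _ hU0
  intro U Z hUZ C _ _ _ φ hC
  rcases subsingleton_or_nontrivial C with hs | hn
  · exact hP.triv C hs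
  · obtain ⟨r', deg, s, hsec, hdU, hdeg⟩ := hDGW n r w U
    obtain ⟨χ, hχU, hχn, e, he⟩ := hTOZ k (Fin n) ι f U Z hUZ C φ hC r' deg s hsec hdU
      (fun j α hα β hβ h1 h2 => deg_eq hdeg (hf j) hα hβ h1 h2)
    have hfg : Algebra.FiniteType k (Lam k χ deg) := lam_fg χ deg
    obtain ⟨ρ, hρ⟩ := hU0.lift C φ hC.sat (fun v hv => absurd hv (Set.notMem_empty v))
      (fun v hv => absurd hv (Set.notMem_empty v))
    have hPΛ : P (Lam k χ deg) := by
      refine hAP _ fun q => ?_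
      obtain ⟨p, ⟨g⟩⟩ := hGRK k n r r' w _ C _ ρ U χ
        (fun v hv => by rw [hχU v hv, hρ v]) (fun v hv => by
          rw [hρ v]
          exact hC.zero v ((hUZ v).resolve_left hv)) hχn deg hdU hdeg e he q
      exact hΦi _ _ g (hΦ p)
    have hPL : P (Laur r' (Lam k χ deg)) := hLAU k P hP (Lam k χ deg) r' hPΛ
    exact hP.iso e.symm hPL

end Pool.Agent.FMO
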