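import Pool.Agent.FMO.St

/-!
# Few monomials (project FMO): module LAU, Laurent polynomials
-/

set_option autoImplicit false

open Polynomial

namespace Pool.Agent.FMO

namespace LAUAux

/-- The algebra `Laur 0 C` is `C`. -/
theorem zero (k : Type) [Field k] (C : Type) [CommRing C] [Algebra k C] :
    Nonempty (C ≃ₐ[k] Laur 0 C) := by
  have hu : IsUnit (∏ i, MvPolynomial.X i : MvPolynomial (Fin 0) C) := by
    simp
  have e1 : MvPolynomial (Fin 0) C ≃ₐ[MvPolynomial (Fin 0) C] Laur 0 C :=
    IsLocalization.atUnit (MvPolynomial (Fin 0) C) (Laur 0 C) _ hu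
  exact ⟨((MvPolynomial.isEmptyAlgEquiv C (Fin 0)).symm.restrictScalars k).trans
    (e1.restrictScalars k)⟩

/-- The localization of `A[X]` away from `X`, for `A = Laur r C`, is `Laur (r + 1) C`. -/
theorem succ (k : Type) [Field k] (C : Type) [CommRing C] [Algebra k C] (r : ℕ) :
    Nonempty (Localization.Away (X : (Laur r C)[X]) ≃ₐ[k] Laur (r + 1) C) := by
  let B := MvPolynomial (Fin r) C
  let b : B := ∏ i, MvPolynomial.X i
  let A := Laur r C
  let U := Localization.Away (X : A[X])
  let a1 : Algebra B[X] A[X] := (mapRingHom (algebraMap B A)).toAlgebra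
  have l1 : IsLocalization.Away (Polynomial.C b : B[X]) A[X] := by
    have h := Polynomial.isLocalization (Submonoid.powers b) A
    rw [Submonoid.map_powers] at h
    exact h
  have t2 : IsScalarTower B[X] A[X] U := inferInstance
  have hX : algebraMap B[X] A[X] X = X := by
    change mapRingHom (algebraMap B A) X = X
    simp
  have l2 : IsLocalization.Away (algebraMap B[X] A[X] X) U := by
    rw [hX]
    infer_instance
  have l3 : IsLocalization.Away (X * Polynomial.C b : B[X]) U :=
    IsLocalization.Away.mul A[X] U (Polynomial.C b) X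
  let R := MvPolynomial (Fin (r + 1)) C
  let h : B[X] ≃+* R := (MvPolynomial.finSuccEquiv C r).symm.toRingEquiv
  have l4 := IsLocalization.isLocalization_of_base_ringEquiv (Submonoid.powers (X * Polynomial.C b : B[X])) U h
  let a3 : Algebra R U := ((algebraMap B[X] U).comp h.symm.toRingHom).toAlgebra
  have hp : (Submonoid.powers (X * Polynomial.C b : B[X])).map h =
      Submonoid.powers (∏ i, MvPolynomial.X i : R) := by
    rw [Submonoid.map_powers]
    congr 1
    change (MvPolynomial.finSuccEquiv C r).symm (X * Polynomial.C b) = _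
    rw [AlgEquiv.symm_apply_eq, Fin.prod_univ_succ, map_mul, map_prod,
      MvPolynomial.finSuccEquiv_X_zero]
    congr 1
    rw [map_prod]
    exact Finset.prod_congr rfl fun i _ => MvPolynomial.finSuccEquiv_X_succ.symm
  have l5 : IsLocalization (Submonoid.powers (∏ i, MvPolynomial.X i : R)) U := by
    rw [← hp]
    exact l4
  let e : U ≃ₐ[R] Laur (r + 1) C :=
    IsLocalization.algEquiv (Submonoid.powers (∏ i, MvPolynomial.X i : R)) U (Laur (r + 1) C)
  refine ⟨AlgEquiv.ofRingEquiv (f := e.toRingEquiv) fun c => ?_⟩
  have h1 : algebraMap k U c = algebraMap R U (algebraMap k R c) := by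
    change _ = algebraMap B[X] U ((MvPolynomial.finSuccEquiv C r) (algebraMap k R c))
    rw [IsScalarTower.algebraMap_apply k C R, AlgEquiv.commutes]
    rw [IsScalarTower.algebraMap_apply k A[X] U, IsScalarTower.algebraMap_apply B[X] A[X] U]
    congr 1
    change _ = mapRingHom (algebraMap B A) (Polynomial.C (algebraMap C B (algebraMap k C c)))
    rw [coe_mapRingHom, Polynomial.map_C, ← IsScalarTower.algebraMap_apply k C B,
      ← IsScalarTower.algebraMap_apply k B A]
    rfl
  rw [h1]
  change e (algebraMap R U (algebraMap k R c)) = _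
  rw [AlgEquiv.commutes]
  exact (IsScalarTower.algebraMap_apply k R (Laur (r + 1) C) c).symm

end LAUAux

/-- LAU: the property passes to Laurent polynomials. -/
theorem t_LAU : S_LAU := by
  intro k _ P hP C _ _ _ r h
  induction r with
  | zero =>
    obtain ⟨e⟩ := LAUAux.zero k C
    exact hP.iso e h
  | succ r ih =>
    obtain ⟨e⟩ := LAUAux.succ k C r
    have h1 : P (Laur r C)[X] := hP.line _ ih
    let z : (Laur r C)[X] →ₐ[k] Laur r C := (aeval (0 : Laur r C)).restrictScalars k
    let u : (Laur r C)[X] →ₐ[k] Localization.Away (X : (Laur r C)[X]) :=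
      IsScalarTower.toAlgHom k _ _
    have hs : Strat (X : (Laur r C)[X]) z u := by
      refine ⟨?_, ?_, ?_⟩
      · intro a
        exact ⟨Polynomial.C a, by simp [z]⟩
      · ext p
        rw [RingHom.mem_ker, Ideal.mem_span_singleton, X_dvd_iff]
        change aeval (0 : Laur r C) p = 0 ↔ _
        rw [← coeff_zero_eq_aeval_zero]
      · have h2 : u.toRingHom.toAlgebra =
            (inferInstance : Algebra (Laur r C)[X] (Localization.Away (X : (Laur r C)[X]))) := by
          apply Algebra.algebra_ext
          intro _
          rfl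
        rw [h2]
        infer_instance
    exact hP.iso e (hP.opn _ z u hs h1 ih)

end Pool.Agent.FMO
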