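import Pool.Agent.FMO.St

/-!
# FMO: module STR, the strata of a system (helper98)
-/

set_option autoImplicit false

open MvPolynomial

namespace Pool.Agent.FMO

namespace STRAux

variable {k : Type} [Field k] {V ι : Type} {f : ι → MvPolynomial V k} {U Z : Set V} {C : Type}
  [CommRing C] [Algebra k C] {φ : V → C}

theorem quotient (h : Univ f U Z C φ) (v : V) :
    Univ f U (insert v Z) (C ⧸ Ideal.span {φ v})
      (fun w => Ideal.Quotient.mk (Ideal.span {φ v}) (φ w)) where
  sat j := by
    have h1 := congrArg (Ideal.Quotient.mkₐ k (Ideal.span {φ v})) (h.sat j)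
    rw [map_zero, ← AlgHom.comp_apply, comp_aeval] at h1
    exact h1
  unit w hw := (h.unit w hw).map _
  zero w hw := by
    rcases Set.mem_insert_iff.1 hw with rfl | hw
    · exact Ideal.Quotient.eq_zero_iff_mem.2 (Ideal.mem_span_singleton_self _)
    · show Ideal.Quotient.mk (Ideal.span {φ v}) (φ w) = 0
      rw [h.zero w hw, map_zero]
  lift D _ _ ψ hs hu hz := by
    obtain ⟨g, hg⟩ := h.lift D ψ hs hu fun w hw => hz w (Set.mem_insert_of_mem v hw)
    have h1 : ∀ a : C, a ∈ Ideal.span {φ v} → g a = 0 := by
      intro a ha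
      obtain ⟨b, rfl⟩ := Ideal.mem_span_singleton'.1 ha
      rw [map_mul, hg v, hz v (Set.mem_insert v Z), mul_zero]
    exact ⟨Ideal.Quotient.liftₐ (Ideal.span {φ v}) g h1, fun w => hg w⟩
  ext D _ _ g g' hgg := by
    have h1 := h.ext D (g.comp (Ideal.Quotient.mkₐ k (Ideal.span {φ v})))
      (g'.comp (Ideal.Quotient.mkₐ k (Ideal.span {φ v}))) fun w => hgg w
    exact Ideal.Quotient.algHom_ext k h1

theorem localization (h : Univ f U Z C φ) (v : V) :
    Univ f (insert v U) Z (Localization.Away (φ v))
      (fun w => algebraMap C (Localization.Away (φ v)) (φ w)) where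
  sat j := by
    have h1 := congrArg (IsScalarTower.toAlgHom k C (Localization.Away (φ v))) (h.sat j)
    rw [map_zero, ← AlgHom.comp_apply, comp_aeval] at h1
    exact h1
  unit w hw := by
    rcases Set.mem_insert_iff.1 hw with rfl | hw
    · exact IsLocalization.Away.algebraMap_isUnit _
    · exact (h.unit w hw).map _
  zero w hw := by
    show algebraMap C (Localization.Away (φ v)) (φ w) = 0
    rw [h.zero w hw, map_zero]
  lift D _ _ ψ hs hu hz := by
    obtain ⟨g, hg⟩ := h.lift D ψ hs (fun w hw => hu w (Set.mem_insert_of_mem v hw)) hz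
    have h1 : ∀ y : Submonoid.powers (φ v), IsUnit (g y) := by
      rintro ⟨_, n, rfl⟩
      change IsUnit (g (φ v ^ n))
      rw [map_pow, hg v]
      exact (hu v (Set.mem_insert v U)).pow n
    refine ⟨IsLocalization.liftAlgHom (M := Submonoid.powers (φ v)) (f := g) h1, fun w => ?_⟩
    rw [IsLocalization.liftAlgHom_apply, IsLocalization.lift_eq]
    exact hg w
  ext D _ _ g g' hgg := by
    have h1 := h.ext D (g.comp (IsScalarTower.toAlgHom k C (Localization.Away (φ v))))
      (g'.comp (IsScalarTower.toAlgHom k C (Localization.Away (φ v)))) fun w => hgg w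
    have h2 : (g : Localization.Away (φ v) →+* D) = g' := by
      refine IsLocalization.ringHom_ext (Submonoid.powers (φ v)) (RingHom.ext fun a => ?_)
      exact congrArg (fun f : C →ₐ[k] D => f a) h1
    exact AlgHom.coe_ringHom_injective h2

/-- the closed part and the open part of `C` -/
theorem strat (a : C) : Strat (k := k) a (Ideal.Quotient.mkₐ k (Ideal.span {a}))
    (IsScalarTower.toAlgHom k C (Localization.Away a)) where
  surj := Ideal.Quotient.mkₐ_surjective k _
  ker := by
    ext x
    exact Ideal.Quotient.eq_zero_iff_mem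
  away := by
    have e : (IsScalarTower.toAlgHom k C (Localization.Away a)).toRingHom.toAlgebra =
        (inferInstance : Algebra C (Localization.Away a)) :=
      Algebra.algebra_ext _ _ fun r => rfl
    rw [e]
    infer_instance

end STRAux

open STRAux in
theorem t_STR : S_STR := by
  classical
  intro k _ P hP V _ ι f hbase
  have hfin : Fintype V := Fintype.ofFinite V
  have key : ∀ (n : ℕ) (U Z : Set V) (C : Type) [CommRing C] [Algebra k C]
      [Algebra.FiniteType k C] (φ : V → C), Univ f U Z C φ →
      (Finset.univ.filter fun v => ¬ (v ∈ U ∨ v ∈ Z)).card = n → P C := by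
    intro n
    induction n using Nat.strong_induction_on with
    | _ n ih =>
      intro U Z C _ _ _ φ h hn
      by_cases hv : ∀ v, v ∈ U ∨ v ∈ Z
      · exact hbase U Z hv C φ h
      · rw [not_forall] at hv
        obtain ⟨v, hv0⟩ := hv
        rw [not_or] at hv0
        obtain ⟨hv1, hv2⟩ := hv0
        have hlt : ∀ U' Z' : Set V, U ⊆ U' → Z ⊆ Z' → (v ∈ U' ∨ v ∈ Z') →
            (Finset.univ.filter fun v => ¬ (v ∈ U' ∨ v ∈ Z')).card < n := by
          intro U' Z' hU hZ hv
          rw [← hn]
          refine Finset.card_lt_card (Finset.ssubset_iff_subset_ne.2 ⟨fun w hw => ?_, fun he => ?_⟩)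
          · rw [Finset.mem_filter] at hw ⊢
            exact ⟨hw.1, fun h1 => hw.2 (h1.imp (fun h2 => hU h2) fun h2 => hZ h2)⟩
          · have h1 : v ∈ Finset.univ.filter fun v => ¬ (v ∈ U ∨ v ∈ Z) := by
              rw [Finset.mem_filter]
              exact ⟨Finset.mem_univ v, fun h2 => h2.elim hv1 hv2⟩
            rw [← he, Finset.mem_filter] at h1
            exact h1.2 hv
        have hq : Algebra.FiniteType k (C ⧸ Ideal.span {φ v}) :=
          Algebra.FiniteType.of_surjective (Ideal.Quotient.mkₐ k (Ideal.span {φ v}))
            (Ideal.Quotient.mkₐ_surjective k _)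
        have hl : Algebra.FiniteType k (Localization.Away (φ v)) := by
          have h1 : Algebra.FiniteType C (Localization.Away (φ v)) := inferInstance
          exact Algebra.FiniteType.trans (S := C) inferInstance h1
        refine hP.glue (φ v) (Ideal.Quotient.mkₐ k (Ideal.span {φ v}))
          (IsScalarTower.toAlgHom k C (Localization.Away (φ v))) (strat (φ v)) ?_ ?_
        · exact ih _ (hlt U (insert v Z) subset_rfl (Set.subset_insert v Z)
            (Or.inr (Set.mem_insert v Z))) U (insert v Z) (C ⧸ Ideal.span {φ v}) _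
            (quotient h v) rfl
        · exact ih _ (hlt (insert v U) Z (Set.subset_insert v U) subset_rfl
            (Or.inl (Set.mem_insert v U))) (insert v U) Z (Localization.Away (φ v)) _
            (localization h v) rfl
  intro C _ _ _ φ h
  exact key _ ∅ ∅ C φ h rfl

end Pool.Agent.FMO
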