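import Pool.Agent.FMO.St
import Pool.Agent.GZT.TorA

/-!
# FMO, module TOR: the strata of systems with few monomials
-/

set_option autoImplicit false

open Polynomial Multiplicative

namespace Pool.Agent.FMO

namespace TORAux

variable {k : Type} [Field k] {V : Type} [Fintype V] {C : Type} [CommRing C] [Algebra k C]

/-- an exponent as an integer vector -/
def zz (α : V →₀ ℕ) : V → ℤ := fun v => (α v : ℤ)

theorem chi_eq [DecidableEq V] (χ : Multiplicative (V → ℤ) →* Cˣ) (x : V → ℤ) :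
    χ (ofAdd x) = ∏ v, χ (ofAdd (Pi.single v 1)) ^ (x v) := by
  have h : x = ∑ v, x v • (Pi.single v 1 : V → ℤ) := by
    funext w
    simp [Finset.sum_apply, Pi.single_apply]
  conv_lhs => rw [h]
  rw [ofAdd_sum, map_prod]
  refine Finset.prod_congr rfl fun v _ => ?_
  rw [ofAdd_zsmul, map_zpow]

theorem mono [DecidableEq V] (χ : Multiplicative (V → ℤ) →* Cˣ) {U : Set V} {φ : V → C}
    (hU : ∀ v ∈ U, (χ (ofAdd (Pi.single v 1)) : C) = φ v) (α : V →₀ ℕ)
    (hα : ∀ v, v ∉ U → α v = 0) :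
    ∏ v, φ v ^ α v = (χ (ofAdd (zz α)) : C) := by
  rw [chi_eq, Units.coe_prod]
  refine Finset.prod_congr rfl fun v _ => ?_
  have e : zz α v = ((α v : ℕ) : ℤ) := rfl
  rw [e, zpow_natCast, Units.val_pow_eq_pow_val]
  by_cases hv : v ∈ U
  · rw [hU v hv]
  · rw [hα v hv, pow_zero, pow_zero]

theorem sum_zero [DecidableEq V] (χ : Multiplicative (V → ℤ) →* Cˣ) {U : Set V} {φ : V → C}
    (hU : ∀ v ∈ U, (χ (ofAdd (Pi.single v 1)) : C) = φ v) (hZ : ∀ v, v ∉ U → φ v = 0)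
    (p : MvPolynomial V k) (hp : MvPolynomial.aeval φ p = 0)
    (A : Finset (V →₀ ℕ)) (hA : ∀ α, α ∈ A ↔ α ∈ p.support ∧ ∀ v, v ∉ U → α v = 0) :
    ∑ α ∈ A, p.coeff α • (χ (ofAdd (zz α)) : C) = 0 := by
  rw [MvPolynomial.aeval_def, MvPolynomial.eval₂_eq'] at hp
  rw [← hp]
  have hsub : A ⊆ p.support := fun α hα => ((hA α).1 hα).1
  rw [← Finset.sum_subset hsub]
  · refine Finset.sum_congr rfl fun α hα => ?_
    rw [mono χ hU α ((hA α).1 hα).2, Algebra.smul_def]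
  · intro α hα hnot
    have h1 : ¬ ∀ v, v ∉ U → α v = 0 := fun h => hnot ((hA α).2 ⟨hα, h⟩)
    push Not at h1
    obtain ⟨v, hv, hne⟩ := h1
    rw [Finset.prod_eq_zero (Finset.mem_univ v) (by rw [hZ v hv, zero_pow hne]), mul_zero]

theorem chi_sub (χ : Multiplicative (V → ℤ) →* Cˣ) (x y : V → ℤ) :
    (χ (ofAdd (x - y)) : C) * (χ (ofAdd y) : C) = (χ (ofAdd x) : C) := by
  rw [← Units.val_mul, ← map_mul, ← ofAdd_add, sub_add_cancel]

theorem smul_unit_zero [Nontrivial C] {c : k} (hc : c ≠ 0) (u : Cˣ) (h : c • (u : C) = 0) :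
    False := by
  rcases smul_eq_zero.1 h with h1 | h1
  · exact hc h1
  · exact u.ne_zero h1

theorem two_terms (χ : Multiplicative (V → ℤ) →* Cˣ) (x y : V → ℤ) (c d : k) (hc : c ≠ 0)
    (h : c • (χ (ofAdd x) : C) + d • (χ (ofAdd y) : C) = 0) :
    (χ (ofAdd (x - y)) : C) = algebraMap k C (-(d / c)) := by
  have h1 : (χ (ofAdd x) : C) = (-(d / c)) • (χ (ofAdd y) : C) := by
    have h2 : c⁻¹ • (c • (χ (ofAdd x) : C) + d • (χ (ofAdd y) : C)) = 0 := by rw [h, smul_zero]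
    rw [smul_add, smul_smul, smul_smul, inv_mul_cancel₀ hc, one_smul] at h2
    rw [eq_neg_of_add_eq_zero_left h2, neg_smul, div_eq_inv_mul]
  have h3 := chi_sub χ x y
  rw [h1, Algebra.smul_def] at h3
  exact (χ (ofAdd y)).isUnit.mul_right_cancel h3

/-- the relations of one equation -/
theorem pj [Nontrivial C] (χ : Multiplicative (V → ℤ) →* Cˣ) (A : Finset (V →₀ ℕ))
    (c : (V →₀ ℕ) → k) (hc : ∀ α ∈ A, c α ≠ 0)
    (hsum : ∑ α ∈ A, c α • (χ (ofAdd (zz α)) : C) = 0) (hcard : A.card ≤ 3) :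
    (A.card ≤ 2 → ∀ α ∈ A, ∀ β ∈ A, ∃ d : k, (χ (ofAdd (zz α - zz β)) : C) = algebraMap k C d) ∧
    ∃ p q : V → ℤ, (p = 0 ∨ ∃ α ∈ A, ∃ β ∈ A, p = zz α - zz β) ∧
      (q = 0 ∨ ∃ α ∈ A, ∃ β ∈ A, q = zz α - zz β) ∧
      (∃ d d' : k, d' ≠ 0 ∧ 1 + d • (χ (ofAdd p) : C) + d' • (χ (ofAdd q) : C) = 0) ∧
      ∀ α ∈ A, ∀ β ∈ A, (∃ d : k, (χ (ofAdd (zz α - zz β)) : C) = algebraMap k C d) ∨
        zz α - zz β ∈ AddSubgroup.closure {p, q} := by
  classical
  have htriv : ∃ d d' : k, d' ≠ 0 ∧ 1 + d • (χ (ofAdd (0 : V → ℤ)) : C) +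
      d' • (χ (ofAdd (0 : V → ℤ)) : C) = 0 := by
    refine ⟨-2, 1, one_ne_zero, ?_⟩
    rw [ofAdd_zero, map_one, Units.val_one, one_smul, neg_smul, ofNat_smul_eq_nsmul]
    simp
    norm_num
  have hself : ∀ x : V → ℤ, ∃ d : k, (χ (ofAdd (x - x)) : C) = algebraMap k C d := by
    intro x
    refine ⟨1, ?_⟩
    rw [sub_self, ofAdd_zero, map_one, Units.val_one, map_one]
  have hlow : A.card ≤ 2 →
      ∀ α ∈ A, ∀ β ∈ A, ∃ d : k, (χ (ofAdd (zz α - zz β)) : C) = algebraMap k C d := by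
    intro h2
    interval_cases hA : A.card
    · rw [Finset.card_eq_zero] at hA
      intro α hα
      rw [hA] at hα
      exact absurd hα (Finset.notMem_empty _)
    · obtain ⟨x, hx⟩ := Finset.card_eq_one.1 hA
      rw [hx, Finset.sum_singleton] at hsum
      exact (smul_unit_zero (hc x (by rw [hx]; exact Finset.mem_singleton_self _)) _ hsum).elim
    · obtain ⟨x, y, hxy, hx⟩ := Finset.card_eq_two.1 hA
      have hcx : c x ≠ 0 := hc x (by rw [hx]; simp)
      have hcy : c y ≠ 0 := hc y (by rw [hx]; simp)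
      rw [hx, Finset.sum_pair hxy] at hsum
      have h1 := two_terms χ (zz x) (zz y) (c x) (c y) hcx hsum
      have h2 := two_terms χ (zz y) (zz x) (c y) (c x) hcy (by rw [add_comm]; exact hsum)
      intro α hα β hβ
      rw [hx, Finset.mem_insert, Finset.mem_singleton] at hα hβ
      rcases hα with rfl | rfl <;> rcases hβ with rfl | rfl
      · exact hself _
      · exact ⟨_, h1⟩
      · exact ⟨_, h2⟩
      · exact hself _
  refine ⟨hlow, ?_⟩
  by_cases h2 : A.card ≤ 2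
  · refine ⟨0, 0, Or.inl rfl, Or.inl rfl, htriv, fun α hα β hβ => Or.inl (hlow h2 α hα β hβ)⟩
  · have h3 : A.card = 3 := by omega
    obtain ⟨x, y, z, hxy, hxz, hyz, hx⟩ := Finset.card_eq_three.1 h3
    have hxA : x ∈ A := by rw [hx]; simp
    have hyA : y ∈ A := by rw [hx]; simp
    have hzA : z ∈ A := by rw [hx]; simp
    have hcx : c x ≠ 0 := hc x hxA
    have hcz : c z ≠ 0 := hc z hzA
    refine ⟨zz y - zz x, zz z - zz x, Or.inr ⟨y, hyA, x, hxA, rfl⟩, Or.inr ⟨z, hzA, x, hxA, rfl⟩,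
      ⟨c y / c x, c z / c x, div_ne_zero hcz hcx, ?_⟩, ?_⟩
    · have e : A = insert x (insert y {z}) := hx
      rw [e, Finset.sum_insert (by simp [hxy, hxz]), Finset.sum_pair hyz] at hsum
      have h4 : (1 + (c y / c x) • (χ (ofAdd (zz y - zz x)) : C) +
          (c z / c x) • (χ (ofAdd (zz z - zz x)) : C)) * (χ (ofAdd (zz x)) : C) = 0 := by
        have h5 : c x • ((1 + (c y / c x) • (χ (ofAdd (zz y - zz x)) : C) +
          (c z / c x) • (χ (ofAdd (zz z - zz x)) : C)) * (χ (ofAdd (zz x)) : C)) = 0 := by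
          rw [add_mul, add_mul, one_mul, smul_mul_assoc, smul_mul_assoc, chi_sub, chi_sub,
            smul_add, smul_add, smul_smul, smul_smul, mul_div_cancel₀ _ hcx, mul_div_cancel₀ _ hcx,
            add_assoc]
          exact hsum
        rcases smul_eq_zero.1 h5 with h6 | h6
        · exact absurd h6 hcx
        · exact h6
      exact ((χ (ofAdd (zz x))).isUnit.mul_left_eq_zero).1 h4
    · have hp : zz y - zz x ∈ AddSubgroup.closure {zz y - zz x, zz z - zz x} :=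
        AddSubgroup.subset_closure (by simp)
      have hq : zz z - zz x ∈ AddSubgroup.closure {zz y - zz x, zz z - zz x} :=
        AddSubgroup.subset_closure (by simp)
      have hr : ∀ α ∈ A, zz α - zz x ∈ AddSubgroup.closure {zz y - zz x, zz z - zz x} := by
        intro α hα
        rw [hx, Finset.mem_insert, Finset.mem_insert, Finset.mem_singleton] at hα
        rcases hα with rfl | rfl | rfl
        · rw [sub_self]
          exact AddSubgroup.zero_mem _
        · exact hp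
        · exact hq
      intro α hα β hβ
      right
      have h4 := AddSubgroup.sub_mem _ (hr α hα) (hr β hβ)
      rwa [sub_sub_sub_cancel_right] at h4

end TORAux

open TORAux in
theorem t_TOR : M_TOR := by
  classical
  intro hTOZ k _ V _ ι f m hFew U Z hUZ C _ _ _ φ hφ
  obtain ⟨t, htm, ht3, ht2⟩ := hFew
  obtain ⟨N, hN⟩ : ∃ N : AddSubgroup (V → ℤ), N = AddSubgroup.closure
      ({x | ∃ j, ∃ α ∈ (f j).support, ∃ β ∈ (f j).support, (∀ v, v ∉ U → α v = 0) ∧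
        (∀ v, v ∉ U → β v = 0) ∧ x = zz α - zz β} ∪ {x | ∃ v, v ∉ U ∧ x = Pi.single v 1}) :=
    ⟨_, rfl⟩
  obtain ⟨r, deg, s, hs, hker, htor⟩ := Pool.Agent.GZT.exists_deg N
  have hdiffN : ∀ j, ∀ α ∈ (f j).support, ∀ β ∈ (f j).support, (∀ v, v ∉ U → α v = 0) →
      (∀ v, v ∉ U → β v = 0) → zz α - zz β ∈ N := by
    intro j α hα β hβ h1 h2
    rw [hN]
    exact AddSubgroup.subset_closure (Or.inl ⟨j, α, hα, β, hβ, h1, h2, rfl⟩)
  have hsingN : ∀ v, v ∉ U → (Pi.single v 1 : V → ℤ) ∈ N := by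
    intro v hv
    rw [hN]
    exact AddSubgroup.subset_closure (Or.inr ⟨v, hv, rfl⟩)
  obtain ⟨χ, hχU, hχ1, e, -⟩ := hTOZ k V ι f U Z hUZ C φ hφ r deg s hs
    (fun v hv => (AddMonoidHom.mem_ker).1 (hker (hsingN v hv)))
    (by
      intro j α hα β hβ h1 h2
      have h3 := (AddMonoidHom.mem_ker).1 (hker (hdiffN j α hα β hβ h1 h2))
      rw [map_sub, sub_eq_zero] at h3
      exact h3)
  refine ⟨r, Lam k χ deg, inferInstance, inferInstance, ⟨e⟩, ?_⟩
  have hmem : ∀ x : V → ℤ, x ∈ deg.ker → (χ (ofAdd x) : C) ∈ Lam k χ deg := fun x hx =>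
    Algebra.subset_adjoin ⟨x, (AddMonoidHom.mem_ker).1 hx, rfl⟩
  -- the character with values in the units of the subalgebra
  obtain ⟨X, hX⟩ : ∃ X : Multiplicative deg.ker →* (Lam k χ deg)ˣ,
      ∀ (x : V → ℤ) (hx : x ∈ deg.ker),
        (((X (ofAdd ⟨x, hx⟩) : Lam k χ deg)) : C) = (χ (ofAdd x) : C) := by
    refine ⟨MonoidHom.mk' (fun g => ⟨⟨(χ (ofAdd ((toAdd g : deg.ker) : V → ℤ)) : C),
      hmem _ (toAdd g).2⟩, ⟨(χ (ofAdd (-((toAdd g : deg.ker) : V → ℤ))) : C),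
      hmem _ (AddSubgroup.neg_mem _ (toAdd g).2)⟩, ?_, ?_⟩) ?_, fun x hx => rfl⟩
    · apply Subtype.ext
      change (χ (ofAdd ((toAdd g : deg.ker) : V → ℤ)) : C) *
        (χ (ofAdd (-((toAdd g : deg.ker) : V → ℤ))) : C) = 1
      rw [← Units.val_mul, ← map_mul, ← ofAdd_add, add_neg_cancel, ofAdd_zero, map_one,
        Units.val_one]
    · apply Subtype.ext
      change (χ (ofAdd (-((toAdd g : deg.ker) : V → ℤ))) : C) *
        (χ (ofAdd ((toAdd g : deg.ker) : V → ℤ)) : C) = 1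
      rw [← Units.val_mul, ← map_mul, ← ofAdd_add, neg_add_cancel, ofAdd_zero, map_one,
        Units.val_one]
    · intro a b
      apply Units.ext
      apply Subtype.ext
      change (χ (ofAdd (((toAdd (a * b) : deg.ker)) : V → ℤ)) : C) =
        (χ (ofAdd ((toAdd a : deg.ker) : V → ℤ)) : C) *
          (χ (ofAdd ((toAdd b : deg.ker) : V → ℤ)) : C)
      rw [← Units.val_mul, ← map_mul, ← ofAdd_add, toAdd_mul, AddSubgroup.coe_add]
  -- the exponents of the equation `j`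
  obtain ⟨A, hA⟩ : ∃ A : ι → Finset (V →₀ ℕ), ∀ j α, α ∈ A j ↔
      α ∈ (f j).support ∧ ∀ v, v ∉ U → α v = 0 :=
    ⟨fun j => (f j).support.filter (fun α => ∀ v, v ∉ U → α v = 0), fun j α => Finset.mem_filter⟩
  have hAc : ∀ j, (A j).card ≤ (f j).support.card := fun j =>
    Finset.card_le_card fun α hα => ((hA j α).1 hα).1
  have hZ0 : ∀ v, v ∉ U → φ v = 0 := fun v hv =>
    hφ.zero v ((hUZ v).resolve_left hv)
  have hrel : ∀ j, ∑ α ∈ A j, (f j).coeff α • (χ (ofAdd (zz α)) : C) = 0 := fun j =>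
    sum_zero χ hχU hZ0 (f j) (hφ.sat j) (A j) (hA j)
  have hcoef : ∀ j, ∀ α ∈ A j, (f j).coeff α ≠ 0 := fun j α hα =>
    MvPolynomial.mem_support_iff.1 ((hA j α).1 hα).1
  have hAker : ∀ j, ∀ α ∈ A j, ∀ β ∈ A j, zz α - zz β ∈ deg.ker := fun j α hα β hβ =>
    hker (hdiffN j α ((hA j α).1 hα).1 β ((hA j β).1 hβ).1 ((hA j α).1 hα).2 ((hA j β).1 hβ).2)
  have hnum : ∀ i : Fin m, ∃ p q : V → ℤ, p ∈ deg.ker ∧ q ∈ deg.ker ∧
      (∃ d d' : k, d' ≠ 0 ∧ 1 + d • (χ (ofAdd p) : C) + d' • (χ (ofAdd q) : C) = 0) ∧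
      ∀ h : (i : ℕ) < t.card, ∀ α ∈ A (t.equivFin.symm ⟨i, h⟩), ∀ β ∈ A (t.equivFin.symm ⟨i, h⟩),
        (∃ d : k, (χ (ofAdd (zz α - zz β)) : C) = algebraMap k C d) ∨
        zz α - zz β ∈ AddSubgroup.closure {p, q} := by
    intro i
    by_cases h : (i : ℕ) < t.card
    · obtain ⟨j, hj⟩ : ∃ j : ι, j = (t.equivFin.symm ⟨i, h⟩ : ι) := ⟨_, rfl⟩
      have hjt : j ∈ t := by rw [hj]; exact (t.equivFin.symm ⟨i, h⟩).2
      obtain ⟨-, p, q, hp, hq, hpq, hall⟩ := pj χ (A j) (fun α => (f j).coeff α) (hcoef j) (hrel j)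
        ((hAc j).trans (ht3 j hjt))
      refine ⟨p, q, ?_, ?_, hpq, ?_⟩
      · rcases hp with rfl | ⟨α, hα, β, hβ, rfl⟩
        · exact AddSubgroup.zero_mem _
        · exact hAker j α hα β hβ
      · rcases hq with rfl | ⟨α, hα, β, hβ, rfl⟩
        · exact AddSubgroup.zero_mem _
        · exact hAker j α hα β hβ
      · intro h'
        rw [← hj]
        exact hall
    · obtain ⟨-, p, q, hp, hq, hpq, -⟩ := pj χ ∅ (fun _ => (1 : k)) (by simp) (by simp) (by simp)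
      have hp0 : p = 0 := by
        rcases hp with hp | ⟨α, hα, _⟩
        · exact hp
        · exact absurd hα (Finset.notMem_empty _)
      have hq0 : q = 0 := by
        rcases hq with hq | ⟨α, hα, _⟩
        · exact hq
        · exact absurd hα (Finset.notMem_empty _)
      refine ⟨p, q, ?_, ?_, hpq, fun h' => absurd h' h⟩
      · rw [hp0]; exact AddSubgroup.zero_mem _
      · rw [hq0]; exact AddSubgroup.zero_mem _
  choose p q hp hq hpq hall using hnum
  obtain ⟨D, hD⟩ : ∃ D : Set (Multiplicative deg.ker), ∀ g, g ∈ D ↔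
      ((∃ c : k, (X g : Lam k χ deg) = algebraMap k (Lam k χ deg) c) ∨
        ∃ i : Fin m, g = ofAdd ⟨p i, hp i⟩ ∨ g = ofAdd ⟨q i, hq i⟩) := ⟨{g | _}, fun g => Iff.rfl⟩
  -- the subgroup of the exponents which are good
  obtain ⟨H, hH⟩ : ∃ H : AddSubgroup (V → ℤ), ∀ x, x ∈ H ↔
      ∃ h : x ∈ deg.ker, (ofAdd (⟨x, h⟩ : deg.ker)) ∈ Subgroup.closure D := by
    refine ⟨{ carrier := {x | ∃ h : x ∈ deg.ker, (ofAdd (⟨x, h⟩ : deg.ker)) ∈ Subgroup.closure D}
              zero_mem' := ⟨AddSubgroup.zero_mem _, Subgroup.one_mem _⟩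
              add_mem' := ?_
              neg_mem' := ?_ }, fun x => Iff.rfl⟩
    · rintro a b ⟨ha, ha'⟩ ⟨hb, hb'⟩
      exact ⟨AddSubgroup.add_mem _ ha hb, Subgroup.mul_mem _ ha' hb'⟩
    · rintro a ⟨ha, ha'⟩
      exact ⟨AddSubgroup.neg_mem _ ha, Subgroup.inv_mem _ ha'⟩
  have hconst : ∀ x, x ∈ deg.ker → (∃ d : k, (χ (ofAdd x) : C) = algebraMap k C d) → x ∈ H := by
    rintro x hx ⟨d, hd⟩
    rw [hH]
    refine ⟨hx, Subgroup.subset_closure ((hD _).2 (Or.inl ⟨d, ?_⟩))⟩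
    apply Subtype.ext
    rw [hX x hx, hd]
    rfl
  have hNH : N ≤ H := by
    rw [hN, AddSubgroup.closure_le]
    rintro x (⟨j, α, hα, β, hβ, h1, h2, rfl⟩ | ⟨v, hv, rfl⟩)
    · have hαA : α ∈ A j := (hA j α).2 ⟨hα, h1⟩
      have hβA : β ∈ A j := (hA j β).2 ⟨hβ, h2⟩
      by_cases hj : j ∈ t
      · obtain ⟨a, ha⟩ : ∃ a : Fin t.card, a = t.equivFin ⟨j, hj⟩ := ⟨_, rfl⟩
        obtain ⟨i, hi⟩ : ∃ i : Fin m, i = Fin.castLE htm a := ⟨_, rfl⟩
        have hit : (i : ℕ) < t.card := by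
          rw [hi]
          exact a.2
        have hij : (t.equivFin.symm ⟨i, hit⟩ : ι) = j := by
          have h3 : (⟨i, hit⟩ : Fin t.card) = a := by
            apply Fin.ext
            change (i : ℕ) = (a : ℕ)
            rw [hi]
            rfl
          rw [h3, ha, Equiv.symm_apply_apply]
        have h4 := hall i hit
        rw [hij] at h4
        rcases h4 α hαA β hβA with h5 | h5
        · exact hconst _ (hAker j α hαA β hβA) h5
        · have h6 : AddSubgroup.closure {p i, q i} ≤ H := by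
            rw [AddSubgroup.closure_le]
            rintro x (rfl | rfl)
            · exact (hH _).2 ⟨hp i, Subgroup.subset_closure
                ((hD _).2 (Or.inr ⟨i, Or.inl rfl⟩))⟩
            · exact (hH _).2 ⟨hq i, Subgroup.subset_closure
                ((hD _).2 (Or.inr ⟨i, Or.inr rfl⟩))⟩
          exact h6 h5
      · have h2' := (pj χ (A j) (fun α => (f j).coeff α) (hcoef j) (hrel j)
          (((hAc j).trans (ht2 j hj)).trans (by norm_num))).1 ((hAc j).trans (ht2 j hj))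
        exact hconst _ (hAker j α hαA β hβA) (h2' α hαA β hβA)
    · refine hconst _ (hker (hsingN v hv)) ⟨1, ?_⟩
      rw [hχ1 v hv, Units.val_one, map_one]
  haveI hfin : Module.Finite ℤ deg.ker :=
    Module.Finite.of_injective (deg.ker.subtype.toIntLinearMap) Subtype.val_injective
  haveI hfg : AddGroup.FG deg.ker := Module.Finite.iff_addGroup_fg.1 hfin
  refine ⟨Multiplicative deg.ker, inferInstance, inferInstance, X,
    fun i => ofAdd ⟨p i, hp i⟩, fun i => ofAdd ⟨q i, hq i⟩, D, ?_, ?_, ?_, ?_⟩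
  · have h1 : (Set.range fun g => ((X g : (Lam k χ deg)ˣ) : Lam k χ deg)) =
        ((↑) : Lam k χ deg → C) ⁻¹' {c | ∃ α, deg α = 0 ∧ c = (χ (ofAdd α) : C)} := by
      ext y
      constructor
      · rintro ⟨g, rfl⟩
        exact ⟨((toAdd g : deg.ker) : V → ℤ), (AddMonoidHom.mem_ker).1 (toAdd g).2,
          hX _ (toAdd g).2⟩
      · rintro ⟨α, hα, hy⟩
        have hα' : α ∈ deg.ker := (AddMonoidHom.mem_ker).2 hα
        refine ⟨ofAdd ⟨α, hα'⟩, ?_⟩
        apply Subtype.ext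
        rw [hy]
        exact hX α hα'
    rw [h1]
    exact Algebra.adjoin_adjoin_coe_preimage
  · intro i
    obtain ⟨d, d', hd', h⟩ := hpq i
    refine ⟨d, d', hd', ?_⟩
    apply Subtype.ext
    change (1 : C) + d • ((X (ofAdd ⟨p i, hp i⟩) : Lam k χ deg) : C) +
      d' • ((X (ofAdd ⟨q i, hq i⟩) : Lam k χ deg) : C) = 0
    rw [hX, hX]
    exact h
  · intro g hg
    exact (hD g).1 hg
  · intro g
    obtain ⟨n, hn, hmemN⟩ := htor _ (toAdd g).2
    refine ⟨n, hn, ?_⟩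
    obtain ⟨h1, h2⟩ := (hH _).1 (hNH hmemN)
    have h3 : g ^ n = ofAdd (⟨n • ((toAdd g : deg.ker) : V → ℤ), h1⟩ : deg.ker) := rfl
    rw [h3]
    exact h2

end Pool.Agent.FMO
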