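import Pool.Agent.FMO.St

/-!
# Systems in which all variables are units or zero: the universal algebra is a torus
-/

set_option autoImplicit false

namespace Pool.Agent.FMO

open MvPolynomial

namespace TOZAux

open Multiplicative

section mon
variable {ι : Type} [Fintype ι]

/-- monomials with integral exponents -/
def mon {G : Type*} [CommGroup G] (x : ι → G) : Multiplicative (ι → ℤ) →* G where
  toFun α := ∏ i, x i ^ (toAdd α i)
  map_one' := by simp
  map_mul' a b := by
    rw [← Finset.prod_mul_distrib]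
    refine Finset.prod_congr rfl fun i _ => ?_
    rw [toAdd_mul, Pi.add_apply, zpow_add]

variable [DecidableEq ι]

/-- the basis vectors -/
def ev (i : ι) : Multiplicative (ι → ℤ) := ofAdd (Pi.single i 1)

lemma mon_ev {G : Type*} [CommGroup G] (x : ι → G) (i : ι) : mon x (ev i) = x i := by
  show ∏ j, x j ^ ((Pi.single i (1 : ℤ) : ι → ℤ) j) = x i
  rw [Finset.prod_eq_single i]
  · simp
  · intro j _ hj
    simp [Pi.single_eq_of_ne hj]
  · simp

lemma decomp (α : Multiplicative (ι → ℤ)) : α = ∏ i, ev i ^ (toAdd α i) := by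
  apply toAdd.injective
  rw [toAdd_prod]
  funext j
  rw [Finset.sum_apply, Finset.sum_eq_single j]
  · simp [ev]
  · intro i _ hi
    simp [ev, Pi.single_eq_of_ne (Ne.symm hi)]
  · simp

lemma decomp_nat (p : ι → ℕ) : ofAdd (fun i => (p i : ℤ)) = ∏ i, ev i ^ (p i) := by
  rw [decomp (ofAdd (fun i => (p i : ℤ)))]
  refine Finset.prod_congr rfl fun i _ => ?_
  rw [toAdd_ofAdd, zpow_natCast]

lemma hom_ext {M : Type*} [CommMonoid M] {f g : Multiplicative (ι → ℤ) →* M}
    (h : ∀ i, f (ev i) = g (ev i)) : f = g := by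
  have h1 : ∀ α, f.toHomUnits α = g.toHomUnits α := by
    intro α
    rw [decomp α, map_prod, map_prod]
    refine Finset.prod_congr rfl fun i _ => ?_
    rw [map_zpow, map_zpow]
    congr 1
    exact Units.ext (h i)
  exact MonoidHom.ext fun α => congrArg Units.val (h1 α)

lemma map_nat {M : Type*} [CommMonoid M] (f : Multiplicative (ι → ℤ) →* M) (p : ι → ℕ) :
    f (ofAdd (fun i => (p i : ℤ))) = ∏ i, f (ev i) ^ (p i) := by
  rw [decomp_nat, map_prod]
  refine Finset.prod_congr rfl fun i _ => ?_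
  rw [map_pow]

end mon

section fin
variable {V : Type} {m : ℕ} {C : Type} [CommRing C]

lemma mem_Lam (k : Type) [Field k] [Algebra k C] (χ : Multiplicative (V → ℤ) →* Cˣ)
    (deg : (V → ℤ) →+ (Fin m → ℤ)) {α : Multiplicative (V → ℤ)} (hα : deg (toAdd α) = 0) :
    (χ α : C) ∈ Lam k χ deg :=
  Algebra.subset_adjoin ⟨toAdd α, hα, rfl⟩

/-- the part of degree `0` -/
noncomputable def yL (k : Type) [Field k] [Algebra k C] (χ : Multiplicative (V → ℤ) →* Cˣ)
    (deg : (V → ℤ) →+ (Fin m → ℤ)) (s : (Fin m → ℤ) →+ (V → ℤ)) (hds : ∀ a, deg (s a) = a) :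
    Multiplicative (V → ℤ) →* Lam k χ deg where
  toFun α := ⟨(χ (ofAdd (toAdd α - s (deg (toAdd α)))) : C), mem_Lam k χ deg (by
    rw [toAdd_ofAdd, map_sub, hds, sub_self])⟩
  map_one' := by
    apply Subtype.ext
    simp
  map_mul' a b := by
    apply Subtype.ext
    show (χ (ofAdd (toAdd (a * b) - s (deg (toAdd (a * b))))) : C) =
      (χ (ofAdd (toAdd a - s (deg (toAdd a)))) : C) * (χ (ofAdd (toAdd b - s (deg (toAdd b)))) : C)
    rw [← Units.val_mul, ← map_mul, ← ofAdd_add, toAdd_mul, map_add, map_add]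
    congr 3
    abel

end fin

section loc
variable {m : ℕ} (Λ : Type) [CommRing Λ]

lemma isUnit_X (i : Fin m) : IsUnit (algebraMap (MvPolynomial (Fin m) Λ) (Laur m Λ) (X i)) := by
  have h1 : IsUnit (algebraMap (MvPolynomial (Fin m) Λ) (Laur m Λ) (∏ i, X i)) :=
    IsLocalization.Away.algebraMap_isUnit _
  exact isUnit_of_dvd_unit (map_dvd _ (Finset.dvd_prod_of_mem _ (Finset.mem_univ i))) h1

/-- the monomials -/
noncomputable def TM (m : ℕ) : Multiplicative (Fin m → ℤ) →* (Laur m Λ)ˣ :=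
  mon fun i => (isUnit_X Λ i).unit

lemma TM_ev (i : Fin m) :
    ((TM Λ m (ev i) : (Laur m Λ)ˣ) : Laur m Λ) =
      algebraMap (MvPolynomial (Fin m) Λ) (Laur m Λ) (X i) := by
  rw [TM, mon_ev]
  rfl

end loc

section psi
variable {V : Type} {m : ℕ} {C : Type} [CommRing C] (k : Type) [Field k]
  [Algebra k C] (χ : Multiplicative (V → ℤ) →* Cˣ) (deg : (V → ℤ) →+ (Fin m → ℤ))
  (s : (Fin m → ℤ) →+ (V → ℤ)) (hds : ∀ a, deg (s a) = a)

/-- constants -/
noncomputable def cst (Λ : Type) [CommRing Λ] (m : ℕ) : Λ →+* Laur m Λ :=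
  (algebraMap (MvPolynomial (Fin m) Λ) (Laur m Λ)).comp MvPolynomial.C

lemma cst_apply (Λ : Type) [CommRing Λ] (m : ℕ) (c : Λ) : cst Λ m c =
    algebraMap (MvPolynomial (Fin m) Λ) (Laur m Λ) (MvPolynomial.C c) := rfl

/-- the universal character -/
noncomputable def Psi : Multiplicative (V → ℤ) →* Laur m (Lam k χ deg) :=
  ((cst (Lam k χ deg) m : Lam k χ deg →* Laur m (Lam k χ deg)).comp (yL k χ deg s hds)) *
    ((Units.coeHom _).comp ((TM (Lam k χ deg) m).comp (AddMonoidHom.toMultiplicative deg)))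

lemma Psi_apply (α : Multiplicative (V → ℤ)) : Psi k χ deg s hds α =
    cst (Lam k χ deg) m (yL k χ deg s hds α) *
      ((TM (Lam k χ deg) m (ofAdd (deg (toAdd α))) : (Laur m (Lam k χ deg))ˣ) :
        Laur m (Lam k χ deg)) := rfl

lemma yL_coe (α : Multiplicative (V → ℤ)) : ((yL k χ deg s hds α : Lam k χ deg) : C) =
    (χ (ofAdd (toAdd α - s (deg (toAdd α)))) : C) := rfl

lemma Psi_zero {α : Multiplicative (V → ℤ)} (hα : deg (toAdd α) = 0) :
    Psi k χ deg s hds α = cst (Lam k χ deg) m ⟨χ α, mem_Lam k χ deg hα⟩ := by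
  rw [Psi_apply, hα, ofAdd_zero, map_one, Units.val_one, mul_one]
  congr 1
  apply Subtype.ext
  rw [yL_coe, hα, map_zero, sub_zero, ofAdd_toAdd]

lemma Psi_s (i : Fin m) : Psi k χ deg s hds (ofAdd (s (Pi.single i 1))) =
    algebraMap (MvPolynomial (Fin m) (Lam k χ deg)) (Laur m (Lam k χ deg)) (X i) := by
  rw [Psi_apply]
  have h1 : yL k χ deg s hds (ofAdd (s (Pi.single i 1))) = 1 := by
    apply Subtype.ext
    rw [yL_coe, toAdd_ofAdd, hds, sub_self, ofAdd_zero, map_one]
    rfl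
  rw [h1, map_one, one_mul, toAdd_ofAdd, hds]
  exact TM_ev (Lam k χ deg) i

lemma alg_cst (c : k) : algebraMap k (Laur m (Lam k χ deg)) c =
    cst (Lam k χ deg) m (algebraMap k (Lam k χ deg) c) := by
  rw [IsScalarTower.algebraMap_apply k (MvPolynomial (Fin m) (Lam k χ deg))
    (Laur m (Lam k χ deg))]
  rfl

end psi

end TOZAux

open TOZAux Multiplicative in
theorem t_TOZ : S_TOZ := by
  intro k _ V _ _ ι f U Z hUZ C _ _ _ φ h m deg s hds hd0 hd
  classical
  have hZ : ∀ v, v ∉ U → φ v = 0 := fun v hv => h.zero v ((hUZ v).resolve_left hv)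
  have hZU : ∀ v ∈ Z, v ∉ U := by
    intro v hv hU
    have h1 := h.unit v hU
    rw [h.zero v hv] at h1
    exact not_isUnit_zero h1
  obtain ⟨x, hx, hx1⟩ : ∃ x : V → Cˣ, (∀ v ∈ U, (x v : C) = φ v) ∧ ∀ v, v ∉ U → x v = 1 :=
    ⟨fun v => if hv : v ∈ U then (h.unit v hv).unit else 1,
      fun v hv => by simp [hv], fun v hv => by simp [hv]⟩
  obtain ⟨χ, hχ⟩ : ∃ χ : Multiplicative (V → ℤ) →* Cˣ, ∀ v, χ (ev v) = x v := ⟨mon x, mon_ev x⟩
  have hmon : ∀ p : V → ℕ, (∀ v, v ∉ U → p v = 0) →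
      ∏ v, φ v ^ p v = (χ (ofAdd fun v => (p v : ℤ)) : C) := by
    intro p hp
    rw [map_nat χ p, Units.coe_prod]
    refine Finset.prod_congr rfl fun v _ => ?_
    rw [Units.val_pow_eq_pow_val, hχ]
    by_cases hv : v ∈ U
    · rw [hx v hv]
    · rw [hp v hv, pow_zero, pow_zero]
  have hbad : ∀ (B : Type) [CommRing B] (w : V → B) (_ : ∀ v, v ∉ U → w v = 0) (p : V → ℕ),
      (∃ v, v ∉ U ∧ p v ≠ 0) → ∏ v, w v ^ p v = 0 := by
    rintro B _ w hw p ⟨v, hv, hpv⟩
    exact Finset.prod_eq_zero (Finset.mem_univ v) (by rw [hw v hv, zero_pow hpv])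
  obtain ⟨ψ, hψ⟩ : ∃ ψ : V → Laur m (Lam k χ deg),
    ψ = fun v => if v ∈ U then Psi k χ deg s hds (ev v) else 0 := ⟨_, rfl⟩
  have hψ0 : ∀ v, v ∉ U → ψ v = 0 := fun v hv => by rw [hψ]; simp [hv]
  have hψ1 : ∀ v, v ∈ U → ψ v = Psi k χ deg s hds (ev v) := fun v hv => by rw [hψ]; simp [hv]
  have hψmon : ∀ p : V → ℕ, (∀ v, v ∉ U → p v = 0) →
      ∏ v, ψ v ^ p v = Psi k χ deg s hds (ofAdd fun v => (p v : ℤ)) := by
    intro p hp
    rw [map_nat (Psi k χ deg s hds) p]
    refine Finset.prod_congr rfl fun v _ => ?_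
    by_cases hv : v ∈ U
    · rw [hψ1 v hv]
    · rw [hp v hv, pow_zero, pow_zero]
  have hΨ1 : ∀ v, v ∉ U → Psi k χ deg s hds (ev v) = 1 := by
    intro v hv
    have h1 : χ (ev v) = 1 := by rw [hχ, hx1 v hv]
    have h2 : deg (toAdd (ev v)) = 0 := hd0 v hv
    rw [Psi_zero k χ deg s hds h2]
    have h3 : (⟨χ (ev v), mem_Lam k χ deg h2⟩ : Lam k χ deg) = 1 := by
      apply Subtype.ext
      show ((χ (ev v) : Cˣ) : C) = 1
      rw [h1, Units.val_one]
    rw [h3, map_one]
  -- the equations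
  have hgen : ∀ (B : Type) [CommRing B] [Algebra k B] (w : V → B) (_ : ∀ v, v ∉ U → w v = 0)
      (j : ι), aeval w (f j) = ∑ α ∈ (f j).support.filter (fun α => ∀ v, v ∉ U → α v = 0),
        algebraMap k B ((f j).coeff α) * ∏ v, w v ^ α v := by
    intro B _ _ w hw j
    rw [aeval_def, eval₂_eq', Finset.sum_filter]
    refine Finset.sum_congr rfl fun α _ => ?_
    by_cases hα : ∀ v, v ∉ U → α v = 0
    · rw [if_pos hα]
    · rw [if_neg hα]
      push Not at hα
      rw [hbad B w hw (fun v => α v) hα, mul_zero]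
  have hsat : ∀ j, aeval ψ (f j) = 0 := by
    intro j
    have e := h.sat j
    rw [hgen C φ hZ j] at e
    rw [hgen _ ψ hψ0 j]
    rcases ((f j).support.filter (fun α => ∀ v, v ∉ U → α v = 0)).eq_empty_or_nonempty with
      h0 | ⟨β, hβ⟩
    · rw [h0, Finset.sum_empty]
    · obtain ⟨d, hdd⟩ : ∃ d, d = deg (fun v => (β v : ℤ)) := ⟨_, rfl⟩
      have hdeg : ∀ α ∈ (f j).support.filter (fun α => ∀ v, v ∉ U → α v = 0),
          deg (fun v => (α v : ℤ)) = d := by
        intro α hα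
        rw [Finset.mem_filter] at hα hβ
        rw [hdd]
        exact hd j α hα.1 β hβ.1 hα.2 hβ.2
      have h1 : ∀ α ∈ (f j).support.filter (fun α => ∀ v, v ∉ U → α v = 0),
          algebraMap k (Laur m (Lam k χ deg)) ((f j).coeff α) * ∏ v, ψ v ^ α v =
          cst (Lam k χ deg) m (algebraMap k (Lam k χ deg) ((f j).coeff α) *
            yL k χ deg s hds (ofAdd fun v => (α v : ℤ))) *
          ((TM (Lam k χ deg) m (ofAdd d) : (Laur m (Lam k χ deg))ˣ) : Laur m (Lam k χ deg)) := by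
        intro α hα
        rw [hψmon (fun v => α v) (Finset.mem_filter.1 hα).2, Psi_apply, toAdd_ofAdd,
          hdeg α hα, alg_cst, map_mul, mul_assoc]
      rw [Finset.sum_congr rfl h1, ← Finset.sum_mul, ← map_sum]
      have h2 : ∑ α ∈ (f j).support.filter (fun α => ∀ v, v ∉ U → α v = 0),
          algebraMap k (Lam k χ deg) ((f j).coeff α) *
            yL k χ deg s hds (ofAdd fun v => (α v : ℤ)) = 0 := by
        apply Subtype.ext
        rw [AddSubmonoidClass.coe_finsetSum]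
        have h3 : ∀ α ∈ (f j).support.filter (fun α => ∀ v, v ∉ U → α v = 0),
            ((algebraMap k (Lam k χ deg) ((f j).coeff α) *
              yL k χ deg s hds (ofAdd fun v => (α v : ℤ)) : Lam k χ deg) : C) =
            (algebraMap k C ((f j).coeff α) * ∏ v, φ v ^ α v) *
              (χ (ofAdd (-s d)) : C) := by
          intro α hα
          rw [hmon (fun v => α v) (Finset.mem_filter.1 hα).2, mul_assoc, ← Units.val_mul,
            ← map_mul, ← ofAdd_add]
          show algebraMap k C ((f j).coeff α) * ((yL k χ deg s hds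
            (ofAdd fun v => (α v : ℤ)) : Lam k χ deg) : C) = _
          rw [yL_coe, toAdd_ofAdd, hdeg α hα, sub_eq_add_neg]
        rw [Finset.sum_congr rfl h3, ← Finset.sum_mul, e, zero_mul]
        rfl
      rw [h2, map_zero, zero_mul]
  obtain ⟨g, hg⟩ := h.lift (Laur m (Lam k χ deg)) ψ hsat
    (fun v hv => by
      rw [hψ1 v hv]
      exact ((Psi k χ deg s hds).toHomUnits (ev v)).isUnit)
    (fun v hv => hψ0 v (hZU v hv))
  have hgχ : ∀ α, g (χ α : C) = Psi k χ deg s hds α := by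
    have h1 : (g : C →* Laur m (Lam k χ deg)).comp ((Units.coeHom C).comp χ) =
        Psi k χ deg s hds := by
      apply hom_ext
      intro v
      show g ((χ (ev v) : Cˣ) : C) = _
      rw [hχ]
      by_cases hv : v ∈ U
      · rw [hx v hv, hg, hψ1 v hv]
      · rw [hx1 v hv, Units.val_one, map_one, hΨ1 v hv]
    intro α
    exact DFunLike.congr_fun h1 α
  -- the inverse
  obtain ⟨q, hq⟩ : ∃ q : MvPolynomial (Fin m) (Lam k χ deg) →+* C,
    q = MvPolynomial.eval₂Hom ((Lam k χ deg).val : Lam k χ deg →+* C)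
      (fun i => (χ (ofAdd (s (Pi.single i 1))) : C)) := ⟨_, rfl⟩
  have hqX : ∀ i, q (X i) = (χ (ofAdd (s (Pi.single i 1))) : C) := fun i => by
    rw [hq, MvPolynomial.eval₂Hom_X']
  have hqC : ∀ c : Lam k χ deg, q (MvPolynomial.C c) = (c : C) := fun c => by
    rw [hq, MvPolynomial.eval₂Hom_C]
    rfl
  have hqu : IsUnit (q (∏ i, X i)) := by
    rw [map_prod]
    have h1 : ∏ i, q (X i) = ((∏ i, χ (ofAdd (s (Pi.single i 1))) : Cˣ) : C) := by
      rw [Units.coe_prod]
      exact Finset.prod_congr rfl fun i _ => hqX i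
    rw [h1]
    exact Units.isUnit _
  obtain ⟨r, hr⟩ : ∃ r : Laur m (Lam k χ deg) →+* C,
      ∀ a, r (algebraMap (MvPolynomial (Fin m) (Lam k χ deg)) (Laur m (Lam k χ deg)) a) = q a :=
    ⟨IsLocalization.Away.lift (∏ i, X i : MvPolynomial (Fin m) (Lam k χ deg)) hqu,
      fun a => IsLocalization.Away.lift_eq _ hqu a⟩
  have hrc : ∀ c : Lam k χ deg, r (cst (Lam k χ deg) m c) = (c : C) := fun c => by
    rw [cst_apply, hr, hqC]
  have hrT : ∀ a : Multiplicative (Fin m → ℤ),
      r ((TM (Lam k χ deg) m a : (Laur m (Lam k χ deg))ˣ) : Laur m (Lam k χ deg)) =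
        (χ (ofAdd (s (toAdd a))) : C) := by
    have h1 : (r : Laur m (Lam k χ deg) →* C).comp
        ((Units.coeHom _).comp (TM (Lam k χ deg) m)) =
        (Units.coeHom C).comp (χ.comp (AddMonoidHom.toMultiplicative s)) := by
      apply hom_ext
      intro i
      show r ((TM (Lam k χ deg) m (ev i) : (Laur m (Lam k χ deg))ˣ) : Laur m (Lam k χ deg)) =
        (χ (ofAdd (s (Pi.single i 1))) : C)
      rw [TM_ev, hr, hqX]
    intro a
    exact DFunLike.congr_fun h1 a
  have hrΨ : ∀ α, r (Psi k χ deg s hds α) = (χ α : C) := by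
    intro α
    rw [Psi_apply, map_mul, hrc, hrT, yL_coe, toAdd_ofAdd, ← Units.val_mul, ← map_mul,
      ← ofAdd_add, sub_add_cancel, ofAdd_toAdd]
  have hk : ∀ c : k, r (algebraMap k (Laur m (Lam k χ deg)) c) = algebraMap k C c := by
    intro c
    rw [alg_cst, hrc]
    rfl
  -- the two compositions
  have c1 : r.comp (g : C →+* Laur m (Lam k χ deg)) = RingHom.id C := by
    let G : C →ₐ[k] C := AlgHom.mk (r.comp (g : C →+* Laur m (Lam k χ deg))) (by
      intro c
      show r (g (algebraMap k C c)) = _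
      rw [AlgHom.commutes, hk])
    have h1 : G = AlgHom.id k C := by
      refine h.ext C G (AlgHom.id k C) fun v => ?_
      show r (g (φ v)) = φ v
      rw [hg]
      by_cases hv : v ∈ U
      · rw [hψ1 v hv, hrΨ, hχ, hx v hv]
      · rw [hψ0 v hv, map_zero, hZ v hv]
    ext c
    exact DFunLike.congr_fun h1 c
  have hgL : ∀ c : Lam k χ deg, g (c : C) = cst (Lam k χ deg) m c := by
    rintro ⟨c, hc⟩
    refine Algebra.adjoin_induction
      (p := fun c hc => g c = cst (Lam k χ deg) m ⟨c, hc⟩) ?_ ?_ ?_ ?_ hc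
    · rintro _ ⟨α, hα, rfl⟩
      exact (hgχ (ofAdd α)).trans (Psi_zero k χ deg s hds (α := ofAdd α) hα)
    · intro c
      rw [AlgHom.commutes, alg_cst]
      rfl
    · intro a b ha hb e1 e2
      rw [map_add, e1, e2, ← map_add]
      rfl
    · intro a b ha hb e1 e2
      rw [map_mul, e1, e2, ← map_mul]
      rfl
  have c2 : (g : C →+* Laur m (Lam k χ deg)).comp r = RingHom.id _ := by
    refine IsLocalization.ringHom_ext
      (Submonoid.powers (∏ i, X i : MvPolynomial (Fin m) (Lam k χ deg))) ?_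
    refine MvPolynomial.ringHom_ext ?_ ?_
    · intro c
      show g (r (algebraMap _ _ (MvPolynomial.C c))) = algebraMap _ _ (MvPolynomial.C c)
      rw [hr, hqC, hgL]
      rfl
    · intro i
      show g (r (algebraMap _ _ (X i))) = algebraMap _ _ (X i)
      rw [hr, hqX, hgχ, Psi_s]
  refine ⟨χ, fun v hv => ?_, fun v hv => ?_, AlgEquiv.ofRingEquiv
    (f := RingEquiv.ofRingHom (g : C →+* Laur m (Lam k χ deg)) r c2 c1) (fun c => ?_), fun c => ?_⟩
  · have h1 := hχ v
    rw [ev] at h1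
    rw [h1, hx v hv]
  · have h1 := hχ v
    rw [ev] at h1
    rw [h1, hx1 v hv]
  · exact g.commutes c
  · exact hgL c

end Pool.Agent.FMO
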