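import Pool.Agent.FMO.St

/-!
# Few monomials, module UNI: the algebra of the system is universal
-/

set_option autoImplicit false

namespace Pool.Agent.FMO

namespace UNIAux

lemma aeval_mk {k : Type} [Field k] {V : Type} (I : Ideal (MvPolynomial V k))
    (p : MvPolynomial V k) :
    MvPolynomial.aeval (fun v => Ideal.Quotient.mk I (MvPolynomial.X v)) p =
      Ideal.Quotient.mk I p := by
  have h : MvPolynomial.aeval (R := k) (fun v => Ideal.Quotient.mk I (MvPolynomial.X v)) =
      Ideal.Quotient.mkₐ k I := by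
    refine MvPolynomial.algHom_ext fun v => ?_
    rw [MvPolynomial.aeval_X]
    rfl
  rw [h]
  rfl

end UNIAux

theorem t_UNI : S_UNI := by
  intro k _ V ι f
  refine ⟨fun j => ?_, fun v hv => absurd hv (Set.notMem_empty v),
    fun v hv => absurd hv (Set.notMem_empty v), fun D _ _ ψ h _ _ => ?_, fun D _ _ g h hgh => ?_⟩
  · rw [UNIAux.aeval_mk, Ideal.Quotient.eq_zero_iff_mem]
    exact Ideal.subset_span ⟨j, rfl⟩
  · have h1 : ∀ a ∈ Ideal.span (Set.range f), MvPolynomial.aeval ψ a = 0 := by
      intro a ha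
      have h2 : Ideal.span (Set.range f) ≤ RingHom.ker (MvPolynomial.aeval (R := k) ψ) := by
        rw [Ideal.span_le]
        rintro _ ⟨j, rfl⟩
        exact h j
      exact h2 ha
    refine ⟨Ideal.Quotient.liftₐ _ (MvPolynomial.aeval ψ) h1, fun v => ?_⟩
    show MvPolynomial.aeval ψ (MvPolynomial.X v) = ψ v
    rw [MvPolynomial.aeval_X]
  · refine Ideal.Quotient.algHom_ext k ?_
    refine MvPolynomial.algHom_ext fun v => ?_
    exact hgh v

end Pool.Agent.FMO
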