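import Pool.Agent.FMO.CIN
import Pool.Agent.FMO.CTR
import Pool.Agent.FMO.DGW
import Pool.Agent.FMO.ELM
import Pool.Agent.FMO.FEW
import Pool.Agent.FMO.FLD
import Pool.Agent.FMO.FLF
import Pool.Agent.FMO.GEN
import Pool.Agent.FMO.GRK
import Pool.Agent.FMO.GRW
import Pool.Agent.FMO.LAU
import Pool.Agent.FMO.MNO
import Pool.Agent.FMO.STR
import Pool.Agent.FMO.TOR
import Pool.Agent.FMO.TOZ
import Pool.Agent.FMO.UNI

/-!
# Few monomials (project FMO): the generic theorems, assembled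
-/

set_option autoImplicit false

namespace Pool.Agent.FMO

theorem gen : S_GEN := t_GEN t_ELM t_STR (t_TOR t_TOZ) (t_FLD t_FLF) t_LAU

theorem grw : S_GRW := t_GRW t_STR t_UNI t_DGW t_TOZ t_GRK t_LAU

end Pool.Agent.FMO
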