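import Pool.Agent.FMO.Defs

/-!
# Few monomials (project FMO, MP_3af9db_ag, architect helper67): statements of the algebraic part

GENERIC THEOREM. Let `P` be a property of finitely generated `k`-algebras with the closure properties
`Clo`, `1 ≤ m`, and assume that `P A` holds if all residue fields of `A` are `Comp k m`. Then `P` holds for
`k[x_1, ..., x_n]/(f_j)` if `Add m f` (for example hypersurfaces with at most `m + 2` monomials, systems of
equations with at most two monomials and `m` equations with three).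

IDEA. Stratify by the sets `U` of the variables which are not zero (`STR`). On a stratum the algebra is
`Λ[x_1^(±1), ..., x_r^(±1)]`, where `Λ` is generated by the monomials `χ(α)`, `α` in the saturation of the group
generated by the differences of the exponents of each equation (`TOR`). If `q` is a prime of `Λ`, then
`χ(α)^N` is in the group generated by constants and by the `u_j`, `v_j`, `1 + c u_j + c' v_j = 0`, so `κ(q)` is contained
in the compositum of the algebraic closures of the `k(u_j)` (`FLD`).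

Every statement `S_XXX` is a module: `theorem t_XXX : S_XXX` (or `M_XXX : S_YYY → ... → S_XXX`) in
`Pool/Agent/FMO/XXX.lean`, import `Pool.Agent.FMO.St` (only Mathlib is needed), auxiliary lemmas in
namespace `Pool.Agent.FMO.XXXAux`.
-/

set_option autoImplicit false

open Polynomial Multiplicative

namespace Pool.Agent.FMO

/-! ### fields -/

/-- FLF (150 lines), the compositum. PROOF. `L = AlgebraicClosure F`, `ι : F → L`. `K j` = the elements of `L` which are
algebraic over `k(ι χ(u_j))`: `(algebraicClosure (IntermediateField.adjoin k {ι χ(u_j)}) L).restrictScalars k`.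
`trdeg k (K j) ≤ 1`: `K j` is algebraic over `k(ι χ(u_j))`, which is generated by one element
(`Algebra.IsAlgebraic.trdeg_le_cardinalMk` or similar, with the set `{ι χ(u_j)}`; search Mathlib for `trdeg`).
`ι χ(v_j) ∈ K j` because `c' χ(v_j) = - 1 - c χ(u_j)`, `c' ≠ 0`. If `y ∈ L`, `y ^ N ∈ K j`, `N > 0` then `y ∈ K j`; elements of `L` algebraic over
`k` are in `K j`. CLAIM: for `h ∈ Subgroup.closure D` there are `w_j ∈ K j`, `w_j ≠ 0`, with `ι χ(h) = ∏ j, w_j` (closure
induction; a constant: put it at `j = 0` (`1 ≤ m`), the other `w_j = 1`; `u_j`, `v_j`: at the place `j`; products and inverses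
are clear). Let `g : G`, `g ^ N ∈ closure D`, `N > 0`, `ι χ(g) ^ N = ∏ w_j`, and `y_j ∈ L` with `y_j ^ N = w_j`
(`IsAlgClosed.exists_pow_nat_eq`); `y_j ∈ K j`. Then `(ι χ(g) / ∏ y_j) ^ N = 1`, so `ι χ(g) / ∏ y_j` is algebraic over `k`, hence in
`K 0`; so `ι χ(g) ∈ ⨆ K j`. As `F = k(χ(G))` the image of `F` is contained in `⨆ K j`. -/
def S_FLF : Prop := ∀ (k F : Type) [Field k] [Field F] [Algebra k F] (m : ℕ) (_ : 1 ≤ m) (G : Type)
  [CommGroup G] (χ : G →* Fˣ) (u v : Fin m → G) (D : Set G)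
  (_ : IntermediateField.adjoin k (Set.range fun g => (χ g : F)) = ⊤)
  (_ : ∀ j, ∃ c c' : k, c' ≠ 0 ∧ 1 + c • (χ (u j) : F) + c' • (χ (v j) : F) = 0)
  (_ : ∀ g ∈ D, (∃ c : k, (χ g : F) = algebraMap k F c) ∨ ∃ j, g = u j ∨ g = v j)
  (_ : ∀ g : G, ∃ N : ℕ, 0 < N ∧ g ^ N ∈ Subgroup.closure D), Comp k m F

/-- FLD (80 lines), the residue fields. PROOF. Finitely generated: `G` is generated by a finite set `s`, and the subalgebra
generated by the `χ g`, `χ g⁻¹`, `g ∈ s`, contains all `χ g`. Residue fields: `F = Kp q`, the composition of `χ` and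
`Units.map` of `C → C ⧸ q → F`; `F` is generated by the image of `C`, which is generated as an algebra by the `χ g`
(`Algebra.adjoin ≤` the subalgebra of `IntermediateField.adjoin`; every element of the fraction field is a quotient). -/
def S_FLD : Prop := ∀ (k : Type) [Field k] (m : ℕ) (C : Type) [CommRing C] [Algebra k C],
  Mon k m C → Algebra.FiniteType k C ∧ (1 ≤ m → ∀ q : PrimeSpectrum C, Comp k m (Kp q))

def M_FLD : Prop := S_FLF → S_FLD

/-- CTR (80 lines), transcendence degree. PROOF. `F → ⨆ K j` is injective, so it is enough that `trdeg k (⨆ K j) ≤ m`.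
Choose transcendence bases `B j ⊆ K j`, `#(B j) ≤ 1`, let `B = ⋃ B j ⊆ L`, `#B ≤ m`. All elements of `K j` are algebraic over
`k(B)`, so `⨆ K j` is contained in the algebraic closure of `k(B)` in `L`. (`Algebra.trdeg` of an algebraic extension of
`k(B)` is at most `#B`.) -/
def S_CTR : Prop := ∀ (k F : Type) [Field k] [Field F] [Algebra k F] (m : ℕ),
  Comp k m F → Algebra.trdeg k F ≤ m

/-- CIN (40 lines), simple properties of `Comp`: invariance under isomorphisms; fields of transcendence degree at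
most one. PROOF. Compose `e` with the isomorphism. `L = F`, `K j = ⊤` (the field `⊤` is isomorphic to `F` over `k`). -/
def S_CIN : Prop := ∀ (k : Type) [Field k] (m : ℕ),
  (∀ (F F' : Type) [Field F] [Algebra k F] [Field F'] [Algebra k F'], (F ≃ₐ[k] F') →
    Comp k m F → Comp k m F') ∧
  (1 ≤ m → ∀ (F : Type) [Field F] [Algebra k F], Algebra.trdeg k F ≤ 1 → Comp k m F)

/-! ### stratification -/

/-- STR (120 lines), the strata. PROOF. Generalise: `P C` for all `U`, `Z` and all `C` with `Univ f U Z C φ`, by induction on the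
number of `v` with `v ∉ U`, `v ∉ Z`. If there is none: hypothesis. Otherwise `a = φ v` for such a `v`: `C ⧸ (a)` is universal for
`U`, `insert v Z`, and `Localization.Away a` for `insert v U`, `Z` (compare `Univ.quotient`, `Univ.localization` in
`Pool/Agent/GZT/Step.lean`), and `Clo.glue` with the two canonical homomorphisms (`Strat`). -/
def S_STR : Prop := ∀ (k : Type) [Field k]
  (P : ∀ (A : Type) [CommRing A] [Algebra k A] [Algebra.FiniteType k A], Prop) (_ : Clo k P)
  (V : Type) [Finite V] (ι : Type) (f : ι → MvPolynomial V k),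
  (∀ (U Z : Set V), (∀ v, v ∈ U ∨ v ∈ Z) → ∀ (C : Type) [CommRing C] [Algebra k C]
    [Algebra.FiniteType k C] (φ : V → C), Univ f U Z C φ → P C) →
  ∀ (C : Type) [CommRing C] [Algebra k C] [Algebra.FiniteType k C] (φ : V → C),
    Univ f ∅ ∅ C φ → P C

/-- UNI (30 lines): the algebra of the system is universal. -/
def S_UNI : Prop := ∀ (k : Type) [Field k] (V ι : Type) (f : ι → MvPolynomial V k),
  Univ f ∅ ∅ (MvPolynomial V k ⧸ Ideal.span (Set.range f))
    (fun v => Ideal.Quotient.mk (Ideal.span (Set.range f)) (MvPolynomial.X v))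

/-- ELM (100 lines), elimination. PROOF. `s` and `g_i`, `h_j` from `Add`. `ι' = Fin m ⊕ ι`,
`f' (inl i) = X (inr i) - g_i` (at most three monomials), `f' (inr j) = h_j`, `φ (inl i) =` class of `X i`, `φ (inr i) =` class of
`s i`. `Few`: `t` = the image of `Fin m`. `sat`: `aeval φ g_i =` class of `aeval (Sum.elim X s) g_i = s i`. `lift`: for `ψ` let
`G : MvPolynomial (Fin n) k → D`, `X i ↦ ψ (inl i)`. `G (s i) = ψ (inr i)` by strong induction on `i`: `G (s i) = aeval (Sum.elim
(ψ ∘ inl) (G ∘ s)) g_i`, which depends only on the variables of `g_i` (`MvPolynomial.eval₂Hom_congr'`), and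
`ψ (inr i) = aeval ψ g_i`. So `G (f j) = aeval ψ h_j = 0`. `ext`: the classes of the `X i` generate. -/
def S_ELM : Prop := ∀ (k : Type) [Field k] (m n : ℕ) (ι : Type) (f : ι → MvPolynomial (Fin n) k),
  Add m f → ∃ (ι' : Type) (f' : ι' → MvPolynomial (Fin n ⊕ Fin m) k)
    (φ : Fin n ⊕ Fin m → MvPolynomial (Fin n) k ⧸ Ideal.span (Set.range f)),
    Few m f' ∧ Univ f' ∅ ∅ (MvPolynomial (Fin n) k ⧸ Ideal.span (Set.range f)) φ

/-- MNO (100 lines), polynomials with few monomials. PROOF. Write `p = M_1 + ... + M_(m+2)` with terms `M_i` (a term is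
`MvPolynomial.monomial α c`; add zeros). `s_0 = M_1 + M_2`, `s_i = s_(i-1) + M_(i+2)`, `p = s_(m-1) + M_(m+2)` (if `m = 0`:
`p = M_1 + M_2`). -/
def S_MNO : Prop := ∀ (k : Type) [Field k] (m n : ℕ) (p : MvPolynomial (Fin n) k),
  p.support.card ≤ m + 2 → Add m (fun _ : Fin 1 => p)

/-- FEW (80 lines): `Few m f → Add m f`. PROOF. `t` has at most `m` elements; for the `i`-th element `j` of `t`: `f j = M_1 + M_2 + M_3`,
`s_i = M_1 + M_2`, `f j = s_i + M_3` (`s_i` does not use the other `s`); for `j ∉ t` use `rename Sum.inl (f j)`. -/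
def S_FEW : Prop := ∀ (k : Type) [Field k] (m n : ℕ) (ι : Type) (f : ι → MvPolynomial (Fin n) k),
  Few m f → Add m f

/-! ### tori -/

/-- TOZ (250 lines), a torus. PROOF. This is `Pool.Agent.GZT.torus_of` (`Pool/Agent/GZT/TorB.lean`, 473 lines; copy the file to
`FMO/TOZ.lean` and adapt it) with the following changes: `deg`, `s` are given; the system is given by polynomials. As there:
`x v = φ v` for `v ∈ U`, `x v = 1` otherwise, `χ = mon x`, `Λ = Lam k χ deg` (`Lam` is `Lam` there), `yL α = χ(α - s(deg α)) ∈ Λ`,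
`Psi α = yL α * T^(deg α)`, `ψ v = Psi (ev v)` for `v ∈ U`, `0` otherwise. `sat`: in `aeval ψ (f j)` only the monomials `α` supported in
`U` are left, `aeval ψ (monomial α c) = c Psi(α)`, all these `α` have the same degree `d`, so the sum is
`(∑ c_α yL(α)) T^d`, and `∑ c_α yL(α) = χ(- s d) ∑ c_α χ(α) = χ(- s d) aeval φ (f j) = 0`. For `v ∉ U`: `Psi (ev v) = 1` because
`deg (ev v) = 0`. The rest (the inverse `r : Laur r Λ → C`, `X i ↦ χ(s(e_i))`) is the same; give a `k`-algebra isomorphism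
(`AlgEquiv.ofAlgHom` or `AlgEquiv.ofRingEquiv`; `g` is a `k`-algebra homomorphism and `hgL` is the last claim). -/
def S_TOZ : Prop := ∀ (k : Type) [Field k] (V : Type) [Fintype V] [DecidableEq V] (ι : Type)
  (f : ι → MvPolynomial V k) (U Z : Set V) (_ : ∀ v, v ∈ U ∨ v ∈ Z) (C : Type) [CommRing C]
  [Algebra k C] [Nontrivial C] (φ : V → C) (_ : Univ f U Z C φ) (r : ℕ)
  (deg : (V → ℤ) →+ (Fin r → ℤ)) (s : (Fin r → ℤ) →+ (V → ℤ)) (_ : ∀ a, deg (s a) = a)
  (_ : ∀ v, v ∉ U → deg (Pi.single v 1) = 0)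
  (_ : ∀ j, ∀ α ∈ (f j).support, ∀ β ∈ (f j).support, (∀ v, v ∉ U → α v = 0) →
    (∀ v, v ∉ U → β v = 0) → deg (fun v => (α v : ℤ)) = deg (fun v => (β v : ℤ))),
  ∃ χ : Multiplicative (V → ℤ) →* Cˣ,
    (∀ v ∈ U, (χ (ofAdd (Pi.single v 1)) : C) = φ v) ∧
    (∀ v, v ∉ U → χ (ofAdd (Pi.single v 1)) = 1) ∧
    ∃ e : C ≃ₐ[k] Laur r (Lam k χ deg), ∀ c : Lam k χ deg,
      e (c : C) = algebraMap (MvPolynomial (Fin r) (Lam k χ deg)) (Laur r (Lam k χ deg))
        (MvPolynomial.C c)

/-- TOR (200 lines), the strata of systems with few monomials. PROOF. `N` = the subgroup of `V → ℤ` generated by the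
differences `α - β`, `α, β ∈ (f j).support` both supported in `U`, and the `ev v = Pi.single v 1`, `v ∉ U`.
`Pool.Agent.GZT.exists_deg N` (`Pool/Agent/GZT/TorA.lean`, only Mathlib) gives `r`, `deg`, `s`, `N ≤ ker deg`, and every `α` with
`deg α = 0` has a multiple in `N`. `TOZ` gives `χ` and `C ≃ Laur r Λ`, `Λ = Lam k χ deg`. `Mon k m Λ`: `G = Multiplicative (ker deg)`
(finitely generated as a subgroup of `V → ℤ`), `χ` with values in the units of `Λ` (`χ(α)`, `χ(-α) ∈ Λ`). In `C` (so in `Λ` after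
the multiplication by a unit): `∑ c_α χ(α) = 0`, the sum over the `α ∈ (f j).support` supported in `U` (`aeval φ (f j) = 0`,
`aeval φ (monomial α c) = c χ(α)`, and `= 0` if `α` is not supported in `U`). The number of these `α` is `0`, or `2`
(then `χ(α - α')` is a constant), or `3` and `j ∈ t` (then `1 + c χ(α' - α) + c' χ(α'' - α) = 0`, `c' ≠ 0`: `u`, `v`); it is
not `1` because `C` is nontrivial. Number the elements of `t` by a subset of `Fin m`; for the remaining indices `u = v = 1`,
`c' = 1`, `c = -2`. `D = {g | χ g constant} ∪ range u ∪ range v`; the generators of `N` are in the subgroup generated by `D`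
(`χ(ev v) = 1` for `v ∉ U`). -/
def S_TOR : Prop := ∀ (k : Type) [Field k] (V : Type) [Fintype V] (ι : Type)
  (f : ι → MvPolynomial V k) (m : ℕ) (_ : Few m f) (U Z : Set V) (_ : ∀ v, v ∈ U ∨ v ∈ Z)
  (C : Type) [CommRing C] [Algebra k C] [Nontrivial C] (φ : V → C) (_ : Univ f U Z C φ),
  ∃ (r : ℕ) (Λ : Type) (_ : CommRing Λ) (_ : Algebra k Λ), Nonempty (C ≃ₐ[k] Laur r Λ) ∧ Mon k m Λ

def M_TOR : Prop := S_TOZ → S_TOR

/-- LAU (150 lines), Laurent polynomials. PROOF. Induction on `r`. `Laur 0 C ≃ C`. `Laur (r + 1) C` is isomorphic to the localization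
`U` of `A[X]`, `A = Laur r C`, away from `X` (`MvPolynomial.finSuccEquiv`, both are localizations), and `P A` gives `P A[X]` (`Clo.line`), and `P U` by
`Clo.opn` with `a = X`, `Z = A` (evaluation at `0`). -/
def S_LAU : Prop := ∀ (k : Type) [Field k]
  (P : ∀ (A : Type) [CommRing A] [Algebra k A] [Algebra.FiniteType k A], Prop) (_ : Clo k P)
  (C : Type) [CommRing C] [Algebra k C] [Algebra.FiniteType k C] (r : ℕ), P C → P (Laur r C)

/-- GEN (60 lines), the generic theorem. PROOF. `ELM`, then `STR` (the algebra is finitely generated); a stratum `C`: if it is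
trivial `Clo.triv`, otherwise `TOR`: `C ≃ Laur r Λ`, `FLD`: `Λ` is finitely generated with residue fields `Comp k m`, so `P Λ`,
`LAU`, `Clo.iso`. -/
def S_GEN : Prop := ∀ (k : Type) [Field k]
  (P : ∀ (A : Type) [CommRing A] [Algebra k A] [Algebra.FiniteType k A], Prop) (_ : Clo k P)
  (m : ℕ) (_ : 1 ≤ m)
  (_ : ∀ (A : Type) [CommRing A] [Algebra k A] [Algebra.FiniteType k A],
    (∀ q : PrimeSpectrum A, Comp k m (Kp q)) → P A)
  (n : ℕ) (ι : Type) (f : ι → MvPolynomial (Fin n) k), Add m f →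
    P (MvPolynomial (Fin n) k ⧸ Ideal.span (Set.range f))

def M_GEN : Prop := S_ELM → S_STR → S_TOR → S_FLD → S_LAU → S_GEN

/-! ### gradings -/

/-- DGW (80 lines), the degree. PROOF. The homomorphism `α ↦ ∑ v ∈ U, α_v w_v` has a finitely generated torsion free, so free, image
`M ⊆ Fin r → ℤ`; `deg` = the composition with an isomorphism `M ≃ (Fin r' → ℤ)` (`Module.finBasis`), `s` a section
(`Module.projective_lifting_property`, compare `Pool/Agent/GZT/TorA.lean`). -/
def S_DGW : Prop := ∀ (n r : ℕ) (w : Fin n → (Fin r → ℤ)) (U : Set (Fin n)),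
  ∃ (r' : ℕ) (deg : (Fin n → ℤ) →+ (Fin r' → ℤ)) (s : (Fin r' → ℤ) →+ (Fin n → ℤ)),
    (∀ a, deg (s a) = a) ∧ (∀ v, v ∉ U → deg (Pi.single v 1) = 0) ∧
    ∀ α : Fin n → ℤ, (∀ v, v ∉ U → α v = 0) → (deg α = 0 ↔ ∑ v, α v • w v = 0)

/-- GRK (200 lines), the residue fields of the degree zero algebra of a stratum. PROOF. Let `ρ : C → Λ` be the retraction
`e`, then `X i ↦ 1` (`Laur r Λ → Λ`), so `ρ c = c` for `c ∈ Λ`; `Q = ρ⁻¹(q)`, a prime of `C` with `Q ∩ Λ = q`; `p` = the inverse image of `Q`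
in `A`. `a_i ∉ p` iff `i ∈ U` (`φ i` is a unit for `i ∈ U`, zero otherwise). The homomorphisms `A ⧸ p → C ⧸ Q ← Λ ⧸ q` are injective and give
`Kp p → Kp Q ← Kp q` (`k`-algebra homomorphisms of fields). The image of `Kp q` is generated by the images of the `χ α`, `deg α = 0`
(they generate `Λ`). The image of `Kw w a p` is generated by the images of `∏ φ_i ^ α_i`, `α` supported in `U`, `∑ α_i w_i = 0`, which are the images of the
`χ α`, `α` supported in `U`, `deg α = 0`. These are the same sets: for `deg α = 0` let `α'` be `α` on `U` and `0` elsewhere, then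
`χ α = χ α'` and `deg α' = 0`. So `Kw w a p ≃ Kp q` (both are isomorphic to the same subfield of `Kp Q`). -/
def S_GRK : Prop := ∀ (k : Type) [Field k] (n r r' : ℕ) (w : Fin n → (Fin r → ℤ)) (A C : Type)
  [CommRing A] [Algebra k A] [CommRing C] [Algebra k C] (a : Fin n → A) (ρ : A →ₐ[k] C)
  (U : Set (Fin n)) (χ : Multiplicative (Fin n → ℤ) →* Cˣ)
  (_ : ∀ v ∈ U, (χ (ofAdd (Pi.single v 1)) : C) = ρ (a v)) (_ : ∀ v, v ∉ U → ρ (a v) = 0)
  (_ : ∀ v, v ∉ U → χ (ofAdd (Pi.single v 1)) = 1)
  (deg : (Fin n → ℤ) →+ (Fin r' → ℤ)) (_ : ∀ v, v ∉ U → deg (Pi.single v 1) = 0)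
  (_ : ∀ α : Fin n → ℤ, (∀ v, v ∉ U → α v = 0) → (deg α = 0 ↔ ∑ v, α v • w v = 0))
  (e : C ≃ₐ[k] Laur r' (Lam k χ deg)) (_ : ∀ c : Lam k χ deg,
      e (c : C) = algebraMap (MvPolynomial (Fin r') (Lam k χ deg)) (Laur r' (Lam k χ deg))
        (MvPolynomial.C c)) (q : PrimeSpectrum (Lam k χ deg)),
  ∃ p : PrimeSpectrum A, Nonempty (Kw (k := k) w a p ≃ₐ[k] Kp q)

/-- GRW (100 lines), graded algebras. PROOF. `STR` (with `UNI`). For a nontrivial stratum `C`: `DGW` gives `deg`, `s`; `TOZ` (the exponents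
`α`, `β` in the support of the weighted homogeneous polynomial `f j` have `∑ α_v w_v = ∑ β_v w_v`, so `deg (α - β) = 0` if they are supported in `U`)
gives `C ≃ Laur r' Λ`, `GRK` the residue fields of `Λ` (`A → C` is `Univ.lift` of the universal algebra `A`), so `P Λ`, `LAU`, `Clo.iso`. `Λ` is finitely
generated: the monoid `{α | deg α = 0}` is a finitely generated group. -/
def S_GRW : Prop := ∀ (k : Type) [Field k]
  (P : ∀ (A : Type) [CommRing A] [Algebra k A] [Algebra.FiniteType k A], Prop) (_ : Clo k P)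
  (Φ : ∀ (F : Type) [Field F] [Algebra k F], Prop) (_ : Inv k Φ)
  (_ : ∀ (A : Type) [CommRing A] [Algebra k A] [Algebra.FiniteType k A],
    (∀ q : PrimeSpectrum A, Φ (Kp q)) → P A)
  (n r : ℕ) (w : Fin n → (Fin r → ℤ)) (ι : Type) (f : ι → MvPolynomial (Fin n) k)
  (d : ι → (Fin r → ℤ)) (_ : ∀ j, (f j).IsWeightedHomogeneous w (d j))
  (_ : ∀ q : PrimeSpectrum (MvPolynomial (Fin n) k ⧸ Ideal.span (Set.range f)),
    Φ (Kw (k := k) w (fun i => Ideal.Quotient.mk (Ideal.span (Set.range f)) (MvPolynomial.X i)) q)),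
  P (MvPolynomial (Fin n) k ⧸ Ideal.span (Set.range f))

def M_GRW : Prop := S_STR → S_UNI → S_DGW → S_TOZ → S_GRK → S_LAU → S_GRW

end Pool.Agent.FMO
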