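import Pool.Agent.FMO.Defs2
import Pool.Agent.FMO.St
import Pool.Agent.UQ.Hom

/-!
# Few monomials (project FMO, MP_3af9db_ag, architect helper67): statements of the part on varieties

Same rules as in `St.lean`: `theorem t_XXX : S_XXX` in `Pool/Agent/FMO/XXX.lean`, import `Pool.Agent.FMO.St2`,
auxiliary lemmas in namespace `Pool.Agent.FMO.XXXAux`.
-/

set_option autoImplicit false

open CategoryTheory AlgebraicGeometry Polynomial

namespace Pool.Agent.FMO

open Pool.Agent.Lib_helper55.Beil (Var)
open UQ (Pt Mo di gp im IDim SP DimLE Th sp szer PSub toHom full pub2)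

universe v

/-- RES (100 lines), the residue fields of affine varieties. PROOF. `X = Spec A`. The point `x` is a prime `q`; the residue field
of `Spec A` at `q` is the residue field of the local ring `Localization.AtPrime` (see `q.asIdeal.ResidueField`,
`Scheme.residueField`, `Spec` stalks), which is the fraction field of `A ⧸ q`, as `k`-algebra: `Var.toResidue` is the composition
`k → A → κ(x)`. Compare `CUB.dim_toPt` (`Pool/Agent/CUB/BR1.lean`), where this is done for the transcendence degree by
the closed immersion `Spec (A ⧸ q) → Spec A` and the generic point (function field). -/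
def S_RES : Prop := ∀ (k : Type) [Field k] (A : Type) [CommRing A] [Algebra k A]
  [Algebra.FiniteType k A] (Φ : ∀ (F : Type) [Field F] [Algebra k F], Prop), Inv k Φ →
  (∀ x : Pt (sp k A), ∃ q : PrimeSpectrum A, At Φ (sp k A) x ↔ Φ (Kp q)) ∧
  ∀ q : PrimeSpectrum A, ∃ x : Pt (sp k A), At Φ (sp k A) x ↔ Φ (Kp q)

/-- IMM (60 lines), immersions do not change the residue fields. PROOF. `g.residueFieldMap v : κ(g v) → κ(v)` is bijective (compare
`dim_map` in the libraries of `Pool/Agent/Lib_helper55`, `Lib_helper66`, `CUB`), and it is a `k`-algebra homomorphism for the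
structures `toResidue`. -/
def S_IMM : Prop := ∀ (k : Type) [Field k] (V X : Var k) (g : V.X ⟶ X.X),
  g ≫ X.f = V.f → IsPreimmersion g → ∀ (Φ : ∀ (F : Type) [Field F] [Algebra k F], Prop),
  Inv k Φ → ∀ x : Pt V, At Φ V x ↔ At Φ X (g x)

/-- SMC (60 lines), small fields. PROOF. A transcendence degree is invariant under isomorphisms. By `CTR` a field with `Comp k 2` has transcendence
degree at most two; a cardinal `≤ 2` is `≤ 1` or `= 2`. -/
def S_SMC : Prop := ∀ (k : Type) [Field k],
  (∀ Φ : ∀ (F : Type) [Field F] [Algebra k F], Prop, Inv k Φ → Inv k (Sm Φ)) ∧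
  (Inv k fun F [Field F] [Algebra k F] => Comp k 2 F) ∧
  (∀ d : ℕ, Inv k fun F [Field F] [Algebra k F] => Algebra.trdeg k F ≤ d) ∧
  (∀ (F : Type) [Field F] [Algebra k F], Comp k 2 F →
    Sm (fun F [Field F] [Algebra k F] => Comp k 2 F) F) ∧
  ∀ X : Var k, CompX 2 X → ∀ x : Pt X, At (Sm (fun F [Field F] [Algebra k F] => Comp k 2 F)) X x

def M_SMC : Prop := S_CTR → S_CIN → S_SMC

/-- BAS (200 lines), varieties of dimension at most two. PROOF. `PPF T X` means `PF (T i) X` for all `i`. By hypothesis `X` has dimension at most two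
(`UQ.di` is the transcendence degree). `i = 0`: `QCV.pf_zero`. `i ≥ 2`: `QCV.pf_of_dimLE`. `i = 1`: noetherian induction as in
`QCV.pf_aux` (`Pool/Agent/QCV/F_BAS.lean`; copy it with the additional hypothesis that all points `v` of the preimmersed `V` satisfy the
condition of the theorem, which follows from `IMM`): it is enough to treat integral affine smooth `V` with a preimmersion to
`X`. Let `d` be its dimension. `d ≤ 1`: `QCV.pf_of_dimLE`. `d = 2`: `res` gives open immersions `U' → V`, `U' → Y`, `U'` not empty, `Y` smooth proper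
integral of dimension two. The generic point of `U'` maps to the generic points of `V` and `Y`, so `At Φ Y (gp Y)` by `IMM` (twice), and `tate`
gives `Surj`, `Semi` for `Y` (`UQ.surj_iff`, `UQ.semi_iff`), so `(T 1).gen Y ≤ (T 1).alg Y` (`CUB.OPEN.good`); `InjC` is `divisors` (dimension at most
`i + 1`), the supports `supp_of_dimLE` (see `QCV.ppf_of_dimLE_two`): `PF (T 1) Y`. `U'` is the complement in `Y` of a closed subvariety of dimension at most
one: `QCV.pf_open`, `QCV.pf_of_dimLE` (and `QCV.pf_zero` for the level `0`). `V` is pasted from `U'` and a closed subvariety of dimension at most one: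
`QCV.pf_glue`. -/
def S_BAS : Prop := ∀ (k E : Type) [Field k] [Finite k] [Field E] [CharZero E] (T : Th.{v} k E)
  (hT : T.Pub) (Φ : ∀ (F : Type) [Field F] [Algebra k F], Prop), Inv k Φ → Surf T Φ →
  ∀ X : Var k, (∀ x : Pt X, At (Sm Φ) X x) → QCV.PPF (toHom hT) X

def M_BAS : Prop := S_IMM → S_SMC → S_BAS.{v}

/-- CLP (60 lines), closure properties. PROOF. `QCV.cls0_ppf`, `QCV.ppf_line`; for `T.Tate`: `QCV.gg_iff` or `UQ.tate_eq`, `QCV.ggc (pub2 hT)`,
`QCV.cls0_gg` (see `ggEven` in `Pool/Agent/QCV/E_ASM.lean`). The structures `QCV.Strat` and `Strat` are the same. -/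
def S_CLP : Prop := ∀ (k E : Type) [Field k] [Finite k] [Field E] [CharZero E] (T : Th.{v} k E)
  (hT : T.Pub),
  Clo k (fun A [CommRing A] [Algebra k A] [Algebra.FiniteType k A] =>
    QCV.PPF (toHom hT) (sp k A)) ∧
  Clo k (fun A [CommRing A] [Algebra k A] [Algebra.FiniteType k A] => T.Tate (sp k A))

/-- PRJ (80 lines), projective varieties. PROOF. `QCV.Asm.s_BCO` with the property `PPF` (see `QCV.member_of_cone`, `Pool/Agent/QCV/Cls4.lean`, and
`QCV.ppf_of_member` for the closure properties: `cut`: `QCV.pf_open`, `QCV.pf_zero`; the same range: as `QCV.member_same_range` with `QCV.pf_nil` and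
`QCV.pf_of_red`; `bundle`: `QCV.ppfBun (pub2 hT)`). `R = k`: `PPF` for the point by `QCV.pp_of_dimLE_one`. For `T.Tate`: `UQ.Th.Main.cone` (`UQ.main`). -/
def S_PRJ : Prop := ∀ (k E : Type) [Field k] [Finite k] [Field E] [CharZero E] (T : Th.{v} k E)
  (hT : T.Pub) (n : ℕ) (ι : Type) (f : ι → MvPolynomial (Fin (n + 1)) k), Hom f →
  (QCV.PPF (toHom hT) (szer k k f) → ∀ X : Var k, PSub k f X → QCV.PPF (toHom hT) X) ∧
  (T.Tate (szer k k f) → ∀ X : Var k, PSub k f X → T.Tate X)

/-- FIN (120 lines), the results. PROOF. `GEN`, `GRW` for the classes of `CLP`; the hypothesis on the rings `A` by `RES` and `BAS` (for `Comp k 2`: `SMC`);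
for `T.Low d`: `RES` with `Φ = (trdeg ≤ d)`; `PRJ`; `PPF` implies `Q1` (`QCV.q1_of_pf`, `UQ.q1_iff`). -/
def S_FIN : Prop := ∀ (k E : Type) [Field k] [Finite k] [Field E] [CharZero E] (T : Th.{v} k E),
  T.Pub → (∀ Φ : ∀ (F : Type) [Field F] [Algebra k F], Prop, Inv k Φ → Surf T Φ → Torus T Φ) ∧
    (Tate66 T → Sparse T) ∧ SparseT T

def M_FIN : Prop := S_GEN → S_GRW → S_CIN → S_RES → S_SMC → S_BAS.{v} → S_CLP.{v} → S_PRJ.{v} →
  S_FIN.{v}

end Pool.Agent.FMO
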