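import Pool.Agent.FMO.St2
import Pool.Agent.FMO.Defs4

/-!
# Few monomials (project FMO, MP_3af9db_ag, architect helper67): statements, third part
-/

set_option autoImplicit false

open CategoryTheory AlgebraicGeometry Polynomial

namespace Pool.Agent.FMO

open Pool.Agent.Lib_helper55.Beil (Var)
open UQ (Pt Mo di gp im IDim SP DimLE Th sp szer PSub toHom full pub2)

universe v

/-- CLA (100 lines), the class. PROOF. Induction on `Cla B X`: the conversions of `UQ.member_to` (`Pool/Agent/UQ/Geo.lean`) and the
arguments of `QCV.ppf_of_member` (`Pool/Agent/QCV/Cls4.lean`), with the inputs as in `QCV.q1_member_of_pp` (`E_ASM.lean`). -/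
def S_CLA : Prop := ∀ (k E : Type) [Field k] [Finite k] [Field E] [CharZero E] (T : Th.{v} k E)
  (hT : T.Pub) (B : Var k → Prop), (∀ X, B X → QCV.PPF (toHom hT) X) →
  ∀ X : Var k, Cla B X → QCV.PPF (toHom hT) X

/-- SYS (80 lines), all finite systems. PROOF. `f : Fin r → ..`; for every `j` write `f_j = M_1 + ... + M_s` (`s ≥ 2`; compare `MNO`), with its own partial
sums `s_(j,1), s_(j,2), ...`; `m` = the total number of the partial sums (order them by `j`, then by `i`). Or by induction on `r`: from `Add m` for the
first `r` polynomials and `Add m'` for the last one (`MNO`) get `Add (m + m')` (rename the variables). -/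
def S_SYS : Prop := ∀ (k : Type) [Field k] (n r : ℕ) (f : Fin r → MvPolynomial (Fin n) k),
  ∃ m : ℕ, Add m f

def M_SYS : Prop := S_MNO → S_SYS

/-- AFF (60 lines), from affine varieties to all varieties. PROOF. `T.Tate X` is `gen ≤ alg` for all `i` (`UQ.tate_eq`, `QCV.gg_iff`), and it is enough to treat
integral affine varieties: `(T i).good_all` (see `QCV.good_of_sp`, `Pool/Agent/QCV/U3.lean`). -/
def S_AFF : Prop := ∀ (k E : Type) [Field k] [Finite k] [Field E] [CharZero E] (T : Th.{v} k E),
  T.Pub → (∀ (A : Type) [CommRing A] [Algebra k A] [Algebra.FiniteType k A], T.Tate (sp k A)) →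
  ∀ X : Var k, T.Tate X

end Pool.Agent.FMO
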